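import Pool.Agent.QC.Lab.Others

/-!
# Two inputs with the same words (MP_7c50a9_lc, section 7), `eta = 0`

`MatchL RS m γ γ' e z z'`: labels `z`, `z'` of the root system along the chains `γ 0, ..., γ m`
and `γ' 0 ∘ e 0, ..., γ' m ∘ e m`, with the same order types at all times and the same true labels.
`exists_matchL`: they exist if the words are the same.  `event_match`: the paths of an event.
-/

set_option autoImplicit false

namespace Pool.Agent.QC.Lab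

open Filter Topology MvPolynomial Set

variable {n l : ℕ} {Phi : MvPolynomial (Ix n l) ℂ}

/-- matched labels of two chains of paths -/
structure MatchL (RS : RootSys Phi) (m : ℕ) (γ γ' : ℕ → ℝ → Tup n l) (e : ℕ → ℝ → ℝ)
    (z z' : ℕ → Fin RS.M → ℝ → ℂ) : Prop where
  e_cont : ∀ k ≤ m, Continuous (e k)
  e_maps : ∀ k ≤ m, MapsTo (e k) (Icc 0 1) (Icc 0 1)
  e0 : ∀ k ≤ m, e k 0 = 0
  e1 : ∀ k ≤ m, e k 1 = 1
  lab : ∀ k ≤ m, SLab RS.M (fun s => RS.Rt (γ k s)) (Icc 0 1) (z k)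
  lab' : ∀ k ≤ m, SLab RS.M (fun s => RS.Rt (γ' k (e k s))) (Icc 0 1) (z' k)
  start : ∀ j, z 0 j 0 = z' 0 j 0
  join : ∀ k < m, ∀ j, z k j 1 = z (k + 1) j 0
  join' : ∀ k < m, ∀ j, z' k j 1 = z' (k + 1) j 0
  same : ∀ k ≤ m, ∀ s ∈ Icc (0 : ℝ) 1, SameZ (fun j => z k j s) fun j => z' k j s
  true_iff : ∀ j, z m j 1 ∈ SigF (f0 (γ m 1)) ↔ z' m j 1 ∈ SigF (f0 (γ' m 1))
  conf : ∃ R₀ : ℝ, 0 < R₀ ∧ ∀ R, R₀ ≤ R → ∃ C C' : ℕ → Grid.Conf RS.M R,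
    (∀ k ≤ m, (C k).z = z k) ∧ (∀ k ≤ m, (C' k).z = z' k) ∧
    ∀ k ≤ m, ∀ s ∈ Icc (0 : ℝ) 1, Grid.SameAt (C k) (C' k) s

/-- **matched labels from equal words** -/
theorem exists_matchL (hPhi : GoodPhi Phi) (RS : RootSys Phi) (m : ℕ) {γ γ' : ℕ → ℝ → Tup n l}
    (hc : ∀ k ≤ m, Continuous (γ k)) (hc' : ∀ k ≤ m, Continuous (γ' k))
    (hP : ∀ k ≤ m, ∀ s ∈ Icc (0 : ℝ) 1, eval (cfs (γ k s)) Phi ≠ 0)
    (hP' : ∀ k ≤ m, ∀ s ∈ Icc (0 : ℝ) 1, eval (cfs (γ' k s)) Phi ≠ 0)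
    (hj : ∀ k < m, γ k 1 = γ (k + 1) 0) (hj' : ∀ k < m, γ' k 1 = γ' (k + 1) 0)
    (h0 : γ 0 0 = γ' 0 0)
    (hw : ∀ k ≤ m, word (fun s => RS.Rt (γ k s)) = word (fun s => RS.Rt (γ' k s))) :
    ∃ e z z', MatchL RS m γ γ' e z z' := by
  obtain ⟨e, he, z, z', hz, hz', h1, h2, h3, h4, h5⟩ :=
    path_chain RS m hc hc' hP hP' hj hj' h0 hw
  exact ⟨e, z, z', fun k hk => (he k hk).1, fun k hk => (he k hk).2.1, fun k hk => (he k hk).2.2.1,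
    fun k hk => (he k hk).2.2.2, hz, hz', h1, h2, h3,
    fun k hk s hs => (hz k hk).sameZ (hz' k hk) hs (h4 k hk s hs),
    same_true hPhi RS m hc hc' hP hP' hj hj' h0 he hz hz' h1 h2 h3, h5⟩

section EndPt

variable {RS : RootSys Phi} {m : ℕ} {γ γ' : ℕ → ℝ → Tup n l} {e : ℕ → ℝ → ℝ}
  {z z' : ℕ → Fin RS.M → ℝ → ℂ} (H : MatchL RS m γ γ' e z z') {q q' : RTup n l}
  (hq : γ m 1 = tC q) (hq' : γ' m 1 = tC q') (hP : eval (cfs (tC q)) Phi ≠ 0)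
  (hP' : eval (cfs (tC q')) Phi ≠ 0)

include H

theorem MatchL.inj : Function.Injective fun j => z m j 1 :=
  (H.lab m le_rfl).inj 1 (by simp)

theorem MatchL.inj' : Function.Injective fun j => z' m j 1 :=
  (H.lab' m le_rfl).inj 1 (by simp)

theorem MatchL.range : RS.Rt (γ m 1) = Set.range fun j => z m j 1 :=
  (H.lab m le_rfl).range 1 (by simp)

theorem MatchL.range' : RS.Rt (γ' m 1) = Set.range fun j => z' m j 1 := by
  have h := (H.lab' m le_rfl).range 1 (by simp)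
  simp only [H.e1 m le_rfl] at h
  exact h

include hq in
theorem MatchL.cj : Cj fun j => z m j 1 := by
  refine cj_of_real RS (q := q) ?_
  rw [← hq]
  exact H.range

include hq' in
theorem MatchL.cj' : Cj fun j => z' m j 1 := by
  refine cj_of_real RS (q := q') ?_
  rw [← hq']
  exact H.range'

include hq hq' in
/-- the signs of the imaginary parts agree at a real end point -/
theorem MatchL.sgn (j : Fin RS.M) : (0 < (z m j 1).im ↔ 0 < (z' m j 1).im) ∧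
    ((z m j 1).im < 0 ↔ (z' m j 1).im < 0) :=
  ⟨(H.same m le_rfl 1 (by simp)).pos_iff H.inj H.inj' (H.cj hq) (H.cj' hq') j,
    (H.same m le_rfl 1 (by simp)).neg_iff H.inj H.inj' (H.cj hq) (H.cj' hq') j⟩

include hq hq' hP hP' in
/-- **the labels of a pair which is not real** -/
theorem MatchL.up {a a' : ℂ} (ha : a ∈ SigF (f0 (tC q))) (ha' : a' ∈ SigF (f0 (tC q')))
    (h0 : 0 < a.im) (h0' : 0 < a'.im)
    (hm : ∀ w ∈ SigF (f0 (tC q)), 0 < w.im → w ≠ a → a.im < w.im)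
    (hm' : ∀ w ∈ SigF (f0 (tC q')), 0 < w.im → w ≠ a' → a'.im < w.im) :
    ∃ α β, z m α 1 = a ∧ z' m α 1 = a' ∧ z m β 1 = (starRingEnd ℂ) a ∧
      z' m β 1 = (starRingEnd ℂ) a' := by
  refine up_label (H.same m le_rfl 1 (by simp)) H.inj H.inj' (H.cj hq) (H.cj' hq')
    (A := SigF (f0 (tC q))) (A' := SigF (f0 (tC q'))) ?_ ?_ ?_ ha ha' h0 h0' hm hm'
  · rw [← H.range, hq]
    exact RS.sub _ hP
  · rw [← H.range', hq']
    exact RS.sub _ hP'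
  · intro j
    rw [← hq, ← hq']
    exact H.true_iff j

include hq hq' hP hP' in
/-- **the labels of a real pair** -/
theorem MatchL.lr {v v' : ℝ}
    (hn : {w ∈ RS.Rt (tC q) | w.im = 0 ∧ w.re < v}.ncard =
      {w ∈ RS.Rt (tC q') | w.im = 0 ∧ w.re < v'}.ncard) {a a' b b' : ℂ}
    (ha : a ∈ SigF (f0 (tC q))) (ha' : a' ∈ SigF (f0 (tC q'))) (hb : b ∈ SigF (f0 (tC q)))
    (hb' : b' ∈ SigF (f0 (tC q'))) (a0 : a.im = 0 ∧ v ≤ a.re) (a0' : a'.im = 0 ∧ v' ≤ a'.re)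
    (b0 : b.im = 0 ∧ b.re < v) (b0' : b'.im = 0 ∧ b'.re < v')
    (hm : ∀ w ∈ SigF (f0 (tC q)), w.im = 0 → w ≠ a → w ≠ b → w.re < b.re ∨ a.re < w.re)
    (hm' : ∀ w ∈ SigF (f0 (tC q')), w.im = 0 → w ≠ a' → w ≠ b' → w.re < b'.re ∨ a'.re < w.re) :
    ∃ α β, z m α 1 = a ∧ z' m α 1 = a' ∧ z m β 1 = b ∧ z' m β 1 = b' := by
  refine real_label (H.same m le_rfl 1 (by simp)) H.inj H.inj' (H.cj hq) (H.cj' hq')
    (A := SigF (f0 (tC q))) (A' := SigF (f0 (tC q'))) ?_ ?_ ?_ (v := v) (v' := v') ?_ ha ha' hb hb'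
    a0 a0' b0 b0' hm hm'
  · rw [← H.range, hq]
    exact RS.sub _ hP
  · rw [← H.range', hq']
    exact RS.sub _ hP'
  · intro j
    rw [← hq, ← hq']
    exact H.true_iff j
  · rw [← H.range, ← H.range', hq, hq']
    exact hn

end EndPt

/-! ## The paths of an event -/

/-- the paths A, B, C of the event `t` in the frame `c` -/
noncomputable def evPath (q₀ : Tup n l) (q : RTup n l) (t₀ t : ℝ) (c : Fin n → ℝ) (κ ω : ℝ) :
    ℕ → ℝ → Tup n l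
  | 0 => pathA q₀ (tC (addT q t₀)) ω
  | 1 => pathB (tC q) t₀ ((t + κ : ℝ) : ℂ) ω
  | _ => pathC (tC (addT q (t + κ))) (xC c) ω

theorem evPath_start (q₀ : Tup n l) (q : RTup n l) (t₀ t : ℝ) (c : Fin n → ℝ) (κ ω : ℝ) :
    evPath q₀ q t₀ t c κ ω 0 0 = q₀ := pathA_zero _ _ _

theorem evPath_end (q₀ : Tup n l) (q : RTup n l) (t₀ t : ℝ) (c : Fin n → ℝ) (κ ω : ℝ) :
    evPath q₀ q t₀ t c κ ω 2 1 = tC (addT (shT c q) (t + κ)) := by
  show pathC _ _ _ 1 = _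
  rw [pathC_one, ← tC_shT, shT_addT]

theorem evPath_cont (q₀ : Tup n l) (q : RTup n l) (t₀ t : ℝ) (c : Fin n → ℝ) (κ ω : ℝ) (k : ℕ) :
    Continuous (evPath q₀ q t₀ t c κ ω k) := by
  match k with
  | 0 => exact pathA_cont _ _ _
  | 1 => exact pathB_cont _ _ _ _
  | _ + 2 => exact pathC_cont _ _ _

theorem evPath_join (q₀ : Tup n l) (q : RTup n l) (t₀ t : ℝ) (c : Fin n → ℝ) (κ ω : ℝ) :
    ∀ k < 2, evPath q₀ q t₀ t c κ ω k 1 = evPath q₀ q t₀ t c κ ω (k + 1) 0 := by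
  intro k hk
  interval_cases k
  · show pathA _ _ _ 1 = pathB _ _ _ _ 0
    rw [pathA_one, pathB_zero, tC_addT]
  · show pathB _ _ _ _ 1 = pathC _ _ _ 0
    rw [pathB_one, pathC_zero, tC_addT]

/-- the words of the paths of an event -/
def EvWords (RS : RootSys Phi) (q₀ : Tup n l) (q : RTup n l) (t₀ t : ℝ) (c : Fin n → ℝ)
    (R : EvRec) (κ ω : ℝ) : Prop :=
  word (fun s => RS.Rt (pathA q₀ (tC (addT q t₀)) ω s)) = R.wA ∧
  word (fun s => RS.Rt (pathB (tC q) t₀ ((t + κ : ℝ) : ℂ) ω s)) = R.wB ∧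
  word (fun s => RS.Rt (pathC (tC (addT q (t + κ))) (xC c) ω s)) = R.wC

/-- the genericity of the paths of an event -/
theorem evPath_ok {q₀ : Tup n l} (hq₀ : eval (cfs q₀) Phi ≠ 0) {q : RTup n l} {t₀ : ℝ}
    (hq : Good Phi q t₀) (t : ℝ) {c : Fin n → ℝ} (hc : eval (cfs (tC (shT c q))) Phi ≠ 0) :
    ∀ᶠ κ in 𝓝[>] (0 : ℝ), eval (cfs (tC (addT (shT c q) (t + κ)))) Phi ≠ 0 ∧
      ∀ᶠ ω in 𝓝[>] (0 : ℝ), ∀ k ≤ 2, ∀ s ∈ Icc (0 : ℝ) 1,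
        eval (cfs (evPath q₀ q t₀ t c κ ω k s)) Phi ≠ 0 := by
  filter_upwards [event_paths hq₀ hq.nz hq.nz₀ t hc] with κ h1
  refine ⟨by rw [← shT_addT]; exact h1.2.1, ?_⟩
  filter_upwards [h1.2.2] with ω h2 k hk s hs
  interval_cases k
  · exact (h2 s hs).1
  · exact (h2 s hs).2.1
  · exact (h2 s hs).2.2

/-- **the same record gives matched labels** -/
theorem event_match (hPhi : GoodPhi Phi) (RS : RootSys Phi) {q₀ : Tup n l}
    (hq₀ : eval (cfs q₀) Phi ≠ 0) {q q' : RTup n l} {t₀ t₀' : ℝ} (hq : Good Phi q t₀)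
    (hq' : Good Phi q' t₀') {t t' : ℝ} {c c' : Fin n → ℝ}
    (hc : eval (cfs (tC (shT c q))) Phi ≠ 0) (hc' : eval (cfs (tC (shT c' q'))) Phi ≠ 0)
    {R : EvRec} (hw : ∀ᶠ κ in 𝓝[>] (0 : ℝ), ∀ᶠ ω in 𝓝[>] (0 : ℝ), EvWords RS q₀ q t₀ t c R κ ω)
    (hw' : ∀ᶠ κ in 𝓝[>] (0 : ℝ), ∀ᶠ ω in 𝓝[>] (0 : ℝ), EvWords RS q₀ q' t₀' t' c' R κ ω) :
    ∀ᶠ κ in 𝓝[>] (0 : ℝ), ∀ᶠ ω in 𝓝[>] (0 : ℝ), ∃ e z z',
      MatchL RS 2 (evPath q₀ q t₀ t c κ ω) (evPath q₀ q' t₀' t' c' κ ω) e z z' := by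
  filter_upwards [hw, hw', evPath_ok hq₀ hq t hc, evPath_ok hq₀ hq' t' hc'] with κ a1 a2 a3 a4
  filter_upwards [a1, a2, a3.2, a4.2] with ω b1 b2 b3 b4
  refine exists_matchL hPhi RS 2 (fun k _ => evPath_cont _ _ _ _ _ _ _ k)
    (fun k _ => evPath_cont _ _ _ _ _ _ _ k) b3 b4 (evPath_join _ _ _ _ _ _ _)
    (evPath_join _ _ _ _ _ _ _) ?_ ?_
  · rw [evPath_start, evPath_start]
  · intro k hk
    interval_cases k
    · exact b1.1.trans b2.1.symm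
    · exact b1.2.1.trans b2.2.1.symm
    · exact b1.2.2.trans b2.2.2.symm

end Pool.Agent.QC.Lab
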