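import Pool.Agent.QC.Lab.Match
import Pool.Agent.QC.Asm.Vec

/-!
# The labels of the pair of an event (MP_7c50a9_lc, section 7), `eta = 0`

`PairUp`, `PairLR`: the pair at the end of the chain of an event (not real, real).
`pairUp_of_geo`, `pairLR_of_geo`: they follow from the geometry of the event.
`MatchL.pairUp`, `MatchL.pairLR`: the labels of the pair are the same for two inputs.
`events_match`: the same record gives matched labels, for finitely many events at the same time.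
-/

set_option autoImplicit false

namespace Pool.Agent.QC.Lab

open Filter Topology MvPolynomial Set

variable {n l : ℕ}

/-- the pair `a, conj a` at the level of the end point, not real -/
structure PairUp (q : RTup n l) (vn r' r : ℝ) (a : ℂ) : Prop where
  lt : r' < r
  mem : a ∈ SigF (f0 (tC q))
  pos : 0 < a.im
  sq : a ∈ sqc (vn : ℂ) r'
  low : ∀ w ∈ SigF (f0 (tC q)), 0 < w.im → w ≠ a → a.im < w.im
  only : ∀ w ∈ SigF (f0 (tC q)), w ∈ csqc (vn : ℂ) r → w = a ∨ w = (starRingEnd ℂ) a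

/-- the real pair `b < vn < a` at the level of the end point -/
structure PairLR (q : RTup n l) (vn r' r a b : ℝ) : Prop where
  lt : r' < r
  mema : (a : ℂ) ∈ SigF (f0 (tC q))
  memb : (b : ℂ) ∈ SigF (f0 (tC q))
  lta : vn < a
  ltb : b < vn
  sqa : (a : ℂ) ∈ sqc (vn : ℂ) r'
  sqb : (b : ℂ) ∈ sqc (vn : ℂ) r'
  out : ∀ w ∈ SigF (f0 (tC q)), w.im = 0 → w ≠ a → w ≠ b → w.re < b ∨ a < w.re
  only : ∀ w ∈ SigF (f0 (tC q)), w ∈ csqc (vn : ℂ) r → w = a ∨ w = b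

theorem PairUp.conj_mem {q : RTup n l} {vn r' r : ℝ} {a : ℂ} (h : PairUp q vn r' r a) :
    (starRingEnd ℂ) a ∈ SigF (f0 (tC q)) := sig_conj h.mem

/-- no critical value in the column of `a` between `a` and its conjugate -/
theorem PairUp.col {q : RTup n l} {vn r' r : ℝ} {a : ℂ} (h : PairUp q vn r' r a) {w : ℂ}
    (hw : w ∈ SigF (f0 (tC q))) (h1 : w.re = a.re) (h2 : |w.im| < a.im) : False := by
  have hs := h.sq
  have hlt := h.lt
  simp only [sqc, mem_ofPred_eq, Complex.ofReal_re, Complex.ofReal_im, sub_zero] at hs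
  have h3 : |a.im| = a.im := abs_of_pos h.pos
  have h4 : w ∈ csqc (vn : ℂ) r := by
    simp only [csqc, mem_ofPred_eq, Complex.ofReal_re, Complex.ofReal_im, sub_zero]
    exact ⟨by rw [h1]; linarith [hs.1], by linarith [hs.2]⟩
  rcases h.only w hw h4 with h5 | h5
  · rw [h5] at h2
    linarith
  · rw [h5, Complex.conj_im, abs_neg] at h2
    linarith

section Geo

variable {q : RTup n l} {tv κ vn r' r ρ0 ρ1 : ℝ} {T : Set ℂ}

private theorem mem_hd_end (hκ : 0 < κ) : ((tv + κ : ℝ) : ℂ) ∈ hd tv κ := by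
  refine ⟨?_, by simp⟩
  have : ((tv + κ : ℝ) : ℂ) - tv = ((κ : ℝ) : ℂ) := by push_cast; ring
  rw [this, Complex.norm_real, Real.norm_eq_abs, abs_of_pos hκ]

/-- the pair from the geometry of the event, case A -/
theorem pairUp_of_geo (G : Geo0 q tv κ vn r' r ρ0 ρ1 T) {μ : ℝ} (GA : GeoA0 q tv κ vn r' r μ)
    (hr : r' < r) (hρ : ρ0 < ρ1) (hT : ∀ c ∈ T, c.im = 0 ∨ r + ρ1 < |c.im|) :
    ∃ a, PairUp (addT q (tv + κ)) vn r' r a ∧ μ < dg vn a ∧
      dg vn ((starRingEnd ℂ) a) < -μ := by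
  obtain ⟨w1, w2, m1, m2, -, -, h1, h2, h3, h4, h5, h6⟩ := GA.plus
  have hs := h2
  simp only [sqc, mem_ofPred_eq, Complex.ofReal_re, Complex.ofReal_im, sub_zero] at hs
  have hr0 : 0 < r' := (abs_nonneg _).trans_lt hs.2
  have key : ∀ w ∈ SigF (f0 (tC (addT q (tv + κ)))), w ∈ csqc (vn : ℂ) r →
      w = w1 (Fin.last n) ∨ w = (starRingEnd ℂ) (w1 (Fin.last n)) := by
    rintro _ ⟨x, hx, rfl⟩ hw
    rcases h6 x hx hw with rfl | rfl
    · exact Or.inl rfl
    · exact Or.inr h3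
  have hsub : sqc (vn : ℂ) r' ⊆ csqc (vn : ℂ) r := by
    rintro w ⟨a1, a2⟩
    exact ⟨by linarith, by linarith⟩
  refine ⟨w1 (Fin.last n), ⟨hr, ⟨w1, m1, rfl⟩, h1, h2, ?_, key⟩, h4, by rw [← h3]; exact h5⟩
  intro w hw hw0 hne
  have e : tC (addT q (tv + κ)) = addT (tC q) ((tv + κ : ℝ) : ℂ) := tC_addT q (tv + κ)
  have hw' := hw
  rw [e] at hw'
  rcases G.sig _ (mem_hd_end G.κ_pos) w hw' with h7 | ⟨c, hc, h7⟩
  · rcases key w hw (hsub h7) with h8 | h8
    · exact absurd h8 hne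
    · rw [h8, Complex.conj_im] at hw0
      linarith
  · have h7' := h7
    simp only [sqc, mem_ofPred_eq] at h7'
    have hρ0 : 0 < ρ0 := (abs_nonneg _).trans_lt h7'.1
    have hsub' : sqc c ρ0 ⊆ csqc c ρ1 := by
      rintro z ⟨a1, a2⟩
      exact ⟨by linarith, by linarith⟩
    rcases hT c hc with h8 | h8
    · obtain ⟨w0, -, -, -, hu⟩ := G.one c hc
      obtain ⟨x, hx, rfl⟩ := hw
      have hcx : cjx x ∈ CritF (f0 (tC (addT q (tv + κ)))) := crit_conj hx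
      have h9 : (cjx x) (Fin.last n) ∈ csqc c ρ1 := by
        have h10 : (cjx x) (Fin.last n) = (starRingEnd ℂ) (x (Fin.last n)) := rfl
        rw [h10]
        obtain ⟨a1, a2⟩ := hsub' h7
        rw [h8, sub_zero] at a2
        refine ⟨by rw [Complex.conj_re]; exact a1, ?_⟩
        rw [Complex.conj_im, h8, sub_zero, abs_neg]
        exact a2
      have h11 := (hu x hx (hsub' h7)).trans (hu _ hcx h9).symm
      have h12 : (starRingEnd ℂ) (x (Fin.last n)) = x (Fin.last n) :=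
        (congrFun h11 (Fin.last n)).symm
      rw [Complex.conj_eq_iff_im] at h12
      exact absurd h12 hw0.ne'
    · have h9 : |c.im| ≤ |w.im| + |w.im - c.im| := by
        have : c.im = w.im - (w.im - c.im) := by ring
        calc |c.im| = |w.im - (w.im - c.im)| := by rw [← this]
          _ ≤ |w.im| + |w.im - c.im| := abs_sub _ _
      rw [abs_of_pos hw0] at h9
      have h10 : (w1 (Fin.last n)).im < r' := (le_abs_self _).trans_lt hs.2
      linarith [h7'.2]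

/-- the pair from the geometry of the event, case B -/
theorem pairLR_of_geo {N : Set (Fin (n + 1) → ℝ)} (GB : GeoB0 q tv κ vn r' r N) (hr : r' < r) :
    ∃ x1 x2 : Fin (n + 1) → ℝ, x1 ∈ N ∧ x2 ∈ N ∧
      PairLR (addT q (tv + κ)) vn r' r (x1 (Fin.last n)) (x2 (Fin.last n)) := by
  obtain ⟨x1, x2, m1, m2, -, -, h1, h2, h3, h4, h5, h6, h7⟩ := GB.plus
  have key : ∀ w ∈ SigF (f0 (tC (addT q (tv + κ)))), w ∈ csqc (vn : ℂ) r →
      w = x1 (Fin.last n) ∨ w = x2 (Fin.last n) := by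
    rintro _ ⟨x, hx, rfl⟩ hw
    rcases h7 x hx hw with rfl | rfl
    · exact Or.inl rfl
    · exact Or.inr rfl
  have hsub : sqc (vn : ℂ) r' ⊆ csqc (vn : ℂ) r := by
    rintro w ⟨a1, a2⟩
    exact ⟨by linarith, by linarith⟩
  refine ⟨x1, x2, h5, h6, ⟨hr, ⟨xC x1, m1, rfl⟩, ⟨xC x2, m2, rfl⟩, h2, h1, h3, h4, ?_, key⟩⟩
  intro w hw hw0 hne1 hne2
  have hout : w ∉ csqc (vn : ℂ) r := fun h8 => by
    rcases key w hw h8 with h9 | h9
    · exact hne1 h9
    · exact hne2 h9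
  have h8 : r < |w.re - vn| := by
    by_contra h9
    refine hout ⟨?_, ?_⟩
    · simpa using not_lt.1 h9
    · have : 0 ≤ r := by
        have := (abs_nonneg _).trans_lt h3.1
        linarith
      simp [hw0, this]
  have a3 := h3.1
  have a4 := h4.1
  simp only [Complex.ofReal_re] at a3 a4
  rw [abs_lt] at a3 a4
  rw [lt_abs] at h8
  rcases h8 with h8 | h8
  · right
    linarith
  · left
    linarith

end Geo

section EndPt

variable {Phi : MvPolynomial (Ix n l) ℂ} {RS : RootSys Phi} {m : ℕ} {γ γ' : ℕ → ℝ → Tup n l}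
  {e : ℕ → ℝ → ℝ} {z z' : ℕ → Fin RS.M → ℝ → ℂ} (H : MatchL RS m γ γ' e z z')
  {q q' : RTup n l} (hq : γ m 1 = tC q) (hq' : γ' m 1 = tC q')
  (hP : eval (cfs (tC q)) Phi ≠ 0) (hP' : eval (cfs (tC q')) Phi ≠ 0)

include H hq hq' hP hP'

/-- **the labels of the pair are the same for both inputs**, case A -/
theorem MatchL.pairUp {vn vn' r r' s s' : ℝ} {a a' : ℂ} (h : PairUp q vn r' r a)
    (h' : PairUp q' vn' s' s a') : ∃ α β, z m α 1 = a ∧ z' m α 1 = a' ∧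
      z m β 1 = (starRingEnd ℂ) a ∧ z' m β 1 = (starRingEnd ℂ) a' :=
  H.up hq hq' hP hP' h.mem h'.mem h.pos h'.pos h.low h'.low

/-- **the labels of the pair are the same for both inputs**, case B -/
theorem MatchL.pairLR {vn vn' r r' s s' a b a' b' : ℝ} (h : PairLR q vn r' r a b)
    (h' : PairLR q' vn' s' s a' b')
    (hn : {w ∈ RS.Rt (tC q) | w.im = 0 ∧ w.re < vn}.ncard =
      {w ∈ RS.Rt (tC q') | w.im = 0 ∧ w.re < vn'}.ncard) : ∃ α β, z m α 1 = a ∧ z' m α 1 = a' ∧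
      z m β 1 = b ∧ z' m β 1 = b' :=
  H.lr hq hq' hP hP' hn h.mema h'.mema h.memb h'.memb ⟨by simp, by simpa using h.lta.le⟩
    ⟨by simp, by simpa using h'.lta.le⟩ ⟨by simp, by simpa using h.ltb⟩
    ⟨by simp, by simpa using h'.ltb⟩ (by simpa using h.out) (by simpa using h'.out)

end EndPt

/-! ## All events of an input -/

theorem evPath_gam (q₀ : Tup n l) (q : RTup n l) (t₀ t : ℝ) (c : Fin n → ℝ) (κ ω : ℝ) :
    Gam q₀ q t₀ ω (t + κ) c (evPath q₀ q t₀ t c κ ω) := ⟨rfl, rfl, rfl⟩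

theorem evPath_chain (q₀ : Tup n l) (q : RTup n l) (t₀ t : ℝ) (c : Fin n → ℝ) (κ ω : ℝ) :
    Chain 2 (evPath q₀ q t₀ t c κ ω) :=
  ⟨fun k _ => (evPath_cont q₀ q t₀ t c κ ω k).continuousOn, evPath_join q₀ q t₀ t c κ ω⟩

/-- **matched labels for finitely many events at the same time** -/
theorem events_match {Phi : MvPolynomial (Ix n l) ℂ} (hPhi : GoodPhi Phi) (RS : RootSys Phi)
    {q₀ : Tup n l} (hq₀ : eval (cfs q₀) Phi ≠ 0) {q q' : RTup n l} {t₀ t₀' : ℝ}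
    (hq : Good Phi q t₀) (hq' : Good Phi q' t₀') {ι : Type*} [Finite ι] {t t' : ι → ℝ}
    {c c' : ι → Fin n → ℝ} (hc : ∀ i, eval (cfs (tC (shT (c i) q))) Phi ≠ 0)
    (hc' : ∀ i, eval (cfs (tC (shT (c' i) q'))) Phi ≠ 0) {R : ι → EvRec}
    (hw : ∀ i, ∀ᶠ κ in 𝓝[>] (0 : ℝ), ∀ᶠ ω in 𝓝[>] (0 : ℝ),
      EvWords RS q₀ q t₀ (t i) (c i) (R i) κ ω)
    (hw' : ∀ i, ∀ᶠ κ in 𝓝[>] (0 : ℝ), ∀ᶠ ω in 𝓝[>] (0 : ℝ),
      EvWords RS q₀ q' t₀' (t' i) (c' i) (R i) κ ω) :
    ∀ᶠ κ in 𝓝[>] (0 : ℝ), ∀ᶠ ω in 𝓝[>] (0 : ℝ), ∀ i, ∃ e z z',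
      MatchL RS 2 (evPath q₀ q t₀ (t i) (c i) κ ω) (evPath q₀ q' t₀' (t' i) (c' i) κ ω) e z z' := by
  have h := fun i => event_match hPhi RS hq₀ hq hq' (hc i) (hc' i) (hw i) (hw' i)
  have h1 := Filter.eventually_all.2 h
  filter_upwards [h1] with κ h2
  exact Filter.eventually_all.2 h2

end Pool.Agent.QC.Lab
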