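import Pool.Agent.QC.Lab.Word

/-!
# The paths of an event are admissible (MP_7c50a9_lc, sections 6 and 8)

`event_paths`: for all small `κ > 0` and then all small `ω > 0` the genericity polynomial does not
vanish along the paths A, B, C.  `three_pieces`: labels with the same ranks for two sequences of
paths with the same words.
-/

set_option autoImplicit false

namespace Pool.Agent.QC.Lab

open Filter Topology MvPolynomial

/-! ## Arcs -/

theorem arc_zero (ω : ℝ) (z : ℂ) : arc ω z 0 = 0 := by simp [arc]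

theorem arc_one (ω : ℝ) (z : ℂ) : arc ω z 1 = z := by simp [arc]

theorem arc_re (ω x s : ℝ) : (arc ω x s).re = x * s := by simp [arc]

theorem arc_im (ω x s : ℝ) : (arc ω x s).im = ω * s * (1 - s) := by simp [arc]

theorem arc_cont (ω : ℝ) (z : ℂ) : Continuous (arc ω z) := by
  unfold arc
  fun_prop

private theorem arc_avoid_one (b : ℂ) (x : ℝ) (h0 : b ≠ 0) (h1 : b ≠ x) :
    ∀ᶠ ω in 𝓝[>] (0 : ℝ), ∀ s ∈ Set.Icc (0 : ℝ) 1, arc ω x s ≠ b := by
  rcases le_or_gt b.im 0 with hb | hb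
  · filter_upwards [self_mem_nhdsWithin] with ω hω s hs he
    have hω' : 0 < ω := hω
    have h2 : ω * s * (1 - s) = b.im := by rw [← arc_im ω x s, he]
    rcases eq_or_lt_of_le hs.1 with h3 | h3
    · rw [← h3, arc_zero] at he
      exact h0 he.symm
    rcases eq_or_lt_of_le hs.2 with h4 | h4
    · rw [h4, arc_one] at he
      exact h1 he.symm
    have h5 : 0 < ω * s * (1 - s) := mul_pos (mul_pos hω' h3) (by linarith)
    linarith
  · filter_upwards [self_mem_nhdsWithin, Ioo_mem_nhdsGT hb] with ω hω hω2 s hs he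
    have hω' : 0 < ω := hω
    have h2 : ω * s * (1 - s) = b.im := by rw [← arc_im ω x s, he]
    have h3 : ω * s * (1 - s) ≤ ω := by
      have h4 : s * (1 - s) ≤ 1 := by nlinarith [hs.1, hs.2]
      nlinarith
    linarith [hω2.2]

/-- for small `ω` the arc avoids finitely many points -/
theorem arc_avoid {B : Set ℂ} (hB : B.Finite) (x : ℝ) (h0 : (0 : ℂ) ∉ B) (h1 : (x : ℂ) ∉ B) :
    ∀ᶠ ω in 𝓝[>] (0 : ℝ), ∀ s ∈ Set.Icc (0 : ℝ) 1, arc ω x s ∉ B := by
  have h : ∀ᶠ ω in 𝓝[>] (0 : ℝ), ∀ b ∈ B, ∀ s ∈ Set.Icc (0 : ℝ) 1, arc ω x s ≠ b := by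
    rw [hB.eventually_all]
    intro b hb
    exact arc_avoid_one b x (fun h => h0 (h ▸ hb)) (fun h => h1 (h ▸ hb))
  filter_upwards [h] with ω hω s hs hb
  exact hω _ hb s hs rfl

/-- small positive real numbers avoid the roots of a polynomial -/
theorem ev_eval_ne {P : Polynomial ℂ} (hP : P ≠ 0) (t : ℝ) :
    ∀ᶠ κ in 𝓝[>] (0 : ℝ), P.eval ((t + κ : ℝ) : ℂ) ≠ 0 := by
  have h : ∀ᶠ κ in 𝓝[>] (0 : ℝ), ∀ b ∈ P.roots.toFinset, ((t + κ : ℝ) : ℂ) ≠ b := by
    rw [Filter.eventually_all_finset]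
    intro b _
    rcases le_or_gt (b.re - t) 0 with hb | hb
    · filter_upwards [self_mem_nhdsWithin] with κ hκ he
      have hκ' : 0 < κ := hκ
      have h2 : t + κ = b.re := by rw [← he, Complex.ofReal_re]
      linarith
    · filter_upwards [Ioo_mem_nhdsGT hb] with κ hκ he
      have h2 : t + κ = b.re := by rw [← he, Complex.ofReal_re]
      linarith [hκ.2]
  filter_upwards [h] with κ hκ he
  exact hκ _ (Multiset.mem_toFinset.2 ((Polynomial.mem_roots hP).2 he)) rfl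

/-! ## Polynomial paths of tuples -/

section Poly

variable {n l : ℕ}

/-- the coefficients of `γ u` are polynomials in `u` -/
def PolyPath (γ : ℂ → Tup n l) : Prop :=
  ∃ f : Ix n l → Polynomial ℂ, ∀ u i, cfs (γ u) i = (f i).eval u

/-- a family of tuples with continuous coefficients is continuous -/
theorem cont_of_cfs {X : Type*} [TopologicalSpace X] {γ : X → Tup n l}
    (h : ∀ i, Continuous fun x => cfs (γ x) i) : Continuous γ := by
  refine continuous_pi fun m => ?_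
  refine Continuous.prodMk (continuous_pi fun i => continuous_pi fun j => ?_)
    (Continuous.prodMk (continuous_pi fun i => ?_) ?_)
  · exact h (m, Sum.inl (i, j))
  · exact h (m, Sum.inr (Sum.inl i))
  · exact h (m, Sum.inr (Sum.inr ()))

theorem PolyPath.continuous {γ : ℂ → Tup n l} (h : PolyPath γ) : Continuous γ := by
  obtain ⟨f, hf⟩ := h
  refine cont_of_cfs fun i => ?_
  simp only [hf]
  exact (f i).continuous

/-- a polynomial in the coefficients is a polynomial in the parameter -/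
theorem PolyPath.eval {γ : ℂ → Tup n l} (h : PolyPath γ) (Phi : MvPolynomial (Ix n l) ℂ) :
    ∃ P : Polynomial ℂ, ∀ u, MvPolynomial.eval (cfs (γ u)) Phi = P.eval u := by
  obtain ⟨f, hf⟩ := h
  refine ⟨MvPolynomial.aeval f Phi, fun u => ?_⟩
  have h1 : cfs (γ u) = fun i => (f i).eval u := funext fun i => hf u i
  rw [h1]
  induction Phi using MvPolynomial.induction_on with
  | C a => simp
  | add p q hp hq => rw [map_add, map_add, Polynomial.eval_add, hp, hq]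
  | mul_X p i hp => rw [map_mul, map_mul, Polynomial.eval_mul, hp]; simp

/-- along the arc above a segment with good ends the polynomial `Phi` does not vanish -/
theorem PolyPath.arc {γ : ℂ → Tup n l} (h : PolyPath γ) {Phi : MvPolynomial (Ix n l) ℂ} (x : ℝ)
    (h0 : MvPolynomial.eval (cfs (γ 0)) Phi ≠ 0) (h1 : MvPolynomial.eval (cfs (γ x)) Phi ≠ 0) :
    ∀ᶠ ω in 𝓝[>] (0 : ℝ), ∀ s ∈ Set.Icc (0 : ℝ) 1,
      MvPolynomial.eval (cfs (γ (QC.arc ω x s))) Phi ≠ 0 := by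
  obtain ⟨P, hP⟩ := h.eval Phi
  have hP0 : P ≠ 0 := by
    rintro rfl
    rw [hP] at h0
    exact h0 (by simp)
  filter_upwards [arc_avoid (B := {u | P.eval u = 0}) (Polynomial.finite_setOfPred_isRoot hP0) x
    (by rw [hP] at h0; exact h0) (by rw [hP] at h1; exact h1)] with ω hω s hs
  rw [hP]
  exact hω s hs

/-- small real displacements -/
theorem PolyPath.ev {γ : ℂ → Tup n l} (h : PolyPath γ) {Phi : MvPolynomial (Ix n l) ℂ} {u₀ : ℂ}
    (h0 : MvPolynomial.eval (cfs (γ u₀)) Phi ≠ 0) (t : ℝ) :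
    ∀ᶠ κ in 𝓝[>] (0 : ℝ), MvPolynomial.eval (cfs (γ ((t + κ : ℝ) : ℂ))) Phi ≠ 0 := by
  obtain ⟨P, hP⟩ := h.eval Phi
  have hP0 : P ≠ 0 := by
    rintro rfl
    rw [hP] at h0
    exact h0 (by simp)
  filter_upwards [ev_eval_ne hP0 t] with κ hκ
  rw [hP]
  exact hκ

theorem poly_line (q₀ q₁ : Tup n l) : PolyPath fun u : ℂ => (1 - u) • q₀ + u • q₁ := by
  refine ⟨fun i => Polynomial.C (cfs q₀ i) +
    Polynomial.X * Polynomial.C (cfs q₁ i - cfs q₀ i), fun u i => ?_⟩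
  obtain ⟨m, i⟩ := i
  rcases i with ⟨j, k⟩ | j | _ <;> simp [cfs] <;> ring

theorem poly_addT (q : Tup n l) (t₀ : ℂ) : PolyPath fun u : ℂ => addT q (t₀ + u) := by
  refine ⟨fun i => if i = (0, Sum.inr (Sum.inr ())) then
    Polynomial.C (cfs q i + t₀) + Polynomial.X else Polynomial.C (cfs q i), fun u i => ?_⟩
  obtain ⟨m, i⟩ := i
  by_cases hm : m = 0
  · subst hm
    rcases i with ⟨j, k⟩ | j | _
    · simp [cfs, addT]
    · simp [cfs, addT]
    · simp [cfs, addT]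
      ring
  · rcases i with ⟨j, k⟩ | j | _ <;> simp [cfs, addT, hm]

theorem snoc_smul (u : ℂ) (c : Fin n → ℂ) (i : Fin (n + 1)) :
    (Fin.snoc (u • c) 0 : Fin (n + 1) → ℂ) i = u * (Fin.snoc c 0 : Fin (n + 1) → ℂ) i := by
  refine Fin.lastCases ?_ (fun i => ?_) i
  · simp
  · simp

theorem poly_shT (q : Tup n l) (c : Fin n → ℂ) : PolyPath fun u : ℂ => shT (u • c) q := by
  classical
  set d : Fin (n + 1) → ℂ := Fin.snoc c 0 with hd
  refine ⟨fun i => Sum.elim (fun jk =>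
      Polynomial.C ((q i.1).1 jk.1 jk.2) -
        Polynomial.X * Polynomial.C (d jk.1 * (q i.1).1 (Fin.last n) jk.2) -
        Polynomial.X * Polynomial.C ((q i.1).1 jk.1 (Fin.last n) * d jk.2) +
        Polynomial.X ^ 2 * Polynomial.C (d jk.1 * d jk.2 * (q i.1).1 (Fin.last n) (Fin.last n)))
    (Sum.elim (fun j => Polynomial.C ((q i.1).2.1 j) -
      Polynomial.X * Polynomial.C (d j * (q i.1).2.1 (Fin.last n)))
      (fun _ => Polynomial.C (q i.1).2.2)) i.2, fun u i => ?_⟩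
  obtain ⟨m, i⟩ := i
  rcases i with ⟨j, k⟩ | j | _
  · simp only [cfs, shT, shQ, Sum.elim_inl, snoc_smul, ← hd, Polynomial.eval_sub,
      Polynomial.eval_add, Polynomial.eval_mul, Polynomial.eval_C, Polynomial.eval_X,
      Polynomial.eval_pow]
    ring
  · simp only [cfs, shT, shQ, Sum.elim_inl, Sum.elim_inr, snoc_smul, ← hd, Polynomial.eval_sub,
      Polynomial.eval_mul, Polynomial.eval_C, Polynomial.eval_X]
    ring
  · simp [cfs, shT, shQ]

/-! ## The end points of the paths -/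

theorem addT_zero {R : Type*} [CommRing R] (q : Fin (l + 1) → QP R (n + 1)) : addT q 0 = q := by
  funext m
  by_cases hm : m = 0
  · subst hm
    simp [addT]
  · simp [addT, hm]

theorem shT_zero {R : Type*} [CommRing R] (q : Fin (l + 1) → QP R (n + 1)) : shT 0 q = q := by
  have h : (Fin.snoc (0 : Fin n → R) 0 : Fin (n + 1) → R) = 0 := by
    funext i
    refine Fin.lastCases ?_ (fun i => ?_) i
    · simp
    · simp
  funext m
  simp only [shT, shQ, h]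
  simp

theorem tC_addT (q : RTup n l) (t : ℝ) : tC (addT q t) = addT (tC q) (t : ℂ) := by
  funext m
  by_cases hm : m = 0
  · subst hm
    simp [addT, tC]
  · simp [addT, tC, hm]

theorem tC_shT (c : Fin n → ℝ) (q : RTup n l) : tC (shT c q) = shT (xC c) (tC q) := by
  have h : ∀ i, (Fin.snoc (xC c) 0 : Fin (n + 1) → ℂ) i =
      (((Fin.snoc c 0 : Fin (n + 1) → ℝ) i : ℝ) : ℂ) := by
    intro i
    refine Fin.lastCases ?_ (fun i => ?_) i
    · simp
    · simp [xC]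
  funext m
  simp only [shT, shQ, tC, h]
  push_cast
  rfl

theorem shT_addT {R : Type*} [CommRing R] (c : Fin n → R) (q : Fin (l + 1) → QP R (n + 1))
    (t : R) : shT c (addT q t) = addT (shT c q) t := by
  funext m
  by_cases hm : m = 0
  · subst hm
    simp [addT, shT, shQ]
  · simp [addT, shT, hm]

theorem pathA_zero (q₀ q₁ : Tup n l) (ω : ℝ) : pathA q₀ q₁ ω 0 = q₀ := by
  simp [pathA, arc_zero]

theorem pathA_one (q₀ q₁ : Tup n l) (ω : ℝ) : pathA q₀ q₁ ω 1 = q₁ := by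
  simp [pathA, arc_one]

theorem pathB_zero (q : Tup n l) (t₀ t : ℂ) (ω : ℝ) : pathB q t₀ t ω 0 = addT q t₀ := by
  simp [pathB, arc_zero]

theorem pathB_one (q : Tup n l) (t₀ t : ℂ) (ω : ℝ) : pathB q t₀ t ω 1 = addT q t := by
  simp [pathB, arc_one]

theorem pathC_zero (q : Tup n l) (c : Fin n → ℂ) (ω : ℝ) : pathC q c ω 0 = q := by
  simp [pathC, arc_zero, shT_zero]

theorem pathC_one (q : Tup n l) (c : Fin n → ℂ) (ω : ℝ) : pathC q c ω 1 = shT c q := by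
  simp [pathC, arc_one]

theorem pathA_cont (q₀ q₁ : Tup n l) (ω : ℝ) : Continuous (pathA q₀ q₁ ω) :=
  (poly_line q₀ q₁).continuous.comp (arc_cont ω 1)

theorem pathB_cont (q : Tup n l) (t₀ t : ℂ) (ω : ℝ) : Continuous (pathB q t₀ t ω) :=
  (poly_addT q t₀).continuous.comp (arc_cont ω (t - t₀))

theorem pathC_cont (q : Tup n l) (c : Fin n → ℂ) (ω : ℝ) : Continuous (pathC q c ω) :=
  (poly_shT q c).continuous.comp (arc_cont ω 1)

/-! ## Admissible paths -/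

variable {Phi : MvPolynomial (Ix n l) ℂ}

theorem pathA_ok {q₀ q₁ : Tup n l} (h0 : MvPolynomial.eval (cfs q₀) Phi ≠ 0)
    (h1 : MvPolynomial.eval (cfs q₁) Phi ≠ 0) :
    ∀ᶠ ω in 𝓝[>] (0 : ℝ), ∀ s ∈ Set.Icc (0 : ℝ) 1,
      MvPolynomial.eval (cfs (pathA q₀ q₁ ω s)) Phi ≠ 0 := by
  have h := (poly_line q₀ q₁).arc (Phi := Phi) 1 (by simpa using h0) (by simpa using h1)
  simpa [pathA] using h

theorem pathB_ok {q : Tup n l} {t₀ t : ℝ} (h0 : MvPolynomial.eval (cfs (addT q t₀)) Phi ≠ 0)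
    (h1 : MvPolynomial.eval (cfs (addT q t)) Phi ≠ 0) :
    ∀ᶠ ω in 𝓝[>] (0 : ℝ), ∀ s ∈ Set.Icc (0 : ℝ) 1,
      MvPolynomial.eval (cfs (pathB q t₀ t ω s)) Phi ≠ 0 := by
  have h := (poly_addT q t₀).arc (Phi := Phi) (t - t₀) (by simpa using h0)
    (by simpa using h1)
  filter_upwards [h] with ω hω s hs
  have h2 := hω s hs
  rw [Complex.ofReal_sub] at h2
  exact h2

theorem pathC_ok {q : Tup n l} {c : Fin n → ℂ} (h0 : MvPolynomial.eval (cfs q) Phi ≠ 0)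
    (h1 : MvPolynomial.eval (cfs (shT c q)) Phi ≠ 0) :
    ∀ᶠ ω in 𝓝[>] (0 : ℝ), ∀ s ∈ Set.Icc (0 : ℝ) 1,
      MvPolynomial.eval (cfs (pathC q c ω s)) Phi ≠ 0 := by
  have h := (poly_shT q c).arc (Phi := Phi) 1 (by simpa [shT_zero] using h0) (by simpa using h1)
  simpa [pathC] using h

/-- **the paths of an event are admissible** -/
theorem event_paths {q₀ : Tup n l} (hq₀ : MvPolynomial.eval (cfs q₀) Phi ≠ 0) {q : RTup n l}
    {t₀ : ℝ} (hq : MvPolynomial.eval (cfs (tC q)) Phi ≠ 0)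
    (hq1 : MvPolynomial.eval (cfs (tC (addT q t₀))) Phi ≠ 0) (t : ℝ) {c : Fin n → ℝ}
    (hc : MvPolynomial.eval (cfs (tC (shT c q))) Phi ≠ 0) :
    ∀ᶠ κ in 𝓝[>] (0 : ℝ), MvPolynomial.eval (cfs (tC (addT q (t + κ)))) Phi ≠ 0 ∧
      MvPolynomial.eval (cfs (tC (shT c (addT q (t + κ))))) Phi ≠ 0 ∧
      ∀ᶠ ω in 𝓝[>] (0 : ℝ), ∀ s ∈ Set.Icc (0 : ℝ) 1,
        MvPolynomial.eval (cfs (pathA q₀ (tC (addT q t₀)) ω s)) Phi ≠ 0 ∧
        MvPolynomial.eval (cfs (pathB (tC q) t₀ ((t + κ : ℝ) : ℂ) ω s)) Phi ≠ 0 ∧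
        MvPolynomial.eval (cfs (pathC (tC (addT q (t + κ))) (xC c) ω s)) Phi ≠ 0 := by
  have h1 := (poly_addT (tC q) 0).ev (Phi := Phi) (u₀ := 0) (by simpa [addT_zero] using hq) t
  have h2 := (poly_addT (tC (shT c q)) 0).ev (Phi := Phi) (u₀ := 0)
    (by simpa [addT_zero] using hc) t
  filter_upwards [h1, h2] with κ k1 k2
  have k1' : MvPolynomial.eval (cfs (tC (addT q (t + κ)))) Phi ≠ 0 := by
    rw [tC_addT]
    simpa using k1
  have k2' : MvPolynomial.eval (cfs (tC (shT c (addT q (t + κ))))) Phi ≠ 0 := by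
    rw [shT_addT, tC_addT]
    simpa using k2
  refine ⟨k1', k2', ?_⟩
  have a1 := pathA_ok hq₀ hq1
  have a2 := pathB_ok (Phi := Phi) (q := tC q) (t₀ := t₀) (t := t + κ)
    (by rw [← tC_addT]; exact hq1) (by rw [← tC_addT]; exact k1')
  have a3 := pathC_ok (Phi := Phi) (q := tC (addT q (t + κ))) (c := xC c) k1'
    (by rw [← tC_shT]; exact k2')
  filter_upwards [a1, a2, a3] with ω b1 b2 b3 s hs
  exact ⟨b1 s hs, b2 s hs, b3 s hs⟩

/-- **labels with the same ranks** for two sequences of paths of tuples with the same words -/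
theorem path_chain (RS : RootSys Phi) (m : ℕ) {γ γ' : ℕ → ℝ → Tup n l}
    (hc : ∀ k ≤ m, Continuous (γ k)) (hc' : ∀ k ≤ m, Continuous (γ' k))
    (hP : ∀ k ≤ m, ∀ s ∈ Set.Icc (0 : ℝ) 1, MvPolynomial.eval (cfs (γ k s)) Phi ≠ 0)
    (hP' : ∀ k ≤ m, ∀ s ∈ Set.Icc (0 : ℝ) 1, MvPolynomial.eval (cfs (γ' k s)) Phi ≠ 0)
    (hj : ∀ k < m, γ k 1 = γ (k + 1) 0) (hj' : ∀ k < m, γ' k 1 = γ' (k + 1) 0)
    (h0 : γ 0 0 = γ' 0 0)
    (hw : ∀ k ≤ m, word (fun s => RS.Rt (γ k s)) = word (fun s => RS.Rt (γ' k s))) :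
    ∃ e : ℕ → ℝ → ℝ, (∀ k ≤ m, Continuous (e k) ∧
        Set.MapsTo (e k) (Set.Icc 0 1) (Set.Icc 0 1) ∧ e k 0 = 0 ∧ e k 1 = 1) ∧
      ∃ z z' : ℕ → Fin RS.M → ℝ → ℂ,
        (∀ k ≤ m, SLab RS.M (fun s => RS.Rt (γ k s)) (Set.Icc 0 1) (z k)) ∧
        (∀ k ≤ m, SLab RS.M (fun s => RS.Rt (γ' k (e k s))) (Set.Icc 0 1) (z' k)) ∧
        (∀ j, z 0 j 0 = z' 0 j 0) ∧ (∀ k < m, ∀ j, z k j 1 = z (k + 1) j 0) ∧
        (∀ k < m, ∀ j, z' k j 1 = z' (k + 1) j 0) ∧
        (∀ k ≤ m, ∀ s ∈ Set.Icc (0 : ℝ) 1, ∀ j,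
          QC.rk (RS.Rt (γ k s)) (z k j s) = QC.rk (RS.Rt (γ' k (e k s))) (z' k j s)) ∧
        ∃ R₀ : ℝ, 0 < R₀ ∧ ∀ R, R₀ ≤ R → ∃ C C' : ℕ → Grid.Conf RS.M R,
          (∀ k ≤ m, (C k).z = z k) ∧ (∀ k ≤ m, (C' k).z = z' k) ∧
          ∀ k ≤ m, ∀ s ∈ Set.Icc (0 : ℝ) 1, Grid.SameAt (C k) (C' k) s := by
  have h1 : ∀ k, ∃ e : ℝ → ℝ, k ≤ m → Continuous e ∧
      Set.MapsTo e (Set.Icc 0 1) (Set.Icc 0 1) ∧ e 0 = 0 ∧ e 1 = 1 ∧
      ∀ s ∈ Set.Icc (0 : ℝ) 1, QC.OT (RS.Rt (γ k s)) = QC.OT (RS.Rt (γ' k (e s))) := by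
    intro k
    by_cases hk : k ≤ m
    · obtain ⟨e, he⟩ := word_eq (hw k hk)
      exact ⟨e, fun _ => he⟩
    · exact ⟨id, fun h => absurd h hk⟩
  choose e he using h1
  have hS : ∀ k ≤ m, Mov RS.M fun s => RS.Rt (γ k s) := fun k hk =>
    mov_of_path RS (hc k hk).continuousOn (hP k hk)
  have hT : ∀ k ≤ m, Mov RS.M fun s => RS.Rt (γ' k (e k s)) := fun k hk =>
    (mov_of_path RS (hc' k hk).continuousOn (hP' k hk)).comp (he k hk).1 (he k hk).2.1
  obtain ⟨z, z', hz, hz', hz0, hzj, hzj', hr⟩ := chain_labels m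
    (S := fun k s => RS.Rt (γ k s)) (T := fun k s => RS.Rt (γ' k (e k s))) hS hT
    (fun k hk => by rw [hj k hk])
    (fun k hk => by rw [(he k hk.le).2.2.2.1, (he (k + 1) hk).2.2.1, hj' k hk])
    (by rw [(he 0 (Nat.zero_le m)).2.2.1, h0])
    (fun k hk s hs => (he k hk).2.2.2.2 s hs)
  exact ⟨e, fun k hk => ⟨(he k hk).1, (he k hk).2.1, (he k hk).2.2.1, (he k hk).2.2.2.1⟩,
    z, z', hz, hz', hz0, hzj, hzj', hr, chain_conf m hz hz' hr⟩

end Poly

end Pool.Agent.QC.Lab
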