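import Pool.Agent.QC.Lab.Real

/-!
# Moving sets over a general interval: the true labels correspond (MP_7c50a9_lc, section 7)
-/

set_option autoImplicit false

namespace Pool.Agent.QC.Lab

open Filter Topology

variable {M : ℕ}

/-- the affine map from `[0,1]` to `[a,b]` -/
private theorem aff_tendsto {a b : ℝ} (hab : a ≤ b) {s : ℝ} :
    Tendsto (fun s : ℝ => a + s * (b - a)) (𝓝[Set.Icc 0 1] s)
      (𝓝[Set.Icc a b] (a + s * (b - a))) := by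
  have hm : Set.MapsTo (fun s : ℝ => a + s * (b - a)) (Set.Icc 0 1) (Set.Icc a b) := by
    intro s hs
    constructor
    · nlinarith [hs.1, hs.2]
    · nlinarith [hs.1, hs.2]
  have hc : Continuous fun s : ℝ => a + s * (b - a) := by fun_prop
  exact tendsto_nhdsWithin_iff.2 ⟨hc.continuousAt.mono_left nhdsWithin_le_nhds,
    eventually_mem_nhdsWithin.mono fun x hx => hm hx⟩

theorem aff_mem {a b : ℝ} (hab : a ≤ b) {s : ℝ} (hs : s ∈ Set.Icc (0 : ℝ) 1) :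
    a + s * (b - a) ∈ Set.Icc a b := by
  constructor
  · nlinarith [hs.1, hs.2]
  · nlinarith [hs.1, hs.2]

/-- a moving set over `[a,b]` gives a moving set over `[0,1]` -/
theorem mov_aff {a b : ℝ} (hab : a ≤ b) {S : ℝ → Set ℂ}
    (f : ∀ s ∈ Set.Icc a b, (S s).Finite) (c : ∀ s ∈ Set.Icc a b, (S s).ncard = M)
    (l : ∀ s ∈ Set.Icc a b, ∀ z ∈ S s, ∀ O ∈ 𝓝 z, ∀ᶠ s' in 𝓝[Set.Icc a b] s, (S s' ∩ O).Nonempty) :
    Mov M fun s => S (a + s * (b - a)) :=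
  ⟨fun _ hs => f _ (aff_mem hab hs), fun _ hs => c _ (aff_mem hab hs),
    fun _ hs z hz O hO => (aff_tendsto hab).eventually (l _ (aff_mem hab hs) z hz O hO)⟩

/-- the labels of the true points are constant -/
theorem const_aff {a b : ℝ} (hab : a ≤ b) {S Tr : ℝ → Set ℂ} {z : Fin M → ℝ → ℂ}
    (h : SLab M (fun s => S (a + s * (b - a))) (Set.Icc 0 1) z)
    (sub : ∀ s ∈ Set.Icc a b, Tr s ⊆ S s)
    (l : ∀ s ∈ Set.Icc a b, ∀ z ∈ Tr s, ∀ O ∈ 𝓝 z,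
      ∀ᶠ s' in 𝓝[Set.Icc a b] s, (Tr s' ∩ O).Nonempty)
    (u : ∀ s ∈ Set.Icc a b, ∀ z, z ∉ Tr s →
      ∀ᶠ p : ℝ × ℂ in 𝓝[Set.Icc a b ×ˢ Set.univ] (s, z), p.2 ∉ Tr p.1) (j : Fin M) :
    z j 0 ∈ Tr a ↔ z j 1 ∈ Tr b := by
  have m0 : (0 : ℝ) ∈ Set.Icc (0 : ℝ) 1 := Set.left_mem_Icc.2 zero_le_one
  have m1 : (1 : ℝ) ∈ Set.Icc (0 : ℝ) 1 := Set.right_mem_Icc.2 zero_le_one
  have k := h.const (A := fun s => Tr (a + s * (b - a))) (fun s hs => sub _ (aff_mem hab hs))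
    (fun s hs w hw O hO => (aff_tendsto hab).eventually (l _ (aff_mem hab hs) w hw O hO))
    (fun s hs w hw => by
      have h1 := u _ (aff_mem hab hs) w hw
      rw [nhdsWithin_prod_eq, nhdsWithin_univ, eventually_prod_iff] at h1
      obtain ⟨p, hp, q, hq, hpq⟩ := h1
      refine ⟨{x | q x}, hq, ?_⟩
      filter_upwards [(aff_tendsto hab).eventually hp] with t ht
      exact Set.disjoint_left.2 fun x hx hx' => hpq ht hx' hx) j 0 m0 1 m1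
  simpa using k

/-- **same order types: the true points correspond at the end** -/
theorem labels_ab {a b : ℝ} {S S' Tr Tr' : ℝ → Set ℂ} (hab : a ≤ b)
    (f : ∀ s ∈ Set.Icc a b, (S s).Finite) (c : ∀ s ∈ Set.Icc a b, (S s).ncard = M)
    (l : ∀ s ∈ Set.Icc a b, ∀ z ∈ S s, ∀ O ∈ 𝓝 z, ∀ᶠ s' in 𝓝[Set.Icc a b] s, (S s' ∩ O).Nonempty)
    (f' : ∀ s ∈ Set.Icc a b, (S' s).Finite) (c' : ∀ s ∈ Set.Icc a b, (S' s).ncard = M)
    (l' : ∀ s ∈ Set.Icc a b, ∀ z ∈ S' s, ∀ O ∈ 𝓝 z,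
      ∀ᶠ s' in 𝓝[Set.Icc a b] s, (S' s' ∩ O).Nonempty)
    (sub : ∀ s ∈ Set.Icc a b, Tr s ⊆ S s)
    (tl : ∀ s ∈ Set.Icc a b, ∀ z ∈ Tr s, ∀ O ∈ 𝓝 z,
      ∀ᶠ s' in 𝓝[Set.Icc a b] s, (Tr s' ∩ O).Nonempty)
    (tu : ∀ s ∈ Set.Icc a b, ∀ z, z ∉ Tr s →
      ∀ᶠ p : ℝ × ℂ in 𝓝[Set.Icc a b ×ˢ Set.univ] (s, z), p.2 ∉ Tr p.1)
    (sub' : ∀ s ∈ Set.Icc a b, Tr' s ⊆ S' s)
    (tl' : ∀ s ∈ Set.Icc a b, ∀ z ∈ Tr' s, ∀ O ∈ 𝓝 z,
      ∀ᶠ s' in 𝓝[Set.Icc a b] s, (Tr' s' ∩ O).Nonempty)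
    (tu' : ∀ s ∈ Set.Icc a b, ∀ z, z ∉ Tr' s →
      ∀ᶠ p : ℝ × ℂ in 𝓝[Set.Icc a b ×ˢ Set.univ] (s, z), p.2 ∉ Tr' p.1)
    (hOT : ∀ s ∈ Set.Icc a b, QC.OT (S s) = QC.OT (S' s)) (h0 : S a = S' a)
    (hTr0 : Tr a = Tr' a) {w w' : ℂ} (hw : w ∈ S b) (hw' : w' ∈ S' b)
    (hrk : QC.rk (S b) w = QC.rk (S' b) w') : w ∈ Tr b ↔ w' ∈ Tr' b := by
  have m1 : (1 : ℝ) ∈ Set.Icc (0 : ℝ) 1 := Set.right_mem_Icc.2 zero_le_one
  obtain ⟨z, z', hz, hz', hz0, -, -, hr⟩ := chain_labels 0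
    (S := fun _ s => S (a + s * (b - a))) (T := fun _ s => S' (a + s * (b - a)))
    (fun _ _ => mov_aff hab f c l) (fun _ _ => mov_aff hab f' c' l')
    (fun k hk => absurd hk (Nat.not_lt_zero k)) (fun k hk => absurd hk (Nat.not_lt_zero k))
    (by simpa using h0) (fun _ _ s hs => hOT _ (aff_mem hab hs))
  have hz := hz 0 le_rfl
  have hz' := hz' 0 le_rfl
  have e1 : a + 1 * (b - a) = b := by ring
  -- the labels of `w` and `w'`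
  have h1 := hz.range 1 m1
  have h2 := hz'.range 1 m1
  simp only [e1] at h1 h2
  have hwj := hw
  have hwj' := hw'
  rw [h1] at hwj
  rw [h2] at hwj'
  obtain ⟨j, hj⟩ := hwj
  obtain ⟨j', hj'⟩ := hwj'
  simp only at hj hj'
  have h3 := hr 0 le_rfl 1 m1 j
  simp only [e1] at h3
  rw [hj, hrk, h2, rk_range, rk_range] at h3
  have h4 : w' = z' 0 j 1 := by
    refine pr_inj (img fun j => z' 0 j 1) ?_ ?_ h3
    · rw [← hj']
      exact mem_img (fun j => z' 0 j 1) j'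
    · exact mem_img (fun j => z' 0 j 1) j
  rw [← hj, h4, ← const_aff hab hz sub tl tu j, ← const_aff hab hz' sub' tl' tu' j, hz0 j, hTr0]

end Pool.Agent.QC.Lab
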