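import Pool.Agent.QC.Lab.Roots
import Pool.Agent.QC.Grid.Defs

/-!
# From labelled roots to moving configurations (MP_7c50a9_lc, section 7)
-/

set_option autoImplicit false

namespace Pool.Agent.QC.Lab

open Finset Polynomial Pool.Agent.QC.Grid

variable {M d : ℕ} {r r' : ℝ → ℂ[X]}

/-- labelled roots are bounded -/
theorem Labels.bound {z : Fin M → ℝ → ℂ} (h : Labels M r (Set.Icc 0 1) z) :
    ∃ R₀ : ℝ, 0 < R₀ ∧ ∀ s ∈ Set.Icc (0 : ℝ) 1, ∀ j, |(z j s).re| < R₀ ∧ |(z j s).im| < R₀ := by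
  have h1 : ∀ j, ∃ B : ℝ, ∀ s ∈ Set.Icc (0 : ℝ) 1, ‖z j s‖ ≤ B := fun j =>
    isCompact_Icc.exists_bound_of_continuousOn (h.1 j)
  choose B hB using h1
  refine ⟨1 + ∑ j, |B j|, by positivity, fun s hs j => ?_⟩
  have h2 : ‖z j s‖ < 1 + ∑ j, |B j| := by
    have h3 := hB j s hs
    have h4 := le_abs_self (B j)
    have h5 := single_le_sum (f := fun j => |B j|) (fun i _ => abs_nonneg (B i)) (mem_univ j)
    linarith
  exact ⟨(Complex.abs_re_le_norm _).trans_lt h2, (Complex.abs_im_le_norm _).trans_lt h2⟩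

/-- the moving configuration of labelled roots -/
def Labels.conf {z : Fin M → ℝ → ℂ} (h : Labels M r (Set.Icc 0 1) z) (R : ℝ)
    (hR : ∀ s ∈ Set.Icc (0 : ℝ) 1, ∀ j, |(z j s).re| < R ∧ |(z j s).im| < R) : Conf M R where
  z := z
  cont := h.1
  inj := fun s hs _ _ hij => h.2.1 s hs hij
  re_lt := fun s hs j => (hR s hs j).1
  im_lt := fun s hs j => (hR s hs j).2

/-- equal pairs of ranks give equal weak orders -/
theorem sameAt_of_pr {R : ℝ} {C C' : Conf M R} {s : ℝ}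
    (h : ∀ j, pr (img fun j => C.z j s) (C.z j s) = pr (img fun j => C'.z j s) (C'.z j s)) :
    SameAt C C' s :=
  fun i j => ⟨re_lt_iff_of_pr h i j, im_lt_iff_of_pr h i j⟩

/-- **the two configurations of two families with equal order types**: `z` is any labelling of the
roots of the first family -/
theorem exists_conf {z : Fin M → ℝ → ℂ} (hz : Labels M r (Set.Icc 0 1) z)
    (hc : ∀ n, ContinuousOn (fun s => (r' s).coeff n) (Set.Icc 0 1))
    (hd : ∀ s ∈ Set.Icc (0 : ℝ) 1, (r' s).natDegree = d)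
    (h0 : ∀ s ∈ Set.Icc (0 : ℝ) 1, r' s ≠ 0)
    (hO : ∀ s ∈ Set.Icc (0 : ℝ) 1, OT (r s) = OT (r' s)) :
    ∃ z' : Fin M → ℝ → ℂ, Labels M r' (Set.Icc 0 1) z' ∧
      (∀ s ∈ Set.Icc (0 : ℝ) 1, ∀ j,
        pr (r s).roots.toFinset (z j s) = pr (r' s).roots.toFinset (z' j s)) ∧
      ∃ R₀ : ℝ, 0 < R₀ ∧ ∀ R, R₀ ≤ R → ∃ C C' : Conf M R, C.z = z ∧ C'.z = z' ∧
        ∀ s ∈ Set.Icc (0 : ℝ) 1, SameAt C C' s := by
  have hM : ∀ s ∈ Set.Icc (0 : ℝ) 1, (r' s).roots.toFinset.card = M := by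
    intro s hs
    rw [← card_OTs]
    have h1 := hO s hs
    unfold OT at h1
    rw [← h1, card_OTs, hz.2.2 s hs, img, card_image_of_injective _ (hz.2.1 s hs), card_univ,
      Fintype.card_fin]
  obtain ⟨y, hy⟩ := labels_exist hc hd h0 hM
  obtain ⟨z', hz', hp⟩ := labels_match hz hy hO
  refine ⟨z', hz', hp, ?_⟩
  obtain ⟨R₁, hR₁, h1⟩ := hz.bound
  obtain ⟨R₂, -, h2⟩ := hz'.bound
  refine ⟨max R₁ R₂, lt_max_of_lt_left hR₁, fun R hR => ?_⟩
  have k1 : ∀ s ∈ Set.Icc (0 : ℝ) 1, ∀ j, |(z j s).re| < R ∧ |(z j s).im| < R := fun s hs j =>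
    ⟨(h1 s hs j).1.trans_le ((le_max_left _ _).trans hR),
      (h1 s hs j).2.trans_le ((le_max_left _ _).trans hR)⟩
  have k2 : ∀ s ∈ Set.Icc (0 : ℝ) 1, ∀ j, |(z' j s).re| < R ∧ |(z' j s).im| < R := fun s hs j =>
    ⟨(h2 s hs j).1.trans_le ((le_max_right _ _).trans hR),
      (h2 s hs j).2.trans_le ((le_max_right _ _).trans hR)⟩
  refine ⟨hz.conf R k1, hz'.conf R k2, rfl, rfl, fun s hs => sameAt_of_pr fun j => ?_⟩
  have h3 := hp s hs j
  rw [hz.2.2 s hs, hz'.2.2 s hs] at h3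
  exact h3

/-- matching of two labelled motions of roots from agreement at one time -/
theorem match_labels {z z' : Fin M → ℝ → ℂ} (hz : Labels M r (Set.Icc 0 1) z)
    (hz' : Labels M r' (Set.Icc 0 1) z')
    (hO : ∀ s ∈ Set.Icc (0 : ℝ) 1, OT (r s) = OT (r' s)) {s₁ : ℝ} (hs₁ : s₁ ∈ Set.Icc (0 : ℝ) 1)
    (h₁ : ∀ j, pr (r s₁).roots.toFinset (z j s₁) = pr (r' s₁).roots.toFinset (z' j s₁)) :
    ∀ s ∈ Set.Icc (0 : ℝ) 1, ∀ j,
      pr (r s).roots.toFinset (z j s) = pr (r' s).roots.toFinset (z' j s) := by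
  intro s hs j
  have h := match_all (z := z) (z' := z') hz.1 hz'.1 hz.2.1 hz'.2.1 (fun s hs => by
    rw [← hz.2.2 s hs, ← hz'.2.2 s hs]
    exact hO s hs) hs₁ (fun j => by
    rw [← hz.2.2 s₁ hs₁, ← hz'.2.2 s₁ hs₁]
    exact h₁ j) s hs j
  rw [hz.2.2 s hs, hz'.2.2 s hs]
  exact h

/-- labels of a family with prescribed labels at time 0 -/
theorem labels_from {z : Fin M → ℝ → ℂ} (hz : Labels M r (Set.Icc 0 1) z) (a : Fin M → ℂ)
    (ha : Function.Injective a) (haS : (r 0).roots.toFinset = img a) :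
    ∃ y : Fin M → ℝ → ℂ, Labels M r (Set.Icc 0 1) y ∧ ∀ j, y j 0 = a j := by
  have h01 : (0 : ℝ) ∈ Set.Icc (0 : ℝ) 1 := ⟨le_rfl, zero_le_one⟩
  have h1 : ∀ j, ∃ i, z i 0 = a j := by
    intro j
    have h2 : a j ∈ (r 0).roots.toFinset := by rw [haS]; exact mem_img a j
    rw [hz.2.2 0 h01] at h2
    simp only [img, mem_image, mem_univ, true_and] at h2
    exact h2
  choose σ hσ using h1
  have hσi : Function.Injective σ := fun i j hij => ha (by rw [← hσ i, ← hσ j, hij])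
  let τ := Equiv.ofBijective σ (Finite.injective_iff_bijective.1 hσi)
  refine ⟨fun j => z (τ j), ⟨fun j => hz.1 (τ j), fun s hs => (hz.2.1 s hs).comp τ.injective,
    fun s hs => ?_⟩, hσ⟩
  rw [hz.2.2 s hs]
  exact (img_perm (fun j => z j s) τ).symm

end Pool.Agent.QC.Lab
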