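import Pool.Agent.QC.Lab.Real

/-!
# Constant order types (MP_7c50a9_lc, section 10: words)

If finitely many continuous functions have a constant number of distinct values on a preconnected
set then their coincidences are constant.  Applied to `z_i + conj z_j` and `z_i - conj z_j` for the
labels `z_j` of a moving set of complex numbers: the order type is constant.
-/

set_option autoImplicit false

namespace Pool.Agent.QC.Lab

open Filter Topology

variable {M : ℕ}

/-- constant number of distinct values: the coincidences are constant -/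
theorem eq_const {ι : Type*} [Finite ι] {J : Set ℝ} (hJ : IsPreconnected J) {f : ι → ℝ → ℂ}
    (hf : ∀ i, ContinuousOn (f i) J) {N : ℕ}
    (hN : ∀ s ∈ J, (Set.range fun i => f i s).ncard = N) (i j : ι) :
    ∀ s ∈ J, ∀ s' ∈ J, (f i s = f j s ↔ f i s' = f j s') := by
  classical
  -- near `s` all the coincidences are the same
  have hloc : ∀ s ∈ J, ∀ᶠ s' in 𝓝[J] s, ∀ i j, (f i s = f j s ↔ f i s' = f j s') := by
    intro s hs
    have h1 : ∀ᶠ s' in 𝓝[J] s, ∀ i j, f i s ≠ f j s → f i s' ≠ f j s' := by
      rw [Filter.eventually_all]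
      intro i
      rw [Filter.eventually_all]
      intro j
      by_cases h : f i s = f j s
      · exact Eventually.of_forall fun _ h' => absurd h h'
      · have h2 : ContinuousWithinAt (fun t => f i t - f j t) J s := (hf i s hs).sub (hf j s hs)
        have h3 := h2.eventually_ne (sub_ne_zero.2 h)
        filter_upwards [h3] with t ht _
        exact sub_ne_zero.1 ht
    filter_upwards [h1, self_mem_nhdsWithin] with t ht htJ
    -- the map from the values at `t` to the values at `s`
    intro i j
    have hne : Nonempty ι := ⟨i⟩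
    refine ⟨fun h => ?_, fun h => by_contra fun h' => ht i j h' h⟩
    by_contra hcon
    -- more values at `t` than at `s`
    have h2 : ∀ w ∈ Set.range (fun i => f i s), ∃ k, f k s = w := fun w hw => hw
    -- choose a representative for every value at `s`
    choose! g hg using h2
    have hgi : Set.InjOn (fun w => f (g w) t) (Set.range fun i => f i s) := by
      intro w hw w' hw' he
      by_contra hww
      refine ht (g w) (g w') ?_ he
      rw [hg w hw, hg w' hw']
      exact hww
    have hsub : (fun w => f (g w) t) '' (Set.range fun i => f i s) ⊆ Set.range fun i => f i t := by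
      rintro _ ⟨w, -, rfl⟩
      exact ⟨g w, rfl⟩
    have hcard : ((fun w => f (g w) t) '' (Set.range fun i => f i s)).ncard = N := by
      rw [hgi.ncard_image, hN s hs]
    have heq : (fun w => f (g w) t) '' (Set.range fun i => f i s) = Set.range fun i => f i t :=
      Set.eq_of_subset_of_ncard_le hsub (by rw [hcard, hN t htJ]) (Set.finite_range _)
    have hi : f i t ∈ (fun w => f (g w) t) '' (Set.range fun i => f i s) := by
      rw [heq]
      exact ⟨i, rfl⟩
    have hj : f j t ∈ (fun w => f (g w) t) '' (Set.range fun i => f i s) := by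
      rw [heq]
      exact ⟨j, rfl⟩
    have key : ∀ k, f k t ∈ (fun w => f (g w) t) '' (Set.range fun i => f i s) →
        f k t = f (g (f k s)) t := by
      rintro k ⟨w, hw, hwk⟩
      have h3 : w = f k s := by
        by_contra h4
        refine ht (g w) k ?_ hwk
        rw [hg w hw]
        exact h4
      rw [← h3]
      exact hwk.symm
    refine hcon ?_
    rw [key i hi, key j hj, h]
  intro s hs s' hs'
  refine hJ.induction₂ (fun x y => (f i x = f j x ↔ f i y = f j y))
    (fun x hx => (hloc x hx).mono fun y hy => hy i j) ?_ ?_ hs hs'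
  · intro x y w _ _ _ h1 h2
    exact h1.trans h2
  · intro x y _ _ h1
    exact h1.symm

/-- a continuous real function which vanishes everywhere or nowhere has constant sign -/
theorem lt_const {J : Set ℝ} (hJ : IsPreconnected J) {f g : ℝ → ℝ} (hf : ContinuousOn f J)
    (hg : ContinuousOn g J) (h : ∀ s ∈ J, ∀ s' ∈ J, (f s = g s ↔ f s' = g s')) :
    ∀ s ∈ J, ∀ s' ∈ J, (f s < g s ↔ f s' < g s') := by
  have key : ∀ s ∈ J, ∀ s' ∈ J, f s < g s → f s' < g s' := by
    intro s hs s' hs' h1
    by_contra h2
    rw [not_lt] at h2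
    have h3 : (0 : ℝ) ∈ (g - f) '' J := by
      have h4 := (hJ.image _ (hg.sub hf)).Icc_subset (Set.mem_image_of_mem _ hs')
        (Set.mem_image_of_mem _ hs)
      refine h4 ⟨?_, ?_⟩
      · rw [Pi.sub_apply]
        linarith
      · rw [Pi.sub_apply]
        linarith
    obtain ⟨t, ht, ht'⟩ := h3
    rw [Pi.sub_apply] at ht'
    have h5 : f t = g t := by linarith
    have h6 := (h t ht s hs).1 h5
    linarith
  exact fun s hs s' hs' => ⟨key s hs s' hs', key s' hs' s hs⟩

/-- **constant order type** from constant numbers of distinct sums and differences with the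
conjugates -/
theorem orders_const {J : Set ℝ} (hJ : IsPreconnected J) {z : Fin M → ℝ → ℂ}
    (hz : ∀ j, ContinuousOn (z j) J) {N N' : ℕ}
    (h1 : ∀ s ∈ J, (Set.range fun p : Fin M × Fin M =>
      z p.1 s + (starRingEnd ℂ) (z p.2 s)).ncard = N)
    (h2 : ∀ s ∈ J, (Set.range fun p : Fin M × Fin M =>
      z p.1 s - (starRingEnd ℂ) (z p.2 s)).ncard = N') :
    ∀ s ∈ J, ∀ s' ∈ J, SameZ (fun j => z j s) fun j => z j s' := by
  have hcj : ∀ j, ContinuousOn (fun s => (starRingEnd ℂ) (z j s)) J := fun j =>
    Complex.continuous_conj.comp_continuousOn (hz j)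
  have a1 := fun p q => eq_const hJ (f := fun (p : Fin M × Fin M) s =>
    z p.1 s + (starRingEnd ℂ) (z p.2 s)) (fun p => (hz p.1).add (hcj p.2)) h1 p q
  have a2 := fun p q => eq_const hJ (f := fun (p : Fin M × Fin M) s =>
    z p.1 s - (starRingEnd ℂ) (z p.2 s)) (fun p => (hz p.1).sub (hcj p.2)) h2 p q
  have e1 : ∀ w : ℂ, w + (starRingEnd ℂ) w = ((2 * w.re : ℝ) : ℂ) := by
    intro w
    rw [Complex.add_conj]
  have e2 : ∀ w : ℂ, w - (starRingEnd ℂ) w = ((2 * w.im : ℝ) : ℂ) * Complex.I := by
    intro w
    rw [Complex.sub_conj]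
  intro s hs s' hs' i j
  constructor
  · refine lt_const hJ (Complex.continuous_re.comp_continuousOn (hz i))
      (Complex.continuous_re.comp_continuousOn (hz j)) ?_ s hs s' hs'
    intro t ht t' ht'
    have h := a1 (i, i) (j, j) t ht t' ht'
    simp only [e1, Complex.ofReal_inj] at h
    simp only [Function.comp]
    constructor
    · intro h3
      have := h.1 (by rw [h3])
      linarith
    · intro h3
      have := h.2 (by rw [h3])
      linarith
  · refine lt_const hJ (Complex.continuous_im.comp_continuousOn (hz i))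
      (Complex.continuous_im.comp_continuousOn (hz j)) ?_ s hs s' hs'
    intro t ht t' ht'
    have h := a2 (i, i) (j, j) t ht t' ht'
    simp only [e2, mul_left_inj' Complex.I_ne_zero, Complex.ofReal_inj] at h
    simp only [Function.comp]
    constructor
    · intro h3
      have := h.1 (by rw [h3])
      linarith
    · intro h3
      have := h.2 (by rw [h3])
      linarith

/-- the ranks from the weak orders -/
theorem pr_of_sameZ {z z' : Fin M → ℂ} (h : SameZ z z') (j : Fin M) :
    pr (img z) (z j) = pr (img z') (z' j) := by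
  classical
  -- the rank is the number of classes of labels below
  have key : ∀ (a b : Fin M → ℝ), (∀ i j, a i < a j ↔ b i < b j) → ∀ j,
      ((Finset.univ.image a).filter fun y => y < a j).card =
        ((Finset.univ.image b).filter fun y => y < b j).card := by
    intro a b hab j
    have heq : ∀ i k, a i = a k ↔ b i = b k := by
      intro i k
      rw [le_antisymm_iff, le_antisymm_iff, ← not_lt, ← not_lt, ← not_lt, ← not_lt, hab, hab]
    refine Finset.card_bij' (fun y _ => if h : ∃ i, a i = y then b h.choose else 0)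
      (fun y _ => if h : ∃ i, b i = y then a h.choose else 0) ?_ ?_ ?_ ?_
    · intro y hy
      rw [Finset.mem_filter, Finset.mem_image] at hy
      obtain ⟨⟨i, -, hi⟩, hy2⟩ := hy
      have hex : ∃ i, a i = y := ⟨i, hi⟩
      simp only [hex, dite_true]
      have h3 := hex.choose_spec
      rw [Finset.mem_filter]
      refine ⟨Finset.mem_image_of_mem _ (Finset.mem_univ _), ?_⟩
      rw [← hab, h3]
      exact hy2
    · intro y hy
      rw [Finset.mem_filter, Finset.mem_image] at hy
      obtain ⟨⟨i, -, hi⟩, hy2⟩ := hy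
      have hex : ∃ i, b i = y := ⟨i, hi⟩
      simp only [hex, dite_true]
      have h3 := hex.choose_spec
      rw [Finset.mem_filter]
      refine ⟨Finset.mem_image_of_mem _ (Finset.mem_univ _), ?_⟩
      rw [hab, h3]
      exact hy2
    · intro y hy
      rw [Finset.mem_filter, Finset.mem_image] at hy
      obtain ⟨⟨i, -, hi⟩, hy2⟩ := hy
      have hex : ∃ i, a i = y := ⟨i, hi⟩
      simp only [hex, dite_true]
      have hex2 : ∃ k, b k = b hex.choose := ⟨_, rfl⟩
      simp only [hex2, dite_true]
      rw [(heq _ _).2 hex2.choose_spec]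
      exact hex.choose_spec
    · intro y hy
      rw [Finset.mem_filter, Finset.mem_image] at hy
      obtain ⟨⟨i, -, hi⟩, hy2⟩ := hy
      have hex : ∃ i, b i = y := ⟨i, hi⟩
      simp only [hex, dite_true]
      have hex2 : ∃ k, a k = a hex.choose := ⟨_, rfl⟩
      simp only [hex2, dite_true]
      rw [(heq _ _).1 hex2.choose_spec]
      exact hex.choose_spec
  unfold pr rk img
  rw [Finset.image_image, Finset.image_image, Finset.image_image, Finset.image_image]
  refine Prod.ext ?_ ?_
  · exact key (Complex.re ∘ z) (Complex.re ∘ z') (fun i k => (h i k).1) j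
  · exact key (Complex.im ∘ z) (Complex.im ∘ z') (fun i k => (h i k).2) j

/-- the order type from the weak orders -/
theorem OTs_of_sameZ {z z' : Fin M → ℂ} (h : SameZ z z') : OTs (img z) = OTs (img z') := by
  classical
  unfold OTs
  ext p
  simp only [img, Finset.mem_image, Finset.mem_univ, true_and, exists_exists_eq_and]
  constructor
  · rintro ⟨j, hj⟩
    exact ⟨j, by rw [← hj]; exact (pr_of_sameZ h j).symm⟩
  · rintro ⟨j, hj⟩
    exact ⟨j, by rw [← hj]; exact pr_of_sameZ h j⟩

/-- **constant order type** -/
theorem OTs_const {J : Set ℝ} (hJ : IsPreconnected J) {z : Fin M → ℝ → ℂ}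
    (hz : ∀ j, ContinuousOn (z j) J) {N N' : ℕ}
    (h1 : ∀ s ∈ J, (Set.range fun p : Fin M × Fin M =>
      z p.1 s + (starRingEnd ℂ) (z p.2 s)).ncard = N)
    (h2 : ∀ s ∈ J, (Set.range fun p : Fin M × Fin M =>
      z p.1 s - (starRingEnd ℂ) (z p.2 s)).ncard = N') {s s' : ℝ} (hs : s ∈ J) (hs' : s' ∈ J) :
    OTs (img fun j => z j s) = OTs (img fun j => z j s') :=
  OTs_of_sameZ (orders_const hJ hz h1 h2 s hs s' hs')

/-- **constant order type of the roots of a family of polynomials** -/
theorem OT_const {r : ℝ → Polynomial ℂ} {K J : Set ℝ} (hJ : IsPreconnected J) (hJK : J ⊆ K)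
    {z : Fin M → ℝ → ℂ} (hz : Labels M r K z) {N N' : ℕ}
    (h1 : ∀ s ∈ J, (Set.range fun p : Fin M × Fin M =>
      z p.1 s + (starRingEnd ℂ) (z p.2 s)).ncard = N)
    (h2 : ∀ s ∈ J, (Set.range fun p : Fin M × Fin M =>
      z p.1 s - (starRingEnd ℂ) (z p.2 s)).ncard = N') {s s' : ℝ} (hs : s ∈ J) (hs' : s' ∈ J) :
    OT (r s) = OT (r s') := by
  unfold OT
  rw [hz.2.2 s (hJK hs), hz.2.2 s' (hJK hs')]
  exact OTs_const hJ (fun j => (hz.1 j).mono hJK) h1 h2 hs hs'

/-- the same for moving sets of complex numbers -/
theorem OT_const_set {S : ℝ → Set ℂ} {K J : Set ℝ} (hJ : IsPreconnected J) (hJK : J ⊆ K)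
    {z : Fin M → ℝ → ℂ} (hz : SLab M S K z) {N N' : ℕ}
    (h1 : ∀ s ∈ J, (Set.range fun p : Fin M × Fin M =>
      z p.1 s + (starRingEnd ℂ) (z p.2 s)).ncard = N)
    (h2 : ∀ s ∈ J, (Set.range fun p : Fin M × Fin M =>
      z p.1 s - (starRingEnd ℂ) (z p.2 s)).ncard = N') {s s' : ℝ} (hs : s ∈ J) (hs' : s' ∈ J) :
    QC.OT (S s) = QC.OT (S s') := by
  rw [hz.range s (hJK hs), hz.range s' (hJK hs'), OT_range, OT_range,
    OTs_const hJ (fun j => (hz.cont j).mono hJK) h1 h2 hs hs']

end Pool.Agent.QC.Lab
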