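import Mathlib

/-!
# Order types of finite sets of complex numbers (MP_7c50a9_lc, section 7)

`rk s x` = number of elements of the finite set `s` of real numbers below `x`;
`pr Z z` = (rank of `Re z` among the real parts, rank of `Im z` among the imaginary parts);
`OTs Z` = the set of the pairs of the elements of `Z`; `OT p` = `OTs` of the set of roots of `p`.
-/

set_option autoImplicit false

namespace Pool.Agent.QC.Lab

open Finset Polynomial

/-- number of elements of `s` below `x` -/
noncomputable def rk (s : Finset ℝ) (x : ℝ) : ℕ := (s.filter fun y => y < x).card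

/-- the pair of ranks of `z` -/
noncomputable def pr (Z : Finset ℂ) (z : ℂ) : ℕ × ℕ :=
  (rk (Z.image Complex.re) z.re, rk (Z.image Complex.im) z.im)

/-- order type of a finite set of complex numbers -/
noncomputable def OTs (Z : Finset ℂ) : Finset (ℕ × ℕ) := Z.image (pr Z)

/-- order type of the distinct roots of a polynomial -/
noncomputable def OT (p : ℂ[X]) : Finset (ℕ × ℕ) := OTs p.roots.toFinset

theorem rk_mono (s : Finset ℝ) {x y : ℝ} (h : x ≤ y) : rk s x ≤ rk s y := by
  unfold rk
  exact card_le_card fun t ht => by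
    rw [mem_filter] at ht ⊢
    exact ⟨ht.1, ht.2.trans_le h⟩

theorem rk_lt (s : Finset ℝ) {x y : ℝ} (hx : x ∈ s) (h : x < y) : rk s x < rk s y := by
  unfold rk
  refine card_lt_card ((ssubset_iff_of_subset fun t ht => ?_).2 ⟨x, ?_, ?_⟩)
  · rw [mem_filter] at ht ⊢
    exact ⟨ht.1, ht.2.trans h⟩
  · exact mem_filter.2 ⟨hx, h⟩
  · exact fun hm => absurd (mem_filter.1 hm).2 (lt_irrefl x)

/-- on the set itself the rank compares as the numbers do -/
theorem rk_lt_iff (s : Finset ℝ) {x y : ℝ} (hx : x ∈ s) : rk s x < rk s y ↔ x < y := by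
  refine ⟨fun h => ?_, rk_lt s hx⟩
  by_contra hc
  exact absurd (rk_mono s (not_lt.1 hc)) (not_le.2 h)

theorem rk_inj (s : Finset ℝ) {x y : ℝ} (hx : x ∈ s) (hy : y ∈ s) (h : rk s x = rk s y) :
    x = y := by
  rcases lt_trichotomy x y with hl | hl | hl
  · exact absurd h (rk_lt s hx hl).ne
  · exact hl
  · exact absurd h (rk_lt s hy hl).ne'

theorem pr_inj (Z : Finset ℂ) {z w : ℂ} (hz : z ∈ Z) (hw : w ∈ Z) (h : pr Z z = pr Z w) :
    z = w := by
  unfold pr at h
  rw [Prod.mk.injEq] at h
  exact Complex.ext (rk_inj _ (mem_image_of_mem _ hz) (mem_image_of_mem _ hw) h.1)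
    (rk_inj _ (mem_image_of_mem _ hz) (mem_image_of_mem _ hw) h.2)

theorem pr_injOn (Z : Finset ℂ) : Set.InjOn (pr Z) Z := fun _ hz _ hw h => pr_inj Z hz hw h

theorem card_OTs (Z : Finset ℂ) : (OTs Z).card = Z.card :=
  card_image_of_injOn (pr_injOn Z)

end Pool.Agent.QC.Lab
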