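import Pool.Agent.QC.Lab.Defs

/-!
# Matching of labelled motions with equal order types (MP_7c50a9_lc, section 7)

If two labelled motions of finitely many distinct points of the plane have the same order type at
every time, and the labels agree at time 0 (same pairs of ranks), then the labels agree at all times.
-/

set_option autoImplicit false

namespace Pool.Agent.QC.Lab

open Finset

/-- two functions which are monotone for the same total preorder and have the same fibre sizes are
equal -/
private theorem eq_of_fibres {ι : Type*} [Fintype ι] [DecidableEq ι] (R : ι → ι → Prop)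
    (tot : ∀ i j, R i j ∨ R j i) (k l : ι → ℕ)
    (hk : ∀ i j, R i j → k i ≤ k j) (hl : ∀ i j, R i j → l i ≤ l j)
    (hc : ∀ m, (univ.filter fun i => k i = m).card = (univ.filter fun i => l i = m).card) :
    k = l := by
  classical
  have hc' : ∀ m, (univ.filter fun i => k i < m).card = (univ.filter fun i => l i < m).card := by
    intro m
    induction m with
    | zero => simp
    | succ m ih =>
      have e : ∀ f : ι → ℕ, (univ.filter fun i => f i < m + 1) =
          (univ.filter fun i => f i < m) ∪ (univ.filter fun i => f i = m) := by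
        intro f
        ext i
        simp only [mem_filter, mem_univ, true_and, mem_union]
        omega
      have d : ∀ f : ι → ℕ, Disjoint (univ.filter fun i => f i < m)
          (univ.filter fun i => f i = m) := by
        intro f
        rw [disjoint_left]
        intro i h1 h2
        simp only [mem_filter, mem_univ, true_and] at h1 h2
        omega
      rw [e k, e l, card_union_of_disjoint (d k), card_union_of_disjoint (d l), ih, hc m]
  have hs : ∀ m, (univ.filter fun i => k i < m) = (univ.filter fun i => l i < m) := by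
    intro m
    have key : (univ.filter fun i => k i < m) ⊆ (univ.filter fun i => l i < m) ∨
        (univ.filter fun i => l i < m) ⊆ (univ.filter fun i => k i < m) := by
      by_contra hcon
      rw [not_or, not_subset, not_subset] at hcon
      obtain ⟨⟨i, hi1, hi2⟩, ⟨j, hj1, hj2⟩⟩ := hcon
      simp only [mem_filter, mem_univ, true_and] at hi1 hi2 hj1 hj2
      rcases tot i j with h | h
      · exact hi2 (lt_of_le_of_lt (hl i j h) hj1)
      · exact hj2 (lt_of_le_of_lt (hk j i h) hi1)
    rcases key with h | h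
    · exact eq_of_subset_of_card_le h (hc' m).ge
    · exact (eq_of_subset_of_card_le h (hc' m).le).symm
  funext i
  by_contra hne
  rcases lt_or_gt_of_ne hne with h | h
  · have h1 : i ∈ univ.filter fun i => k i < l i := by simp [h]
    have h2 : i ∈ univ.filter fun j => k j < l i := by simp [h]
    rw [hs (l i)] at h2
    simp at h2
  · have h2 : i ∈ univ.filter fun j => l j < k i := by simp [h]
    rw [← hs (k i)] at h2
    simp at h2

/-- the set of positions of a labelled configuration -/
noncomputable def img {M : ℕ} (z : Fin M → ℂ) : Finset ℂ := univ.image z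

theorem mem_img {M : ℕ} (z : Fin M → ℂ) (j : Fin M) : z j ∈ img z :=
  mem_image_of_mem _ (mem_univ j)

/-- number of labels with a given real rank, from the order type -/
private theorem count_re {M : ℕ} (z : Fin M → ℂ) (hz : Function.Injective z) (m : ℕ) :
    (univ.filter fun i => (pr (img z) (z i)).1 = m).card =
      ((OTs (img z)).filter fun p => p.1 = m).card := by
  have e : (OTs (img z)).filter (fun p => p.1 = m) =
      (univ.filter fun i => (pr (img z) (z i)).1 = m).image fun i => pr (img z) (z i) := by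
    ext p
    simp only [OTs, img, mem_filter, mem_image, mem_univ, true_and]
    constructor
    · rintro ⟨⟨w, ⟨i, hi⟩, hw⟩, hp⟩
      refine ⟨i, ?_, ?_⟩
      · rw [hi, hw]; exact hp
      · rw [hi, hw]
    · rintro ⟨i, hi, hp⟩
      exact ⟨⟨z i, ⟨i, rfl⟩, hp⟩, by rw [← hp]; exact hi⟩
  rw [e, card_image_of_injective]
  intro i j hij
  exact hz (pr_inj _ (mem_img z i) (mem_img z j) hij)

private theorem count_im {M : ℕ} (z : Fin M → ℂ) (hz : Function.Injective z) (m : ℕ) :
    (univ.filter fun i => (pr (img z) (z i)).2 = m).card =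
      ((OTs (img z)).filter fun p => p.2 = m).card := by
  have e : (OTs (img z)).filter (fun p => p.2 = m) =
      (univ.filter fun i => (pr (img z) (z i)).2 = m).image fun i => pr (img z) (z i) := by
    ext p
    simp only [OTs, img, mem_filter, mem_image, mem_univ, true_and]
    constructor
    · rintro ⟨⟨w, ⟨i, hi⟩, hw⟩, hp⟩
      refine ⟨i, ?_, ?_⟩
      · rw [hi, hw]; exact hp
      · rw [hi, hw]
    · rintro ⟨i, hi, hp⟩
      exact ⟨⟨z i, ⟨i, rfl⟩, hp⟩, by rw [← hp]; exact hi⟩
  rw [e, card_image_of_injective]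
  intro i j hij
  exact hz (pr_inj _ (mem_img z i) (mem_img z j) hij)

/-- the real ranks compare as the real parts -/
theorem pr_re_lt {M : ℕ} (z : Fin M → ℂ) (i j : Fin M) :
    (pr (img z) (z i)).1 < (pr (img z) (z j)).1 ↔ (z i).re < (z j).re :=
  rk_lt_iff _ (mem_image_of_mem _ (mem_img z i))

/-- the imaginary ranks compare as the imaginary parts -/
theorem pr_im_lt {M : ℕ} (z : Fin M → ℂ) (i j : Fin M) :
    (pr (img z) (z i)).2 < (pr (img z) (z j)).2 ↔ (z i).im < (z j).im :=
  rk_lt_iff _ (mem_image_of_mem _ (mem_img z i))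

/-- the strict inequalities which hold at the configuration `z` also hold at the configuration `w` -/
def Near {M : ℕ} (z w : Fin M → ℂ) : Prop :=
  (∀ i j, (z i).re < (z j).re → (w i).re < (w j).re) ∧
    (∀ i j, (z i).im < (z j).im → (w i).im < (w j).im)

/-- going to the limit: if the pairs agree at the nearby configurations `w`, `w'`, they agree at the
central ones `z`, `z'` -/
private theorem to_centre {M : ℕ} {z w z' w' : Fin M → ℂ}
    (hz : Function.Injective z) (hz' : Function.Injective z')
    (hn : Near z w) (hn' : Near z' w') (hO : OTs (img z) = OTs (img z'))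
    (hp : ∀ j, pr (img w) (w j) = pr (img w') (w' j)) :
    ∀ j, pr (img z) (z j) = pr (img z') (z' j) := by
  have h1 : (fun j => (pr (img z) (z j)).1) = fun j => (pr (img z') (z' j)).1 := by
    refine eq_of_fibres (fun i j => (w i).re ≤ (w j).re) (fun i j => le_total _ _) _ _ ?_ ?_ ?_
    · intro i j hij
      by_contra hc
      exact absurd hij (not_le.2 (hn.1 j i ((pr_re_lt z j i).1 (not_le.1 hc))))
    · intro i j hij
      by_contra hc
      have h2 : (w' j).re < (w' i).re := hn'.1 j i ((pr_re_lt z' j i).1 (not_le.1 hc))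
      have h3 := (pr_re_lt w' j i).2 h2
      rw [← hp j, ← hp i] at h3
      exact absurd hij (not_le.2 ((pr_re_lt w j i).1 h3))
    · intro m
      rw [count_re z hz, count_re z' hz', hO]
  have h2 : (fun j => (pr (img z) (z j)).2) = fun j => (pr (img z') (z' j)).2 := by
    refine eq_of_fibres (fun i j => (w i).im ≤ (w j).im) (fun i j => le_total _ _) _ _ ?_ ?_ ?_
    · intro i j hij
      by_contra hc
      exact absurd hij (not_le.2 (hn.2 j i ((pr_im_lt z j i).1 (not_le.1 hc))))
    · intro i j hij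
      by_contra hc
      have h2 : (w' j).im < (w' i).im := hn'.2 j i ((pr_im_lt z' j i).1 (not_le.1 hc))
      have h3 := (pr_im_lt w' j i).2 h2
      rw [← hp j, ← hp i] at h3
      exact absurd hij (not_le.2 ((pr_im_lt w j i).1 h3))
    · intro m
      rw [count_im z hz, count_im z' hz', hO]
  intro j
  exact Prod.ext (congrFun h1 j) (congrFun h2 j)

/-- two injective configurations with the same order type have the same pairs after a permutation -/
theorem exists_perm {M : ℕ} {w w' : Fin M → ℂ} (hw : Function.Injective w)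
    (hO : OTs (img w) = OTs (img w')) :
    ∃ σ : Equiv.Perm (Fin M), ∀ j, pr (img w) (w j) = pr (img w') (w' (σ j)) := by
  have h : ∀ j, ∃ i, pr (img w) (w j) = pr (img w') (w' i) := by
    intro j
    have h1 : pr (img w) (w j) ∈ OTs (img w) := mem_image_of_mem _ (mem_img w j)
    rw [hO] at h1
    simp only [OTs, img, mem_image, mem_univ, true_and] at h1
    obtain ⟨v, ⟨i, hi⟩, hv⟩ := h1
    exact ⟨i, by rw [hi]; exact hv.symm⟩
  choose f hf using h
  have hinj : Function.Injective f := by
    intro i j hij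
    have h1 : pr (img w) (w i) = pr (img w) (w j) := by rw [hf i, hf j, hij]
    exact hw (pr_inj _ (mem_img w i) (mem_img w j) h1)
  exact ⟨Equiv.ofBijective f (Finite.injective_iff_bijective.1 hinj), hf⟩

theorem img_perm {M : ℕ} (z : Fin M → ℂ) (σ : Equiv.Perm (Fin M)) :
    img (fun j => z (σ j)) = img z := by
  ext w
  simp only [img, mem_image, mem_univ, true_and]
  constructor
  · rintro ⟨j, hj⟩
    exact ⟨σ j, hj⟩
  · rintro ⟨j, hj⟩
    exact ⟨σ.symm j, by simpa using hj⟩

private theorem from_centre {M : ℕ} {z w z' w' : Fin M → ℂ}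
    (hz : Function.Injective z) (hz' : Function.Injective z')
    (hw : Function.Injective w)
    (hn : Near z w) (hn' : Near z' w') (hO : OTs (img z) = OTs (img z'))
    (hO' : OTs (img w) = OTs (img w'))
    (hp : ∀ j, pr (img z) (z j) = pr (img z') (z' j)) :
    ∀ j, pr (img w) (w j) = pr (img w') (w' j) := by
  obtain ⟨σ, hσ⟩ := exists_perm hw hO'
  have h1 := to_centre (z := z) (w := w) (z' := fun j => z' (σ j)) (w' := fun j => w' (σ j)) hz
    (hz'.comp σ.injective) hn ⟨fun i j h => hn'.1 _ _ h, fun i j h => hn'.2 _ _ h⟩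
    (by rw [img_perm]; exact hO) (fun j => by rw [img_perm]; exact hσ j)
  have h2 : ∀ j, σ j = j := by
    intro j
    have h3 := h1 j
    rw [img_perm, hp j] at h3
    exact (hz' (pr_inj _ (mem_img z' j) (mem_img z' (σ j)) h3)).symm
  intro j
  have h3 := hσ j
  rwa [h2 j] at h3

private theorem near_ev {M : ℕ} {z : Fin M → ℝ → ℂ}
    (hz : ∀ j, ContinuousOn (z j) (Set.Icc 0 1)) {s₀ : ℝ} (hs₀ : s₀ ∈ Set.Icc (0 : ℝ) 1) :
    ∀ᶠ s in nhdsWithin s₀ (Set.Icc 0 1), Near (fun j => z j s₀) (fun j => z j s) := by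
  have h1 : ∀ i j, ∀ᶠ s in nhdsWithin s₀ (Set.Icc 0 1),
      (z i s₀).re < (z j s₀).re → (z i s).re < (z j s).re := by
    intro i j
    by_cases h : (z i s₀).re < (z j s₀).re
    · have hc := ((Complex.continuous_re.continuousAt.comp_continuousWithinAt (hz i s₀ hs₀)).prodMk
        (Complex.continuous_re.continuousAt.comp_continuousWithinAt (hz j s₀ hs₀)))
      have ho : IsOpen {p : ℝ × ℝ | p.1 < p.2} := isOpen_lt continuous_fst continuous_snd
      exact (hc.eventually (ho.mem_nhds h)).mono fun s hs _ => hs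
    · exact Filter.Eventually.of_forall fun s hs => absurd hs h
  have h2 : ∀ i j, ∀ᶠ s in nhdsWithin s₀ (Set.Icc 0 1),
      (z i s₀).im < (z j s₀).im → (z i s).im < (z j s).im := by
    intro i j
    by_cases h : (z i s₀).im < (z j s₀).im
    · have hc := ((Complex.continuous_im.continuousAt.comp_continuousWithinAt (hz i s₀ hs₀)).prodMk
        (Complex.continuous_im.continuousAt.comp_continuousWithinAt (hz j s₀ hs₀)))
      have ho : IsOpen {p : ℝ × ℝ | p.1 < p.2} := isOpen_lt continuous_fst continuous_snd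
      exact (hc.eventually (ho.mem_nhds h)).mono fun s hs _ => hs
    · exact Filter.Eventually.of_forall fun s hs => absurd hs h
  have h3 : ∀ᶠ s in nhdsWithin s₀ (Set.Icc 0 1), ∀ i j,
      (z i s₀).re < (z j s₀).re → (z i s).re < (z j s).re := by
    rw [Filter.eventually_all]; intro i; rw [Filter.eventually_all]; exact h1 i
  have h4 : ∀ᶠ s in nhdsWithin s₀ (Set.Icc 0 1), ∀ i j,
      (z i s₀).im < (z j s₀).im → (z i s).im < (z j s).im := by
    rw [Filter.eventually_all]; intro i; rw [Filter.eventually_all]; exact h2 i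
  filter_upwards [h3, h4] with s a b
  exact ⟨a, b⟩

/-- **matching**: equal order types at all times and equal pairs at one time imply equal pairs at
all times -/
theorem match_all {M : ℕ} {z z' : Fin M → ℝ → ℂ}
    (hz : ∀ j, ContinuousOn (z j) (Set.Icc 0 1)) (hz' : ∀ j, ContinuousOn (z' j) (Set.Icc 0 1))
    (hi : ∀ s ∈ Set.Icc (0 : ℝ) 1, Function.Injective fun j => z j s)
    (hi' : ∀ s ∈ Set.Icc (0 : ℝ) 1, Function.Injective fun j => z' j s)
    (hO : ∀ s ∈ Set.Icc (0 : ℝ) 1, OTs (img fun j => z j s) = OTs (img fun j => z' j s))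
    {s₁ : ℝ} (hs₁ : s₁ ∈ Set.Icc (0 : ℝ) 1)
    (h₁ : ∀ j, pr (img fun j => z j s₁) (z j s₁) = pr (img fun j => z' j s₁) (z' j s₁)) :
    ∀ s ∈ Set.Icc (0 : ℝ) 1, ∀ j,
      pr (img fun j => z j s) (z j s) = pr (img fun j => z' j s) (z' j s) := by
  set P : ℝ → Prop := fun s => ∀ j,
    pr (img fun j => z j s) (z j s) = pr (img fun j => z' j s) (z' j s) with hP
  have hloc : ∀ s₀ ∈ Set.Icc (0 : ℝ) 1, ∀ᶠ s in nhdsWithin s₀ (Set.Icc 0 1), (P s ↔ P s₀) := by
    intro s₀ hs₀
    filter_upwards [near_ev hz hs₀, near_ev hz' hs₀, self_mem_nhdsWithin] with s h1 h2 hs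
    constructor
    · intro h
      exact to_centre (hi s₀ hs₀) (hi' s₀ hs₀) h1 h2 (hO s₀ hs₀) h
    · intro h
      exact from_centre (hi s₀ hs₀) (hi' s₀ hs₀) (hi s hs) h1 h2 (hO s₀ hs₀)
        (hO s hs) h
  have hconn : IsPreconnected (Set.Icc (0 : ℝ) 1) := isPreconnected_Icc
  intro s₂ hs₂
  by_contra hcon
  rw [isPreconnected_iff_subset_of_disjoint] at hconn
  have hopen : ∀ Q : ℝ → Prop, (∀ s₀ ∈ Set.Icc (0 : ℝ) 1, Q s₀ →
      ∀ᶠ s in nhdsWithin s₀ (Set.Icc 0 1), Q s) →
      ∃ U : Set ℝ, IsOpen U ∧ ∀ s ∈ Set.Icc (0 : ℝ) 1, (s ∈ U ↔ Q s) := by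
    intro Q hQ
    have h : ∀ s₀ : ℝ, ∃ V : Set ℝ, IsOpen V ∧ (s₀ ∈ Set.Icc (0 : ℝ) 1 → Q s₀ → s₀ ∈ V) ∧
        ∀ s ∈ V ∩ Set.Icc 0 1, Q s := by
      intro s₀
      by_cases hs₀ : s₀ ∈ Set.Icc (0 : ℝ) 1 ∧ Q s₀
      · have := hQ s₀ hs₀.1 hs₀.2
        rw [Filter.eventually_iff, mem_nhdsWithin] at this
        obtain ⟨V, hV, hsV, hVQ⟩ := this
        exact ⟨V, hV, fun _ _ => hsV, fun s hs => hVQ hs⟩
      · exact ⟨∅, isOpen_empty, fun a b => absurd ⟨a, b⟩ hs₀, fun s hs => absurd hs.1 (by simp)⟩
    choose V hV hm hQ' using h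
    refine ⟨⋃ s₀, V s₀, isOpen_iUnion hV, fun s hs => ⟨fun h => ?_, fun h => ?_⟩⟩
    · obtain ⟨s₀, h⟩ := Set.mem_iUnion.1 h
      exact hQ' s₀ s ⟨h, hs⟩
    · exact Set.mem_iUnion.2 ⟨s, hm s hs h⟩
  obtain ⟨U, hU, hUP⟩ := hopen P fun s₀ hs₀ h => (hloc s₀ hs₀).mono fun s hs => hs.2 h
  obtain ⟨V, hV, hVP⟩ := hopen (fun s => ¬ P s) fun s₀ hs₀ h =>
    (hloc s₀ hs₀).mono fun s hs h' => h (hs.1 h')
  rcases hconn U V hU hV (fun s hs => by
      by_cases h : P s
      · exact Or.inl ((hUP s hs).2 h)
      · exact Or.inr ((hVP s hs).2 h)) (by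
      rw [Set.eq_empty_iff_forall_notMem]
      rintro s ⟨hs, h1, h2⟩
      exact (hVP s hs).1 h2 ((hUP s hs).1 h1)) with h | h
  · exact hcon ((hUP s₂ hs₂).1 (h hs₂))
  · exact (hVP s₁ hs₁).1 (h hs₁) h₁

/-- equal pairs give equal weak orders of the real parts -/
theorem re_lt_iff_of_pr {M : ℕ} {z z' : Fin M → ℂ}
    (h : ∀ j, pr (img z) (z j) = pr (img z') (z' j)) (i j : Fin M) :
    (z i).re < (z j).re ↔ (z' i).re < (z' j).re := by
  rw [← pr_re_lt z i j, ← pr_re_lt z' i j, h i, h j]

/-- equal pairs give equal weak orders of the imaginary parts -/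
theorem im_lt_iff_of_pr {M : ℕ} {z z' : Fin M → ℂ}
    (h : ∀ j, pr (img z) (z j) = pr (img z') (z' j)) (i j : Fin M) :
    (z i).im < (z j).im ↔ (z' i).im < (z' j).im := by
  rw [← pr_im_lt z i j, ← pr_im_lt z' i j, h i, h j]

end Pool.Agent.QC.Lab
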