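import Pool.Agent.QC.Lab.True
import Pool.Agent.QC.Red.Real

/-!
# The other critical values near an event (MP_7c50a9_lc, sections 5 and 7)

`crit_conj`: the critical points of a real tuple are closed under conjugation.
`others`: over a compact set of values where all critical points are nondegenerate with distinct
values, the critical values of nearby real tuples are real or at a positive distance from the real
axis.
-/

set_option autoImplicit false

namespace Pool.Agent.QC.Lab

open Filter Topology MvPolynomial Set Red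

variable {n l : ℕ}

/-- conjugation of points -/
def cjx {m : ℕ} (x : Fin m → ℂ) : Fin m → ℂ := fun i => (starRingEnd ℂ) (x i)

theorem continuous_cjx {m : ℕ} : Continuous (cjx (m := m)) :=
  continuous_pi fun i => Complex.continuous_conj.comp (continuous_apply i)

theorem cjx_cjx {m : ℕ} (x : Fin m → ℂ) : cjx (cjx x) = x := by
  funext i
  simp [cjx]

theorem eval_cjx {m : ℕ} (P : MvPolynomial (Fin m) ℝ) (x : Fin m → ℂ) :
    eval (cjx x) (map Complex.ofRealHom P) = (starRingEnd ℂ) (eval x (map Complex.ofRealHom P)) := by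
  rw [eval_map, eval_map]
  have h := hom_eval₂ P Complex.ofRealHom (starRingEnd ℂ) x
  rw [h]
  congr 1
  ext r
  simp

theorem crit_conj {q : RTup n l} {x : Fin (n + 1) → ℂ} (hx : x ∈ CritF (f0 (tC q))) :
    cjx x ∈ CritF (f0 (tC q)) := by
  have h := map_f0R q
  refine ⟨?_, fun i => ?_⟩
  · have h1 := hx.1
    rw [← h] at h1 ⊢
    rw [eval_cjx, h1, map_zero]
  · have h1 := hx.2 i
    rw [← h, pderiv_map] at h1 ⊢
    rw [eval_cjx, h1, map_zero]

theorem sig_conj {q : RTup n l} {w : ℂ} (hw : w ∈ SigF (f0 (tC q))) :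
    (starRingEnd ℂ) w ∈ SigF (f0 (tC q)) := by
  obtain ⟨x, hx, rfl⟩ := hw
  exact ⟨cjx x, crit_conj hx, rfl⟩

theorem continuous_tC : Continuous (tC (n := n) (l := l)) := by
  unfold tC
  fun_prop

/-- **the other critical values stay real or away from the real axis** -/
theorem others {q : RTup n l} (hT : T1 (tC q)) {S : Set ℂ} (hS : IsCompact S)
    (hnd : ∀ x ∈ CritF (f0 (tC q)), x (Fin.last n) ∈ S → NonDegC (f0 (tC q)) x)
    (hinj : InjOn (fun x : Fin (n + 1) → ℂ => x (Fin.last n)) (CritF (f0 (tC q)))) :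
    ∃ c₀ > 0, ∀ᶠ q' in 𝓝 q, ∀ x ∈ CritF (f0 (tC q')), x (Fin.last n) ∈ S →
      (x (Fin.last n)).im = 0 ∨ c₀ ≤ |(x (Fin.last n)).im| := by
  -- the critical points over `S` form a compact set
  obtain ⟨r, hr⟩ := hS.isBounded.exists_norm_le
  obtain ⟨C, hC⟩ := crit_bounded_at hT zero_lt_one r 0
  have hC' := hC.self_of_nhds 0 le_rfl le_rfl
  rw [fpol_zero] at hC'
  have hK : IsCompact (CritF (f0 (tC q)) ∩ {x | x (Fin.last n) ∈ S}) := by
    refine IsCompact.of_isClosed_subset (isCompact_closedBall (0 : Fin (n + 1) → ℂ) C) ?_ ?_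
    · refine IsClosed.inter ?_ (hS.isClosed.preimage (continuous_apply (Fin.last n)))
      have := (isClosed_critF (n := n) (l := l) 1).preimage
        (f := fun x : Fin (n + 1) → ℂ => ((0 : ℝ), tC q, x)) (by fun_prop)
      have h2 : (fun x : Fin (n + 1) → ℂ => ((0 : ℝ), tC q, x)) ⁻¹'
          {r : ℝ × Tup n l × (Fin (n + 1) → ℂ) | r.2.2 ∈ CritF (fpol 1 r.1 r.2.1)} =
          CritF (f0 (tC q)) := by
        ext x
        show x ∈ CritF (fpol 1 0 (tC q)) ↔ _
        rw [fpol_zero]
      rwa [h2] at this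
    · rintro x ⟨hx, hxS⟩
      rw [mem_closedBall_zero_iff]
      exact hC' x hx (hr _ hxS)
  -- a neighbourhood of this set
  obtain ⟨O, hO, hsub, c₀, hc₀, hev⟩ : ∃ O : Set (Fin (n + 1) → ℂ), IsOpen O ∧
      CritF (f0 (tC q)) ∩ {x | x (Fin.last n) ∈ S} ⊆ O ∧ ∃ c₀ > (0 : ℝ), ∀ᶠ q' in 𝓝 q,
        ∀ x ∈ CritF (f0 (tC q')), x ∈ O →
          (x (Fin.last n)).im = 0 ∨ c₀ ≤ |(x (Fin.last n)).im| := by
    refine hK.induction_on (p := fun A => ∃ O : Set (Fin (n + 1) → ℂ), IsOpen O ∧ A ⊆ O ∧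
      ∃ c₀ > (0 : ℝ), ∀ᶠ q' in 𝓝 q, ∀ x ∈ CritF (f0 (tC q')), x ∈ O →
        (x (Fin.last n)).im = 0 ∨ c₀ ≤ |(x (Fin.last n)).im|) ?_ ?_ ?_ ?_
    · exact ⟨∅, isOpen_empty, subset_rfl, 1, one_pos,
        Eventually.of_forall fun _ _ _ h => h.elim⟩
    · rintro A B hAB ⟨O, h1, h2, h3⟩
      exact ⟨O, h1, hAB.trans h2, h3⟩
    · rintro A B ⟨O, h1, h2, c, hc, h3⟩ ⟨O', h1', h2', c', hc', h3'⟩
      refine ⟨O ∪ O', h1.union h1', union_subset_union h2 h2', min c c', lt_min hc hc', ?_⟩
      filter_upwards [h3, h3'] with q' a a' x hx hxO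
      rcases hxO with hxO | hxO
      · exact (a x hx hxO).imp id fun h => (min_le_left _ _).trans h
      · exact (a' x hx hxO).imp id fun h => (min_le_right _ _).trans h
    · rintro x ⟨hx, hxS⟩
      by_cases him : (x (Fin.last n)).im = 0
      · -- a real critical point
        have hcx : cjx x = x := by
          refine hinj (crit_conj hx) hx ?_
          show (starRingEnd ℂ) (x (Fin.last n)) = x (Fin.last n)
          exact Complex.conj_eq_iff_im.2 him
        obtain ⟨O, hO, hu⟩ := crit_near hx (hnd x hx hxS)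
        obtain ⟨O₁, hO₁, hO₁o, hxO₁⟩ := mem_nhds_iff.1 hO
        have hop : IsOpen (O₁ ∩ cjx ⁻¹' O₁) := hO₁o.inter (hO₁o.preimage continuous_cjx)
        have hxm : x ∈ O₁ ∩ cjx ⁻¹' O₁ := ⟨hxO₁, by rw [mem_preimage, hcx]; exact hxO₁⟩
        refine ⟨_, mem_nhdsWithin_of_mem_nhds (hop.mem_nhds hxm), _, hop, subset_rfl, 1, one_pos,
          ?_⟩
        have h1 := (continuous_tC.tendsto q).eventually (hu univ univ_mem)
        filter_upwards [h1] with q' hq' y hy hyO
        obtain ⟨y₀, -, -, hy₀⟩ := hq'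
        left
        have e1 := hy₀ y ⟨hy, hO₁ hyO.1⟩
        have e2 := hy₀ (cjx y) ⟨crit_conj hy, hO₁ hyO.2⟩
        have e3 : (starRingEnd ℂ) (y (Fin.last n)) = y (Fin.last n) :=
          congrFun (e2.trans e1.symm) (Fin.last n)
        exact Complex.conj_eq_iff_im.1 e3
      · -- a critical point which is not real
        have hpos : 0 < |(x (Fin.last n)).im| := abs_pos.2 him
        have hcont : Continuous fun y : Fin (n + 1) → ℂ => |(y (Fin.last n)).im| := by fun_prop
        have hop : IsOpen {y : Fin (n + 1) → ℂ |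
            |(x (Fin.last n)).im| / 2 < |(y (Fin.last n)).im|} :=
          isOpen_lt continuous_const hcont
        have hxm : x ∈ {y : Fin (n + 1) → ℂ |
            |(x (Fin.last n)).im| / 2 < |(y (Fin.last n)).im|} := by
          show |(x (Fin.last n)).im| / 2 < |(x (Fin.last n)).im|
          linarith
        exact ⟨_, mem_nhdsWithin_of_mem_nhds (hop.mem_nhds hxm), _, hop, subset_rfl, _,
          half_pos hpos, Eventually.of_forall fun _ y _ hy => Or.inr (le_of_lt hy)⟩
  have h1 := (continuous_tC.tendsto q).eventually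
    (crit_usc0 hT hS hO fun x hx hxS => hsub ⟨hx, hxS⟩)
  refine ⟨c₀, hc₀, ?_⟩
  filter_upwards [h1, hev] with q' a1 a2 x hx hxS
  exact a2 x hx (a1 x hx hxS)

end Pool.Agent.QC.Lab
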