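import Pool.Agent.QC.Lab.Paths

/-!
# Configurations closed under conjugation (MP_7c50a9_lc, section 7)

`SameZ z z'`: the weak orders of the real parts and of the imaginary parts agree.  If both sets are
closed under conjugation, then the same labels are real, the same labels are in the upper half
plane, conjugate labels correspond, and the special labels (`up_eq`, `left_eq`, `right_eq`) agree.
`SLab.const`: the labels of a closed and lower semicontinuous family of subsets are constant.
-/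

set_option autoImplicit false

namespace Pool.Agent.QC.Lab

open Filter Topology

variable {M : ℕ}

/-- same weak orders of the real parts and of the imaginary parts -/
def SameZ (z z' : Fin M → ℂ) : Prop :=
  ∀ i j, ((z i).re < (z j).re ↔ (z' i).re < (z' j).re) ∧
    ((z i).im < (z j).im ↔ (z' i).im < (z' j).im)

theorem sameZ_of_rk {z z' : Fin M → ℂ}
    (h : ∀ j, QC.rk (Set.range z) (z j) = QC.rk (Set.range z') (z' j)) : SameZ z z' := by
  have h' : ∀ j, pr (img z) (z j) = pr (img z') (z' j) := fun j => by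
    rw [← rk_range, ← rk_range]
    exact h j
  exact fun i j => ⟨re_lt_iff_of_pr h' i j, im_lt_iff_of_pr h' i j⟩

/-- the ranks at one time of two labellings -/
theorem SLab.sameZ {S T : ℝ → Set ℂ} {z z' : Fin M → ℝ → ℂ} (h : SLab M S (Set.Icc 0 1) z)
    (h' : SLab M T (Set.Icc 0 1) z') {s : ℝ} (hs : s ∈ Set.Icc (0 : ℝ) 1)
    (hr : ∀ j, QC.rk (S s) (z j s) = QC.rk (T s) (z' j s)) :
    SameZ (fun j => z j s) fun j => z' j s := by
  refine sameZ_of_rk fun j => ?_
  rw [← h.range s hs, ← h'.range s hs]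
  exact hr j

theorem SameZ.symm {z z' : Fin M → ℂ} (h : SameZ z z') : SameZ z' z :=
  fun i j => ⟨(h i j).1.symm, (h i j).2.symm⟩

/-- the set of the points is closed under conjugation -/
def Cj (z : Fin M → ℂ) : Prop := ∀ w ∈ Set.range z, (starRingEnd ℂ) w ∈ Set.range z

/-- conjugation of labels -/
private theorem exists_conj {z : Fin M → ℂ} (hz : Function.Injective z) (hc : Cj z) :
    ∃ τ : Equiv.Perm (Fin M), ∀ j, z (τ j) = (starRingEnd ℂ) (z j) := by
  have h : ∀ j, ∃ i, z i = (starRingEnd ℂ) (z j) := fun j => hc (z j) ⟨j, rfl⟩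
  choose t ht using h
  have hi : Function.Injective t := fun i j hij => hz (by
    have h1 : (starRingEnd ℂ) (z i) = (starRingEnd ℂ) (z j) := by rw [← ht i, ← ht j, hij]
    exact (starRingEnd ℂ).injective h1)
  exact ⟨Equiv.ofBijective t (Finite.injective_iff_bijective.1 hi), ht⟩

/-- a permutation which preserves the strict order of the values preserves the values -/
private theorem perm_val {a : Fin M → ℝ} {σ : Equiv.Perm (Fin M)}
    (h : ∀ i j, a i < a j ↔ a (σ i) < a (σ j)) (j : Fin M) : a (σ j) = a j := by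
  classical
  have hc : (Finset.univ.filter fun k => a k < a (σ j)).card =
      (Finset.univ.filter fun k => a k < a j).card := by
    have h1 : (Finset.univ.filter fun k => a k < a (σ j)) =
        (Finset.univ.filter fun k => a k < a j).image σ := by
      ext k
      rw [Finset.mem_filter, Finset.mem_image]
      constructor
      · intro hk
        refine ⟨σ.symm k, Finset.mem_filter.2 ⟨Finset.mem_univ _, ?_⟩, σ.apply_symm_apply k⟩
        rw [h, σ.apply_symm_apply]
        exact hk.2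
      · rintro ⟨m, hm, rfl⟩
        exact ⟨Finset.mem_univ _, (h _ _).1 (Finset.mem_filter.1 hm).2⟩
    rw [h1, Finset.card_image_of_injective _ σ.injective]
  have key : ∀ x y : ℝ, x < y → (∃ k, a k = x) →
      (Finset.univ.filter fun k => a k < x).card < (Finset.univ.filter fun k => a k < y).card := by
    rintro x y hxy ⟨k, hk⟩
    refine Finset.card_lt_card ((Finset.ssubset_iff_of_subset ?_).2 ⟨k, ?_, ?_⟩)
    · intro i hi
      rw [Finset.mem_filter] at hi ⊢
      exact ⟨hi.1, hi.2.trans hxy⟩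
    · exact Finset.mem_filter.2 ⟨Finset.mem_univ _, hk ▸ hxy⟩
    · intro hm
      rw [Finset.mem_filter, hk] at hm
      exact lt_irrefl _ hm.2
  rcases lt_trichotomy (a (σ j)) (a j) with h1 | h1 | h1
  · exact absurd hc (key _ _ h1 ⟨_, rfl⟩).ne
  · exact h1
  · exact absurd hc (key _ _ h1 ⟨_, rfl⟩).ne'

/-- **conjugate labels correspond** -/
theorem SameZ.conj {z z' : Fin M → ℂ} (h : SameZ z z') (hz : Function.Injective z)
    (hz' : Function.Injective z') (hc : Cj z) (hc' : Cj z') :
    ∃ τ : Equiv.Perm (Fin M), (∀ j, z (τ j) = (starRingEnd ℂ) (z j)) ∧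
      ∀ j, z' (τ j) = (starRingEnd ℂ) (z' j) := by
  obtain ⟨τ, hτ⟩ := exists_conj hz hc
  obtain ⟨τ', hτ'⟩ := exists_conj hz' hc'
  have tre : ∀ j, (z (τ j)).re = (z j).re := fun j => by rw [hτ, Complex.conj_re]
  have tim : ∀ j, (z (τ j)).im = -(z j).im := fun j => by rw [hτ, Complex.conj_im]
  have tre' : ∀ j, (z' (τ' j)).re = (z' j).re := fun j => by rw [hτ', Complex.conj_re]
  have tim' : ∀ j, (z' (τ' j)).im = -(z' j).im := fun j => by rw [hτ', Complex.conj_im]
  have him : ∀ i j, (z i).im < (z j).im ↔ (z ((τ'.trans τ) i)).im < (z ((τ'.trans τ) j)).im := by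
    intro i j
    rw [Equiv.trans_apply, Equiv.trans_apply, tim, tim, neg_lt_neg_iff, (h (τ' j) (τ' i)).2, tim',
      tim', neg_lt_neg_iff, (h i j).2]
  have e1 : ∀ j, (z ((τ'.trans τ) j)).im = (z j).im := fun j => perm_val (σ := τ'.trans τ) him j
  have e2 : ∀ j, (z ((τ'.trans τ) j)).re = (z j).re := by
    intro j
    rw [Equiv.trans_apply, tre]
    have h1 := (h (τ' j) j).1
    have h2 := (h j (τ' j)).1
    rw [tre'] at h1 h2
    exact le_antisymm (not_lt.1 fun hlt => lt_irrefl _ (h2.1 hlt))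
      (not_lt.1 fun hlt => lt_irrefl _ (h1.1 hlt))
  have e3 : ∀ j, τ (τ' j) = j := fun j => hz (Complex.ext (e2 j) (e1 j))
  have e4 : ∀ j, τ (τ j) = j := fun j => hz (by rw [hτ, hτ, Complex.conj_conj])
  refine ⟨τ, hτ, fun j => ?_⟩
  have e5 : τ j = τ' j := τ.injective (by rw [e4, e3])
  rw [e5]
  exact hτ' j

section

variable {z z' : Fin M → ℂ} (h : SameZ z z') (hz : Function.Injective z)
  (hz' : Function.Injective z') (hc : Cj z) (hc' : Cj z')

include h hz hz' hc hc'

/-- the same labels are in the upper half plane -/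
theorem SameZ.pos_iff (j : Fin M) : 0 < (z j).im ↔ 0 < (z' j).im := by
  obtain ⟨τ, h1, h2⟩ := h.conj hz hz' hc hc'
  have h3 := (h (τ j) j).2
  rw [h1, h2, Complex.conj_im, Complex.conj_im] at h3
  constructor
  · intro h4
    have := h3.1 (by linarith)
    linarith
  · intro h4
    have := h3.2 (by linarith)
    linarith

/-- the same labels are in the lower half plane -/
theorem SameZ.neg_iff (j : Fin M) : (z j).im < 0 ↔ (z' j).im < 0 := by
  obtain ⟨τ, h1, h2⟩ := h.conj hz hz' hc hc'
  have h3 := (h j (τ j)).2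
  rw [h1, h2, Complex.conj_im, Complex.conj_im] at h3
  constructor
  · intro h4
    have := h3.1 (by linarith)
    linarith
  · intro h4
    have := h3.2 (by linarith)
    linarith

/-- the same labels are real -/
theorem SameZ.real_iff (j : Fin M) : (z j).im = 0 ↔ (z' j).im = 0 := by
  have h1 := h.pos_iff hz hz' hc hc' j
  have h2 := h.neg_iff hz hz' hc hc' j
  constructor
  · intro h3
    refine le_antisymm (not_lt.1 fun h4 => ?_) (not_lt.1 fun h4 => ?_)
    · have := h1.2 h4
      linarith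
    · have := h2.2 h4
      linarith
  · intro h3
    refine le_antisymm (not_lt.1 fun h4 => ?_) (not_lt.1 fun h4 => ?_)
    · have := h1.1 h4
      linarith
    · have := h2.1 h4
      linarith

/-- the label of the lowest point of `J` above the real axis -/
theorem SameZ.up_eq {J : Set (Fin M)} {u u' : Fin M} (hu : u ∈ J) (hu' : u' ∈ J)
    (h0 : 0 < (z u).im) (h0' : 0 < (z' u').im)
    (hm : ∀ j ∈ J, 0 < (z j).im → j ≠ u → (z u).im < (z j).im)
    (hm' : ∀ j ∈ J, 0 < (z' j).im → j ≠ u' → (z' u').im < (z' j).im) : u = u' := by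
  by_contra hne
  have h1 := hm u' hu' ((h.pos_iff hz hz' hc hc' u').2 h0') fun he => hne he.symm
  have h2 := hm' u hu ((h.pos_iff hz hz' hc hc' u).1 h0) hne
  have h3 := (h u u').2.1 h1
  linarith

/-- the label of the highest point of `J` below the real axis -/
theorem SameZ.down_eq {J : Set (Fin M)} {u u' : Fin M} (hu : u ∈ J) (hu' : u' ∈ J)
    (h0 : (z u).im < 0) (h0' : (z' u').im < 0)
    (hm : ∀ j ∈ J, (z j).im < 0 → j ≠ u → (z j).im < (z u).im)
    (hm' : ∀ j ∈ J, (z' j).im < 0 → j ≠ u' → (z' j).im < (z' u').im) : u = u' := by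
  by_contra hne
  have h1 := hm u' hu' ((h.neg_iff hz hz' hc hc' u').2 h0') fun he => hne he.symm
  have h2 := hm' u hu ((h.neg_iff hz hz' hc hc' u).1 h0) hne
  have h3 := (h u' u).2.1 h1
  linarith

/-- **the real labels on the left of a given real number**, from their number -/
theorem SameZ.left_iff {v v' : ℝ}
    (hn : {w ∈ Set.range z | w.im = 0 ∧ w.re < v}.ncard =
      {w ∈ Set.range z' | w.im = 0 ∧ w.re < v'}.ncard) (j : Fin M) (hj : (z j).im = 0) :
    (z j).re < v ↔ (z' j).re < v' := by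
  classical
  have hre := h.real_iff hz hz' hc hc'
  have count : ∀ (y : Fin M → ℂ), Function.Injective y → ∀ x : ℝ,
      {w ∈ Set.range y | w.im = 0 ∧ w.re < x}.ncard =
        (Finset.univ.filter fun i => (y i).im = 0 ∧ (y i).re < x).card := by
    intro y hy x
    have e : {w ∈ Set.range y | w.im = 0 ∧ w.re < x} =
        y '' ((Finset.univ.filter fun i => (y i).im = 0 ∧ (y i).re < x : Finset (Fin M)) :
          Set (Fin M)) := by
      ext w
      simp only [Set.mem_ofPred_eq, Set.mem_range, Finset.coe_filter, Finset.mem_univ, true_and,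
        Set.mem_image]
      constructor
      · rintro ⟨⟨i, rfl⟩, hi⟩
        exact ⟨i, hi, rfl⟩
      · rintro ⟨i, hi, rfl⟩
        exact ⟨⟨i, rfl⟩, hi⟩
    rw [e, Set.ncard_image_of_injective _ hy, Set.ncard_coe_finset]
  rw [count z hz, count z' hz'] at hn
  set A := Finset.univ.filter fun i => (z i).im = 0 ∧ (z i).re < v with hA
  set A' := Finset.univ.filter fun i => (z' i).im = 0 ∧ (z' i).re < v' with hA'
  have mA : ∀ i, i ∈ A ↔ (z i).im = 0 ∧ (z i).re < v := fun i => by simp [hA]
  have mA' : ∀ i, i ∈ A' ↔ (z' i).im = 0 ∧ (z' i).re < v' := fun i => by simp [hA']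
  have hAA : A = A' := by
    by_cases hs : A ⊆ A'
    · exact Finset.eq_of_subset_of_card_le hs hn.ge
    · rw [Finset.not_subset] at hs
      obtain ⟨i, hi, hi'⟩ := hs
      refine (Finset.eq_of_subset_of_card_le (fun k hk => ?_) hn.le).symm
      rw [mA] at hi ⊢
      rw [mA'] at hi' hk
      have h1 : v' ≤ (z' i).re := not_lt.1 fun h2 => hi' ⟨(hre i).1 hi.1, h2⟩
      exact ⟨(hre k).2 hk.1, ((h k i).1.2 (hk.2.trans_le h1)).trans hi.2⟩
  have h1 : j ∈ A ↔ j ∈ A' := by rw [hAA]
  rw [mA, mA'] at h1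
  exact ⟨fun h2 => (h1.1 ⟨hj, h2⟩).2, fun h2 => (h1.2 ⟨(hre j).1 hj, h2⟩).2⟩

/-- the label of the rightmost real point of `J` on the left of `v` -/
theorem SameZ.left_eq {v v' : ℝ}
    (hn : {w ∈ Set.range z | w.im = 0 ∧ w.re < v}.ncard =
      {w ∈ Set.range z' | w.im = 0 ∧ w.re < v'}.ncard)
    {J : Set (Fin M)} {u u' : Fin M} (hu : u ∈ J) (hu' : u' ∈ J)
    (h0 : (z u).im = 0 ∧ (z u).re < v) (h0' : (z' u').im = 0 ∧ (z' u').re < v')
    (hm : ∀ j ∈ J, (z j).im = 0 → (z j).re < v → j ≠ u → (z j).re < (z u).re)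
    (hm' : ∀ j ∈ J, (z' j).im = 0 → (z' j).re < v' → j ≠ u' → (z' j).re < (z' u').re) :
    u = u' := by
  by_contra hne
  have hre := h.real_iff hz hz' hc hc'
  have hl := h.left_iff hz hz' hc hc' hn
  have r' := (hre u').2 h0'.1
  have h1 := hm u' hu' r' ((hl u' r').2 h0'.2) fun he => hne he.symm
  have h2 := hm' u hu ((hre u).1 h0.1) ((hl u h0.1).1 h0.2) hne
  have h3 := (h u' u).1.1 h1
  linarith

/-- the label of the leftmost real point of `J` on the right of `v` -/
theorem SameZ.right_eq {v v' : ℝ}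
    (hn : {w ∈ Set.range z | w.im = 0 ∧ w.re < v}.ncard =
      {w ∈ Set.range z' | w.im = 0 ∧ w.re < v'}.ncard)
    {J : Set (Fin M)} {u u' : Fin M} (hu : u ∈ J) (hu' : u' ∈ J)
    (h0 : (z u).im = 0 ∧ v ≤ (z u).re) (h0' : (z' u').im = 0 ∧ v' ≤ (z' u').re)
    (hm : ∀ j ∈ J, (z j).im = 0 → v ≤ (z j).re → j ≠ u → (z u).re < (z j).re)
    (hm' : ∀ j ∈ J, (z' j).im = 0 → v' ≤ (z' j).re → j ≠ u' → (z' u').re < (z' j).re) :
    u = u' := by
  by_contra hne
  have hre := h.real_iff hz hz' hc hc'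
  have hl := h.left_iff hz hz' hc hc' hn
  have r' := (hre u').2 h0'.1
  have h1 := hm u' hu' r' (not_lt.1 fun h4 => absurd ((hl u' r').1 h4) (not_lt.2 h0'.2))
    fun he => hne he.symm
  have h2 := hm' u hu ((hre u).1 h0.1)
    (not_lt.1 fun h4 => absurd ((hl u h0.1).2 h4) (not_lt.2 h0.2)) hne
  have h3 := (h u u').1.1 h1
  linarith

end

/-! ## Constant labels of a continuous family of subsets -/

/-- **the labels of a closed and lower semicontinuous family of subsets are constant** -/
theorem SLab.const {S A : ℝ → Set ℂ} {z : Fin M → ℝ → ℂ} (h : SLab M S (Set.Icc 0 1) z)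
    (hA : ∀ s ∈ Set.Icc (0 : ℝ) 1, A s ⊆ S s)
    (hl : ∀ s ∈ Set.Icc (0 : ℝ) 1, ∀ w ∈ A s, ∀ O ∈ 𝓝 w,
      ∀ᶠ s' in 𝓝[Set.Icc 0 1] s, (A s' ∩ O).Nonempty)
    (hc : ∀ s ∈ Set.Icc (0 : ℝ) 1, ∀ w, w ∉ A s → ∃ O ∈ 𝓝 w,
      ∀ᶠ s' in 𝓝[Set.Icc 0 1] s, Disjoint (A s') O)
    (j : Fin M) : ∀ s ∈ Set.Icc (0 : ℝ) 1, ∀ s' ∈ Set.Icc (0 : ℝ) 1,
      (z j s ∈ A s ↔ z j s' ∈ A s') := by
  have hloc : ∀ s ∈ Set.Icc (0 : ℝ) 1,
      ∀ᶠ s' in 𝓝[Set.Icc (0 : ℝ) 1] s, (z j s ∈ A s ↔ z j s' ∈ A s') := by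
    intro s hs
    by_cases hj : z j s ∈ A s
    · -- separation of the labels at the time `s`
      obtain ⟨ε, hε, hsep⟩ : ∃ ε : ℝ, 0 < ε ∧ ∀ i, i ≠ j → 2 * ε ≤ ‖z i s - z j s‖ := by
        have h1 : ∀ i, ∃ ε : ℝ, 0 < ε ∧ (i ≠ j → 2 * ε ≤ ‖z i s - z j s‖) := by
          intro i
          by_cases hi : i = j
          · exact ⟨1, one_pos, fun h => absurd hi h⟩
          · refine ⟨‖z i s - z j s‖ / 2, ?_, fun _ => by linarith⟩
            have := norm_pos_iff.2 (sub_ne_zero.2 fun he => hi (h.inj s hs he))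
            linarith
        choose e he he' using h1
        have hne : (Finset.univ : Finset (Fin M)).Nonempty := ⟨j, Finset.mem_univ j⟩
        refine ⟨Finset.univ.inf' hne e, ?_, fun i hi => ?_⟩
        · rw [Finset.lt_inf'_iff]
          exact fun i _ => he i
        · have h2 := Finset.inf'_le e (Finset.mem_univ i)
          have h3 := he' i hi
          linarith
      have h1 := hl s hs _ hj _ (Metric.ball_mem_nhds _ hε)
      have h2 : ∀ᶠ s' in 𝓝[Set.Icc (0 : ℝ) 1] s, ∀ i, ‖z i s' - z i s‖ < ε := by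
        rw [Filter.eventually_all]
        intro i
        have h3 := (h.cont i s hs).eventually (Metric.ball_mem_nhds _ hε)
        filter_upwards [h3] with t ht
        rw [← dist_eq_norm]
        exact ht
      filter_upwards [h1, h2, self_mem_nhdsWithin] with t ht1 ht2 ht3
      refine ⟨fun _ => ?_, fun _ => hj⟩
      obtain ⟨w, hw, hw'⟩ := ht1
      have h4 := hA t ht3 hw
      rw [h.range t ht3] at h4
      obtain ⟨i, hi⟩ := h4
      simp only at hi
      by_cases hij : i = j
      · rw [← hij, hi]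
        exact hw
      · exfalso
        have h5 := hsep i hij
        have h6 := ht2 i
        rw [hi] at h6
        rw [Metric.mem_ball, dist_eq_norm] at hw'
        have h7 : ‖z i s - z j s‖ ≤ ‖w - z j s‖ + ‖w - z i s‖ := by
          have : z i s - z j s = (w - z j s) - (w - z i s) := by ring
          rw [this]
          exact norm_sub_le _ _
        linarith
    · obtain ⟨O, hO, h1⟩ := hc s hs _ hj
      filter_upwards [h1, (h.cont j s hs).eventually hO] with t ht1 ht2
      exact ⟨fun h3 => absurd h3 hj, fun h3 => absurd ht2 (Set.disjoint_left.1 ht1 h3)⟩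
  intro s hs s' hs'
  refine isPreconnected_Icc.induction₂ (s := Set.Icc (0 : ℝ) 1)
    (fun x y => (z j x ∈ A x ↔ z j y ∈ A y)) (fun x hx => hloc x hx) ?_ ?_ hs hs'
  · intro x y w _ _ _ h1 h2
    exact h1.trans h2
  · intro x y _ _ h1
    exact h1.symm

end Pool.Agent.QC.Lab
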