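import Pool.Agent.QC.Lab.Ord

/-!
# Labelled continuous roots (MP_7c50a9_lc, section 7)

A family of complex polynomials `r s`, `s` in `[0,1]`, with continuous coefficients, constant degree
and constant number of distinct roots has labelled continuous distinct roots.
-/

set_option autoImplicit false

namespace Pool.Agent.QC.Lab

open Finset Polynomial

/-- a point where the value is small is close to a root -/
private theorem near_root {p : ℂ[X]} {w : ℂ} {ε : ℝ} (hε : 0 < ε)
    (h : ‖p.eval w‖ < ‖p.leadingCoeff‖ * ε ^ p.natDegree) : ∃ u ∈ p.roots.toFinset, ‖w - u‖ < ε := by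
  by_contra hc
  push Not at hc
  have hs : p.Splits := IsAlgClosed.splits p
  have h1 : p.eval w = p.leadingCoeff * (p.roots.map fun a => w - a).prod := by
    conv_lhs => rw [hs.eq_prod_roots]
    rw [eval_mul, eval_C, eval_multiset_prod, Multiset.map_map]
    simp
  have h2 : ε ^ p.natDegree ≤ ‖(p.roots.map fun a => w - a).prod‖ := by
    have h3 : ∀ s : Multiset ℂ, (∀ a ∈ s, ε ≤ ‖w - a‖) →
        ε ^ Multiset.card s ≤ ‖(s.map fun a => w - a).prod‖ := by
      intro s
      induction s using Multiset.induction_on with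
      | empty => intro _; simp
      | cons a s ih =>
        intro hs'
        rw [Multiset.card_cons, Multiset.map_cons, Multiset.prod_cons, norm_mul, pow_succ,
          mul_comm]
        exact mul_le_mul (hs' a (Multiset.mem_cons_self a s))
          (ih fun b hb => hs' b (Multiset.mem_cons_of_mem hb)) (by positivity) (norm_nonneg _)
    have h4 := h3 p.roots fun a ha => hc a (Multiset.mem_toFinset.2 ha)
    rwa [← hs.natDegree_eq_card_roots] at h4
  rw [h1, norm_mul] at h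
  have h5 : 0 ≤ ‖p.leadingCoeff‖ := norm_nonneg _
  exact absurd h (not_lt.2 (mul_le_mul_of_nonneg_left h2 h5))

variable {M d : ℕ} {r : ℝ → ℂ[X]}

private theorem eval_cont {K : Set ℝ} (hc : ∀ n, ContinuousOn (fun s => (r s).coeff n) K)
    (hd : ∀ s ∈ K, (r s).natDegree = d) (w : ℂ) :
    ContinuousOn (fun s => (r s).eval w) K := by
  have h1 : ContinuousOn (fun s => ∑ i ∈ range (d + 1), (r s).coeff i * w ^ i) K :=
    continuousOn_finsetSum _ fun i _ => (hc i).mul continuousOn_const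
  refine h1.congr fun s hs => ?_
  rw [eval_eq_sum_range, hd s hs]

/-- lower semicontinuity of the roots: near `s₀` there is a root near every root of `r s₀` -/
private theorem root_ev {K : Set ℝ} (hc : ∀ n, ContinuousOn (fun s => (r s).coeff n) K)
    (hd : ∀ s ∈ K, (r s).natDegree = d) (h0 : ∀ s ∈ K, r s ≠ 0) {s₀ : ℝ} (hs₀ : s₀ ∈ K)
    {ε : ℝ} (hε : 0 < ε) {u : ℂ} (hu : u ∈ (r s₀).roots.toFinset) :
    ∀ᶠ s in nhdsWithin s₀ K, ∃ v ∈ (r s).roots.toFinset, ‖u - v‖ < ε := by
  have hev : (r s₀).eval u = 0 := (mem_roots (h0 s₀ hs₀)).1 (Multiset.mem_toFinset.1 hu)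
  have hl : (r s₀).coeff d ≠ 0 := by
    have := leadingCoeff_ne_zero.2 (h0 s₀ hs₀)
    rwa [leadingCoeff, hd s₀ hs₀] at this
  have h1 : ContinuousOn (fun s => ‖(r s).coeff d‖ * ε ^ d - ‖(r s).eval u‖) K :=
    ((hc d).norm.mul continuousOn_const).sub (eval_cont hc hd u).norm
  have h2 : 0 < ‖(r s₀).coeff d‖ * ε ^ d - ‖(r s₀).eval u‖ := by
    rw [hev, norm_zero, sub_zero]
    exact mul_pos (norm_pos_iff.2 hl) (pow_pos hε d)
  have h3 := (h1 s₀ hs₀).eventually (lt_mem_nhds h2)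
  filter_upwards [h3, self_mem_nhdsWithin] with s hs hsK
  refine near_root hε ?_
  rw [leadingCoeff, hd s hsK]
  linarith

/-- `z` is a continuous labelling of the roots on `K` -/
def Labels (M : ℕ) (r : ℝ → ℂ[X]) (K : Set ℝ) (z : Fin M → ℝ → ℂ) : Prop :=
  (∀ j, ContinuousOn (z j) K) ∧ (∀ s ∈ K, Function.Injective fun j => z j s) ∧
    ∀ s ∈ K, (r s).roots.toFinset = img fun j => z j s

theorem Labels.mono {K L : Set ℝ} {z : Fin M → ℝ → ℂ} (h : Labels M r K z) (hL : L ⊆ K) :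
    Labels M r L z :=
  ⟨fun j => (h.1 j).mono hL, fun s hs => h.2.1 s (hL hs), fun s hs => h.2.2 s (hL hs)⟩

theorem Labels.mem {K : Set ℝ} {z : Fin M → ℝ → ℂ} (h : Labels M r K z) {s : ℝ} (hs : s ∈ K)
    (j : Fin M) : z j s ∈ (r s).roots.toFinset := by
  rw [h.2.2 s hs]
  exact mem_img (fun j => z j s) j

/-- a finite set with `M` elements is enumerated -/
private theorem enum (S : Finset ℂ) (hS : S.card = M) :
    ∃ z : Fin M → ℂ, Function.Injective z ∧ S = img z := by
  let e := S.equivFinOfCardEq hS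
  refine ⟨fun j => (e.symm j : ℂ), Subtype.val_injective.comp e.symm.injective, ?_⟩
  ext w
  simp only [img, mem_image, mem_univ, true_and]
  constructor
  · intro hw
    exact ⟨e ⟨w, hw⟩, by simp⟩
  · rintro ⟨j, hj⟩
    rw [← hj]
    exact (e.symm j).2

/-- local labels -/
private theorem local_labels {K : Set ℝ} (hc : ∀ n, ContinuousOn (fun s => (r s).coeff n) K)
    (hd : ∀ s ∈ K, (r s).natDegree = d) (h0 : ∀ s ∈ K, r s ≠ 0)
    (hM : ∀ s ∈ K, (r s).roots.toFinset.card = M) {s₀ : ℝ} (hs₀ : s₀ ∈ K) :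
    ∃ V : Set ℝ, IsOpen V ∧ s₀ ∈ V ∧ ∃ z : Fin M → ℝ → ℂ, Labels M r (V ∩ K) z := by
  classical
  obtain ⟨w, hw, hwS⟩ := enum (r s₀).roots.toFinset (hM s₀ hs₀)
  -- separation
  obtain ⟨ε, hε, hsep⟩ : ∃ ε : ℝ, 0 < ε ∧ ∀ i j, i ≠ j → 2 * ε ≤ ‖w i - w j‖ := by
    have h1 : ∀ p : Fin M × Fin M, ∃ ε : ℝ, 0 < ε ∧ (p.1 ≠ p.2 → 2 * ε ≤ ‖w p.1 - w p.2‖) := by
      intro p
      by_cases hp : p.1 = p.2
      · exact ⟨1, one_pos, fun h => absurd hp h⟩
      · refine ⟨‖w p.1 - w p.2‖ / 2, ?_, fun _ => by linarith⟩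
        have := norm_pos_iff.2 (sub_ne_zero.2 fun h => hp (hw h))
        linarith
    choose e he he' using h1
    rcases Finset.univ.eq_empty_or_nonempty (α := Fin M × Fin M) with hem | hne
    · refine ⟨1, one_pos, fun i j _ => ?_⟩
      have : (i, j) ∈ (Finset.univ : Finset (Fin M × Fin M)) := mem_univ _
      rw [hem] at this
      simp at this
    · refine ⟨(Finset.univ : Finset (Fin M × Fin M)).inf' hne e, ?_, fun i j hij => ?_⟩
      · rw [lt_inf'_iff]
        exact fun p _ => he p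
      · have h2 := inf'_le e (mem_univ (i, j))
        have h3 := he' (i, j) hij
        simp only at h3
        linarith
  have hev : ∀ᶠ s in nhdsWithin s₀ K, ∀ j, ∃ v ∈ (r s).roots.toFinset, ‖w j - v‖ < ε := by
    rw [Filter.eventually_all]
    intro j
    exact root_ev hc hd h0 hs₀ hε (by rw [hwS]; exact mem_img w j)
  rw [Filter.eventually_iff, mem_nhdsWithin] at hev
  obtain ⟨V, hV, hsV, hVs⟩ := hev
  refine ⟨V, hV, hsV, ?_⟩
  have hVs' : ∀ s : ℝ, ∀ j, ∃ v : ℂ, s ∈ V ∩ K → v ∈ (r s).roots.toFinset ∧ ‖w j - v‖ < ε := by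
    intro s j
    by_cases hs : s ∈ V ∩ K
    · obtain ⟨v, hv, hv'⟩ := hVs hs j
      exact ⟨v, fun _ => ⟨hv, hv'⟩⟩
    · exact ⟨0, fun h => absurd h hs⟩
  choose z hz using hVs'
  have hinj : ∀ s ∈ V ∩ K, Function.Injective fun j => z s j := by
    intro s hs i j hij
    by_contra hne
    have h1 := hsep i j hne
    have h2 := (hz s i hs).2
    have h3 := (hz s j hs).2
    have h4 : w i - w j = (w i - z s i) - (w j - z s j) := by
      rw [show z s i = z s j from hij]; ring
    have h5 : ‖w i - w j‖ ≤ ‖w i - z s i‖ + ‖w j - z s j‖ := by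
      rw [h4]; exact norm_sub_le _ _
    linarith
  have himg : ∀ s ∈ V ∩ K, (r s).roots.toFinset = img fun j => z s j := by
    intro s hs
    symm
    refine eq_of_subset_of_card_le ?_ ?_
    · intro v hv
      simp only [img, mem_image, mem_univ, true_and] at hv
      obtain ⟨j, hj⟩ := hv
      rw [← hj]
      exact (hz s j hs).1
    · rw [hM s hs.2, img, card_image_of_injective _ (hinj s hs), card_univ, Fintype.card_fin]
  refine ⟨fun j s => z s j, fun j => ?_, hinj, himg⟩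
  intro s hs
  rw [Metric.continuousWithinAt_iff']
  intro η hη
  -- small radius at s
  have h1 := (hz s j hs).2
  have hδ : 0 < min η (ε - ‖w j - z s j‖) := lt_min hη (by linarith)
  have h2 := root_ev hc hd h0 hs.2 hδ (hz s j hs).1
  have h3 : nhdsWithin s (V ∩ K) ≤ nhdsWithin s K := nhdsWithin_mono _ Set.inter_subset_right
  filter_upwards [h3 h2, self_mem_nhdsWithin] with t ht htV
  obtain ⟨v, hv, hv'⟩ := ht
  have hvj : v = z t j := by
    rw [himg t htV] at hv
    simp only [img, mem_image, mem_univ, true_and] at hv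
    obtain ⟨i, hi⟩ := hv
    by_cases hij : i = j
    · rw [← hi, hij]
    · exfalso
      have h4 := hsep i j hij
      have h5 := (hz t i htV).2
      rw [hi] at h5
      have h6 : ‖w j - v‖ ≤ ‖w j - z s j‖ + ‖z s j - v‖ := by
        have : w j - v = (w j - z s j) + (z s j - v) := by ring
        rw [this]; exact norm_add_le _ _
      have h7 : ‖z s j - v‖ < ε - ‖w j - z s j‖ := hv'.trans_le (min_le_right _ _)
      have h8 : ‖w i - w j‖ ≤ ‖w i - v‖ + ‖w j - v‖ := by
        have : w i - w j = (w i - v) - (w j - v) := by ring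
        rw [this]; exact norm_sub_le _ _
      linarith
  rw [← hvj, dist_eq_norm, norm_sub_rev]
  exact hv'.trans_le (min_le_left _ _)

/-- gluing two labellings at a point -/
private theorem glue {a b c : ℝ} (hab : a ≤ b) (hbc : b ≤ c) {z y : Fin M → ℝ → ℂ}
    (hz : Labels M r (Set.Icc a b) z) (hy : Labels M r (Set.Icc b c) y) :
    ∃ x : Fin M → ℝ → ℂ, Labels M r (Set.Icc a c) x ∧ ∀ s ≤ b, ∀ j, x j s = z j s := by
  classical
  have hb1 : b ∈ Set.Icc a b := ⟨hab, le_rfl⟩
  have hb2 : b ∈ Set.Icc b c := ⟨le_rfl, hbc⟩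
  have h1 : ∀ j, ∃ i, z j b = y i b := by
    intro j
    have h2 := hz.mem hb1 j
    rw [hy.2.2 b hb2] at h2
    simp only [img, mem_image, mem_univ, true_and] at h2
    obtain ⟨i, hi⟩ := h2
    exact ⟨i, hi.symm⟩
  choose σ hσ using h1
  have hσi : Function.Injective σ := by
    intro i j hij
    exact hz.2.1 b hb1 (show z i b = z j b by rw [hσ i, hσ j, hij])
  have hσb : Function.Bijective σ := Finite.injective_iff_bijective.1 hσi
  set x : Fin M → ℝ → ℂ := fun j s => if s ≤ b then z j s else y (σ j) s with hx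
  have hx1 : ∀ s ≤ b, ∀ j, x j s = z j s := fun s hs j => by simp [hx, hs]
  have hx2 : ∀ s, b ≤ s → ∀ j, x j s = y (σ j) s := by
    intro s hs j
    rcases hs.eq_or_lt with h | h
    · rw [← h, hx1 b le_rfl j, hσ j]
    · simp [hx, not_le.2 h]
  have hU : Set.Icc a c = Set.Icc a b ∪ Set.Icc b c := (Set.Icc_union_Icc_eq_Icc hab hbc).symm
  refine ⟨x, ⟨fun j => ?_, fun s hs => ?_, fun s hs => ?_⟩, hx1⟩
  · rw [hU]
    refine ContinuousOn.union_of_isClosed ?_ ?_ isClosed_Icc isClosed_Icc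
    · exact (hz.1 j).congr fun s hs => hx1 s hs.2 j
    · exact (hy.1 (σ j)).congr fun s hs => hx2 s hs.1 j
  · rw [hU] at hs
    rcases hs with hs | hs
    · intro i j hij
      have : x i s = x j s := hij
      rw [hx1 s hs.2, hx1 s hs.2] at this
      exact hz.2.1 s hs this
    · intro i j hij
      have : x i s = x j s := hij
      rw [hx2 s hs.1, hx2 s hs.1] at this
      exact hσi (hy.2.1 s hs this)
  · rw [hU] at hs
    rcases hs with hs | hs
    · rw [hz.2.2 s hs]
      congr 1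
      funext j
      exact (hx1 s hs.2 j).symm
    · rw [hy.2.2 s hs]
      ext v
      simp only [img, mem_image, mem_univ, true_and]
      constructor
      · rintro ⟨i, hi⟩
        obtain ⟨j, hj⟩ := hσb.2 i
        exact ⟨j, by rw [hx2 s hs.1, hj]; exact hi⟩
      · rintro ⟨j, hj⟩
        rw [hx2 s hs.1] at hj
        exact ⟨σ j, hj⟩

/-- **labelled continuous roots** -/
theorem labels_exist (hc : ∀ n, ContinuousOn (fun s => (r s).coeff n) (Set.Icc 0 1))
    (hd : ∀ s ∈ Set.Icc (0 : ℝ) 1, (r s).natDegree = d)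
    (h0 : ∀ s ∈ Set.Icc (0 : ℝ) 1, r s ≠ 0)
    (hM : ∀ s ∈ Set.Icc (0 : ℝ) 1, (r s).roots.toFinset.card = M) :
    ∃ z : Fin M → ℝ → ℂ, Labels M r (Set.Icc 0 1) z := by
  classical
  have hloc := fun s₀ : Set.Icc (0 : ℝ) 1 => local_labels hc hd h0 hM s₀.2
  choose V hV hm y hy using hloc
  obtain ⟨t, ht0, htm, ⟨m, hm1⟩, hcov⟩ := exists_monotone_Icc_subset_open_cover_Icc
    (zero_le_one (α := ℝ)) (c := fun s₀ => (fun x : Set.Icc (0 : ℝ) 1 => (x : ℝ)) ⁻¹' V s₀)
    (fun s₀ => (hV s₀).preimage continuous_subtype_val)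
    (fun s _ => Set.mem_iUnion.2 ⟨s, hm s⟩)
  have key : ∀ n : ℕ, ∃ z : Fin M → ℝ → ℂ, Labels M r (Set.Icc 0 (t n : ℝ)) z := by
    intro n
    induction n with
    | zero =>
      rw [ht0]
      have h01 : (0 : ℝ) ∈ Set.Icc (0 : ℝ) 1 := ⟨le_rfl, zero_le_one⟩
      refine ⟨y ⟨0, h01⟩, (hy ⟨0, h01⟩).mono fun s hs => ?_⟩
      have hs0 : s = 0 := le_antisymm hs.2 hs.1
      rw [hs0]
      exact ⟨hm ⟨0, h01⟩, h01⟩
    | succ n ih =>
      obtain ⟨z, hz⟩ := ih
      obtain ⟨s₀, hs₀⟩ := hcov n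
      have hle : (t n : ℝ) ≤ t (n + 1) := htm (Nat.le_succ n)
      have hy' : Labels M r (Set.Icc (t n : ℝ) (t (n + 1))) (y s₀) :=
        (hy s₀).mono fun s hs => by
          have hs1 : s ∈ Set.Icc (0 : ℝ) 1 := ⟨(t n).2.1.trans hs.1, hs.2.trans (t (n + 1)).2.2⟩
          exact ⟨hs₀ (show (⟨s, hs1⟩ : Set.Icc (0 : ℝ) 1) ∈ Set.Icc (t n) (t (n + 1)) from
            ⟨hs.1, hs.2⟩), hs1⟩
      obtain ⟨x, hx, -⟩ := glue (t n).2.1 hle hz hy'
      exact ⟨x, hx⟩
  obtain ⟨z, hz⟩ := key m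
  rw [hm1 m le_rfl] at hz
  exact ⟨z, hz⟩

/-- **labels of two families with the same order types**: if the order types of the roots agree at
all times then the roots of both families can be labelled such that the pairs of ranks agree at all
times; the labels of the first family can be prescribed -/
theorem labels_match {r' : ℝ → ℂ[X]} {z y : Fin M → ℝ → ℂ} (hz : Labels M r (Set.Icc 0 1) z)
    (hy : Labels M r' (Set.Icc 0 1) y)
    (hO : ∀ s ∈ Set.Icc (0 : ℝ) 1, OT (r s) = OT (r' s)) :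
    ∃ z' : Fin M → ℝ → ℂ, Labels M r' (Set.Icc 0 1) z' ∧ ∀ s ∈ Set.Icc (0 : ℝ) 1, ∀ j,
      pr (r s).roots.toFinset (z j s) = pr (r' s).roots.toFinset (z' j s) := by
  have h01 : (0 : ℝ) ∈ Set.Icc (0 : ℝ) 1 := ⟨le_rfl, zero_le_one⟩
  have hO' : ∀ s ∈ Set.Icc (0 : ℝ) 1, OTs (img fun j => z j s) = OTs (img fun j => y j s) := by
    intro s hs
    rw [← hz.2.2 s hs, ← hy.2.2 s hs]
    exact hO s hs
  obtain ⟨σ, hσ⟩ := exists_perm (hz.2.1 0 h01) (hO' 0 h01)
  have hperm : ∀ s, img (fun j => y (σ j) s) = img fun j => y j s := fun s =>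
    img_perm (fun j => y j s) σ
  have hy' : Labels M r' (Set.Icc 0 1) fun j => y (σ j) :=
    ⟨fun j => hy.1 (σ j), fun s hs => (hy.2.1 s hs).comp σ.injective, fun s hs => by
      rw [hperm s]; exact hy.2.2 s hs⟩
  refine ⟨fun j => y (σ j), hy', fun s hs j => ?_⟩
  have h := match_all (z := z) (z' := fun j => y (σ j)) hz.1 hy'.1 hz.2.1 hy'.2.1
    (fun s hs => by rw [hperm s]; exact hO' s hs) h01
    (fun j => by rw [hperm 0]; exact hσ j) s hs j
  rw [hz.2.2 s hs, hy'.2.2 s hs]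
  exact h

end Pool.Agent.QC.Lab
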