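import Pool.Agent.QC.Lab.Real
import Pool.Agent.QC.Tame.Iface

/-!
# True labels (MP_7c50a9_lc, section 7)

A label of the root system which is a critical value at one time is a critical value at all times
(`true_const`, `true_chain`), so two inputs with the same words have the same true labels
(`same_true`).  The labels of the pair of an event are the same for both inputs: `up_label` (pair
not real) and `real_label` (real pair).
-/

set_option autoImplicit false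

namespace Pool.Agent.QC.Lab

open Filter Topology MvPolynomial Set

variable {n l : ℕ} {Phi : MvPolynomial (Ix n l) ℂ}

/-- the critical values persist -/
theorem sig_lsc {q : Tup n l} (h : Nice q) {w : ℂ} (hw : w ∈ SigF (f0 q)) {O : Set ℂ}
    (hO : O ∈ 𝓝 w) : ∀ᶠ q' in 𝓝 q, (SigF (f0 q') ∩ O).Nonempty := by
  obtain ⟨x, hx, rfl⟩ := hw
  obtain ⟨_, _, h1⟩ := crit_near hx (h.2.2.1.1 x hx)
  have h2 : (fun y : Fin (n + 1) → ℂ => y (Fin.last n)) ⁻¹' O ∈ 𝓝 x :=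
    (continuous_apply (Fin.last n)).continuousAt.preimage_mem_nhds hO
  filter_upwards [h1 _ h2] with q' hq'
  obtain ⟨y, hy, -, -⟩ := hq'
  exact ⟨y (Fin.last n), ⟨y, hy.1, rfl⟩, hy.2⟩

/-- no new critical values -/
theorem sig_usc {q : Tup n l} (h : Nice q) {w : ℂ} (hw : w ∉ SigF (f0 q)) :
    ∃ O ∈ 𝓝 w, ∀ᶠ q' in 𝓝 q, Disjoint (SigF (f0 q')) O := by
  have h1 := notSig_open h.1 h.2.1 hw
  rw [nhds_prod_eq, eventually_prod_iff] at h1
  obtain ⟨pa, ha, pb, hb, hab⟩ := h1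
  refine ⟨{z | pb z}, hb, ?_⟩
  filter_upwards [ha] with q' hq'
  rw [Set.disjoint_left]
  exact fun z hz hz' => hab hq' hz' hz

/-- **true labels are constant** along a path -/
theorem true_const (hPhi : GoodPhi Phi) (RS : RootSys Phi) {γ : ℝ → Tup n l}
    (hγ : ContinuousOn γ (Icc 0 1)) (hP : ∀ s ∈ Icc (0 : ℝ) 1, eval (cfs (γ s)) Phi ≠ 0)
    {z : Fin RS.M → ℝ → ℂ} (hz : SLab RS.M (fun s => RS.Rt (γ s)) (Icc 0 1) z) (j : Fin RS.M)
    {s s' : ℝ} (hs : s ∈ Icc (0 : ℝ) 1) (hs' : s' ∈ Icc (0 : ℝ) 1) :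
    z j s ∈ SigF (f0 (γ s)) ↔ z j s' ∈ SigF (f0 (γ s')) := by
  refine hz.const (A := fun s => SigF (f0 (γ s))) (fun s hs => RS.sub _ (hP s hs)) ?_ ?_ j s hs
    s' hs'
  · intro s hs w hw O hO
    exact (hγ s hs).eventually (sig_lsc (hPhi _ (hP s hs)) hw hO)
  · intro s hs w hw
    obtain ⟨O, hO, h1⟩ := sig_usc (hPhi _ (hP s hs)) hw
    exact ⟨O, hO, (hγ s hs).eventually h1⟩

/-- **true labels are constant** along a chain of paths -/
theorem true_chain (hPhi : GoodPhi Phi) (RS : RootSys Phi) (m : ℕ) {γ : ℕ → ℝ → Tup n l}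
    (hγ : ∀ k ≤ m, ContinuousOn (γ k) (Icc 0 1))
    (hP : ∀ k ≤ m, ∀ s ∈ Icc (0 : ℝ) 1, eval (cfs (γ k s)) Phi ≠ 0)
    (hj : ∀ k < m, γ k 1 = γ (k + 1) 0) {z : ℕ → Fin RS.M → ℝ → ℂ}
    (hz : ∀ k ≤ m, SLab RS.M (fun s => RS.Rt (γ k s)) (Icc 0 1) (z k))
    (hzj : ∀ k < m, ∀ j, z k j 1 = z (k + 1) j 0) (j : Fin RS.M) :
    z 0 j 0 ∈ SigF (f0 (γ 0 0)) ↔ z m j 1 ∈ SigF (f0 (γ m 1)) := by
  induction m with
  | zero => exact true_const hPhi RS (hγ 0 le_rfl) (hP 0 le_rfl) (hz 0 le_rfl) j (by simp) (by simp)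
  | succ m ih =>
    have h1 := ih (fun k hk => hγ k (by omega)) (fun k hk => hP k (by omega))
      (fun k hk => hj k (by omega)) (fun k hk => hz k (by omega)) fun k hk => hzj k (by omega)
    rw [h1, hzj m (by omega), hj m (by omega)]
    exact true_const hPhi RS (hγ _ le_rfl) (hP _ le_rfl) (hz _ le_rfl) j (by simp) (by simp)

/-- **two inputs with the same words have the same true labels**; `z'` are labels of the
reparametrised paths, as in `path_chain` -/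
theorem same_true (hPhi : GoodPhi Phi) (RS : RootSys Phi) (m : ℕ) {γ γ' : ℕ → ℝ → Tup n l}
    (hc : ∀ k ≤ m, Continuous (γ k)) (hc' : ∀ k ≤ m, Continuous (γ' k))
    (hP : ∀ k ≤ m, ∀ s ∈ Icc (0 : ℝ) 1, eval (cfs (γ k s)) Phi ≠ 0)
    (hP' : ∀ k ≤ m, ∀ s ∈ Icc (0 : ℝ) 1, eval (cfs (γ' k s)) Phi ≠ 0)
    (hj : ∀ k < m, γ k 1 = γ (k + 1) 0) (hj' : ∀ k < m, γ' k 1 = γ' (k + 1) 0)
    (h0 : γ 0 0 = γ' 0 0) {e : ℕ → ℝ → ℝ}
    (he : ∀ k ≤ m, Continuous (e k) ∧ MapsTo (e k) (Icc 0 1) (Icc 0 1) ∧ e k 0 = 0 ∧ e k 1 = 1)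
    {z z' : ℕ → Fin RS.M → ℝ → ℂ}
    (hz : ∀ k ≤ m, SLab RS.M (fun s => RS.Rt (γ k s)) (Icc 0 1) (z k))
    (hz' : ∀ k ≤ m, SLab RS.M (fun s => RS.Rt (γ' k (e k s))) (Icc 0 1) (z' k))
    (hz0 : ∀ j, z 0 j 0 = z' 0 j 0) (hzj : ∀ k < m, ∀ j, z k j 1 = z (k + 1) j 0)
    (hzj' : ∀ k < m, ∀ j, z' k j 1 = z' (k + 1) j 0) (j : Fin RS.M) :
    z m j 1 ∈ SigF (f0 (γ m 1)) ↔ z' m j 1 ∈ SigF (f0 (γ' m 1)) := by
  have h1 := true_chain hPhi RS m (fun k hk => (hc k hk).continuousOn) hP hj hz hzj j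
  have h2 := true_chain hPhi RS m (γ := fun k s => γ' k (e k s))
    (fun k hk => ((hc' k hk).comp (he k hk).1).continuousOn)
    (fun k hk s hs => hP' k hk _ ((he k hk).2.1 hs))
    (fun k hk => by rw [(he k hk.le).2.2.2, (he (k + 1) hk).2.2.1, hj' k hk]) hz' hzj' j
  simp only [(he 0 (Nat.zero_le m)).2.2.1, (he m le_rfl).2.2.2] at h2
  rw [← h1, ← h2, hz0, h0]

section Pair

variable {M : ℕ} {z z' : Fin M → ℂ} {A A' : Set ℂ}

/-- **the labels of the pair of an event, pair not real**: `a` is the lowest true point above the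
real axis -/
theorem up_label (h : SameZ z z') (hz : Function.Injective z) (hz' : Function.Injective z')
    (hc : Cj z) (hc' : Cj z') (hA : A ⊆ range z) (hA' : A' ⊆ range z')
    (ht : ∀ j, z j ∈ A ↔ z' j ∈ A') {a a' : ℂ} (ha : a ∈ A) (ha' : a' ∈ A') (h0 : 0 < a.im)
    (h0' : 0 < a'.im) (hm : ∀ w ∈ A, 0 < w.im → w ≠ a → a.im < w.im)
    (hm' : ∀ w ∈ A', 0 < w.im → w ≠ a' → a'.im < w.im) :
    ∃ u v, z u = a ∧ z' u = a' ∧ z v = (starRingEnd ℂ) a ∧ z' v = (starRingEnd ℂ) a' := by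
  obtain ⟨u, rfl⟩ := hA ha
  obtain ⟨u', rfl⟩ := hA' ha'
  have e : u = u' := h.up_eq hz hz' hc hc' (J := {j | z j ∈ A}) ha ((ht u').2 ha') h0 h0'
    (fun j hj h1 h2 => hm _ hj h1 fun h3 => h2 (hz h3))
    fun j hj h1 h2 => hm' _ ((ht j).1 hj) h1 fun h3 => h2 (hz' h3)
  subst e
  obtain ⟨τ, h1, h2⟩ := h.conj hz hz' hc hc'
  exact ⟨u, τ u, rfl, rfl, h1 u, h2 u⟩

/-- **the labels of the pair of an event, real pair**: `b < v ≤ a`, no true point between -/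
theorem real_label (h : SameZ z z') (hz : Function.Injective z) (hz' : Function.Injective z')
    (hc : Cj z) (hc' : Cj z') (hA : A ⊆ range z) (hA' : A' ⊆ range z')
    (ht : ∀ j, z j ∈ A ↔ z' j ∈ A') {v v' : ℝ}
    (hn : {w ∈ range z | w.im = 0 ∧ w.re < v}.ncard =
      {w ∈ range z' | w.im = 0 ∧ w.re < v'}.ncard)
    {a a' b b' : ℂ} (ha : a ∈ A) (ha' : a' ∈ A') (hb : b ∈ A) (hb' : b' ∈ A')
    (a0 : a.im = 0 ∧ v ≤ a.re) (a0' : a'.im = 0 ∧ v' ≤ a'.re)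
    (b0 : b.im = 0 ∧ b.re < v) (b0' : b'.im = 0 ∧ b'.re < v')
    (hm : ∀ w ∈ A, w.im = 0 → w ≠ a → w ≠ b → w.re < b.re ∨ a.re < w.re)
    (hm' : ∀ w ∈ A', w.im = 0 → w ≠ a' → w ≠ b' → w.re < b'.re ∨ a'.re < w.re) :
    ∃ u w, z u = a ∧ z' u = a' ∧ z w = b ∧ z' w = b' := by
  obtain ⟨u, rfl⟩ := hA ha
  obtain ⟨u', rfl⟩ := hA' ha'
  obtain ⟨w, rfl⟩ := hA hb
  obtain ⟨w', rfl⟩ := hA' hb'
  have e1 : u = u' := by
    refine h.right_eq hz hz' hc hc' hn (J := {j | z j ∈ A}) ha ((ht u').2 ha') a0 a0' ?_ ?_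
    · intro j hj h1 h2 h3
      have hb3 : z j ≠ z w := by
        rintro h4
        rw [h4] at h2
        linarith [b0.2]
      rcases hm _ hj h1 (fun h4 => h3 (hz h4)) hb3 with h4 | h4
      · linarith [b0.2]
      · exact h4
    · intro j hj h1 h2 h3
      have hb3 : z' j ≠ z' w' := by
        rintro h4
        rw [h4] at h2
        linarith [b0'.2]
      rcases hm' _ ((ht j).1 hj) h1 (fun h4 => h3 (hz' h4)) hb3 with h4 | h4
      · linarith [b0'.2]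
      · exact h4
  have e2 : w = w' := by
    refine h.left_eq hz hz' hc hc' hn (J := {j | z j ∈ A}) hb ((ht w').2 hb') b0 b0' ?_ ?_
    · intro j hj h1 h2 h3
      have ha3 : z j ≠ z u := by
        rintro h4
        rw [h4] at h2
        linarith [a0.2]
      rcases hm _ hj h1 ha3 (fun h4 => h3 (hz h4)) with h4 | h4
      · exact h4
      · linarith [a0.2]
    · intro j hj h1 h2 h3
      have ha3 : z' j ≠ z' u' := by
        rintro h4
        rw [h4] at h2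
        linarith [a0'.2]
      rcases hm' _ ((ht j).1 hj) h1 ha3 (fun h4 => h3 (hz' h4)) with h4 | h4
      · exact h4
      · linarith [a0'.2]
  subst e1
  subst e2
  exact ⟨u, w, rfl, rfl, rfl, rfl⟩

end Pair

/-- the roots of a real tuple are closed under conjugation -/
theorem cj_of_real (RS : RootSys Phi) {q : RTup n l} {z : Fin RS.M → ℂ}
    (h : RS.Rt (tC q) = range z) : Cj z := by
  intro w hw
  rw [← h] at hw ⊢
  exact RS.conj q w hw

end Pool.Agent.QC.Lab
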