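import Pool.Agent.QC.Rec
import Pool.Agent.QC.Lab.Conf

/-!
# Moving finite sets, their words and labels (MP_7c50a9_lc, sections 7 and 8)

`Mov M S`: the finite set `S s`, `s` in `[0,1]`, has `M` elements and moves continuously.
`SLab M S K z`: the points `z j s` are continuous labels of `S s` for `s` in `K`.
`chain_labels`: two sequences of moving sets with the same order types at all times, starting from
the same set, have labels with the same ranks at all times.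
`chain_conf`: the same as input of `Grid.chain`.
-/

set_option autoImplicit false

namespace Pool.Agent.QC.Lab

open Filter Topology MvPolynomial

/-- a moving finite set with `M` elements -/
structure Mov (M : ℕ) (S : ℝ → Set ℂ) : Prop where
  finite : ∀ s ∈ Set.Icc (0 : ℝ) 1, (S s).Finite
  card : ∀ s ∈ Set.Icc (0 : ℝ) 1, (S s).ncard = M
  lsc : ∀ s ∈ Set.Icc (0 : ℝ) 1, ∀ z ∈ S s, ∀ O ∈ 𝓝 z,
    ∀ᶠ s' in 𝓝[Set.Icc 0 1] s, (S s' ∩ O).Nonempty

/-- continuous labels of the moving set `S` for the times in `K` -/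
structure SLab (M : ℕ) (S : ℝ → Set ℂ) (K : Set ℝ) (z : Fin M → ℝ → ℂ) : Prop where
  cont : ∀ j, ContinuousOn (z j) K
  inj : ∀ s ∈ K, Function.Injective fun j => z j s
  range : ∀ s ∈ K, S s = Set.range fun j => z j s

variable {M : ℕ} {S T : ℝ → Set ℂ} {K L : Set ℝ} {z : Fin M → ℝ → ℂ}

theorem SLab.mono (h : SLab M S K z) (hL : L ⊆ K) : SLab M S L z :=
  ⟨fun j => (h.cont j).mono hL, fun s hs => h.inj s (hL hs), fun s hs => h.range s (hL hs)⟩

theorem SLab.mem (h : SLab M S K z) {s : ℝ} (hs : s ∈ K) (j : Fin M) : z j s ∈ S s := by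
  rw [h.range s hs]
  exact ⟨j, rfl⟩

/-- a moving set may be reparametrised -/
theorem Mov.comp (h : Mov M S) {e : ℝ → ℝ} (he : Continuous e)
    (hm : Set.MapsTo e (Set.Icc 0 1) (Set.Icc 0 1)) : Mov M fun s => S (e s) := by
  refine ⟨fun s hs => h.finite _ (hm hs), fun s hs => h.card _ (hm hs), fun s hs z hz O hO => ?_⟩
  have h1 := h.lsc (e s) (hm hs) z hz O hO
  have h2 : Tendsto e (𝓝[Set.Icc 0 1] s) (𝓝[Set.Icc 0 1] (e s)) :=
    tendsto_nhdsWithin_iff.2 ⟨he.continuousAt.mono_left nhdsWithin_le_nhds,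
      eventually_mem_nhdsWithin.mono fun x hx => hm hx⟩
  exact h2.eventually h1

/-- a finite set with `M` elements is enumerated -/
private theorem enumS {A : Set ℂ} (hf : A.Finite) (hA : A.ncard = M) :
    ∃ w : Fin M → ℂ, Function.Injective w ∧ A = Set.range w := by
  have hc : hf.toFinset.card = M := by
    rw [← hA, Set.ncard_eq_toFinset_card A hf]
  let e := hf.toFinset.equivFinOfCardEq hc
  refine ⟨fun j => (e.symm j : ℂ), Subtype.val_injective.comp e.symm.injective, ?_⟩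
  ext w
  rw [Set.mem_range]
  constructor
  · intro hw
    exact ⟨e ⟨w, hf.mem_toFinset.2 hw⟩, by simp⟩
  · rintro ⟨j, hj⟩
    rw [← hj]
    exact hf.mem_toFinset.1 (e.symm j).2

/-- separation of finitely many different points -/
private theorem sep {w : Fin M → ℂ} (hw : Function.Injective w) :
    ∃ ε : ℝ, 0 < ε ∧ ∀ i j, i ≠ j → 2 * ε ≤ ‖w i - w j‖ := by
  classical
  have h1 : ∀ p : Fin M × Fin M, ∃ ε : ℝ, 0 < ε ∧ (p.1 ≠ p.2 → 2 * ε ≤ ‖w p.1 - w p.2‖) := by
    intro p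
    by_cases hp : p.1 = p.2
    · exact ⟨1, one_pos, fun h => absurd hp h⟩
    · refine ⟨‖w p.1 - w p.2‖ / 2, ?_, fun _ => by linarith⟩
      have := norm_pos_iff.2 (sub_ne_zero.2 fun h => hp (hw h))
      linarith
  choose e he he' using h1
  rcases Finset.univ.eq_empty_or_nonempty (α := Fin M × Fin M) with hem | hne
  · refine ⟨1, one_pos, fun i j _ => ?_⟩
    have : (i, j) ∈ (Finset.univ : Finset (Fin M × Fin M)) := Finset.mem_univ _
    rw [hem] at this
    simp at this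
  · refine ⟨(Finset.univ : Finset (Fin M × Fin M)).inf' hne e, ?_, fun i j hij => ?_⟩
    · rw [Finset.lt_inf'_iff]
      exact fun p _ => he p
    · have h2 := Finset.inf'_le e (Finset.mem_univ (i, j))
      have h3 := he' (i, j) hij
      simp only at h3
      linarith

/-- lower semicontinuity with norms -/
private theorem Mov.ev (h : Mov M S) {s : ℝ} (hs : s ∈ Set.Icc (0 : ℝ) 1) {u : ℂ} (hu : u ∈ S s)
    {ε : ℝ} (hε : 0 < ε) : ∀ᶠ s' in 𝓝[Set.Icc 0 1] s, ∃ v ∈ S s', ‖u - v‖ < ε := by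
  filter_upwards [h.lsc s hs u hu _ (Metric.ball_mem_nhds u hε)] with t ht
  obtain ⟨v, hv, hv'⟩ := ht
  refine ⟨v, hv, ?_⟩
  rw [Metric.mem_ball, dist_eq_norm, norm_sub_rev] at hv'
  exact hv'

/-- local labels -/
private theorem local_lab (h : Mov M S) {s₀ : ℝ} (hs₀ : s₀ ∈ Set.Icc (0 : ℝ) 1) :
    ∃ V : Set ℝ, IsOpen V ∧ s₀ ∈ V ∧ ∃ z : Fin M → ℝ → ℂ, SLab M S (V ∩ Set.Icc 0 1) z := by
  classical
  obtain ⟨w, hw, hwS⟩ := enumS (h.finite s₀ hs₀) (h.card s₀ hs₀)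
  obtain ⟨ε, hε, hsep⟩ := sep hw
  have hev : ∀ᶠ s in 𝓝[Set.Icc 0 1] s₀, ∀ j, ∃ v ∈ S s, ‖w j - v‖ < ε := by
    rw [Filter.eventually_all]
    intro j
    exact h.ev hs₀ (by rw [hwS]; exact ⟨j, rfl⟩) hε
  rw [Filter.eventually_iff, mem_nhdsWithin] at hev
  obtain ⟨V, hV, hsV, hVs⟩ := hev
  refine ⟨V, hV, hsV, ?_⟩
  have hVs' : ∀ s : ℝ, ∀ j, ∃ v : ℂ, s ∈ V ∩ Set.Icc 0 1 → v ∈ S s ∧ ‖w j - v‖ < ε := by
    intro s j
    by_cases hs : s ∈ V ∩ Set.Icc 0 1
    · obtain ⟨v, hv, hv'⟩ := hVs hs j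
      exact ⟨v, fun _ => ⟨hv, hv'⟩⟩
    · exact ⟨0, fun h => absurd h hs⟩
  choose z hz using hVs'
  have hinj : ∀ s ∈ V ∩ Set.Icc 0 1, Function.Injective fun j => z s j := by
    intro s hs i j hij
    by_contra hne
    have h1 := hsep i j hne
    have h2 := (hz s i hs).2
    have h3 := (hz s j hs).2
    have h4 : w i - w j = (w i - z s i) - (w j - z s j) := by
      rw [show z s i = z s j from hij]; ring
    have h5 : ‖w i - w j‖ ≤ ‖w i - z s i‖ + ‖w j - z s j‖ := by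
      rw [h4]; exact norm_sub_le _ _
    linarith
  have himg : ∀ s ∈ V ∩ Set.Icc 0 1, S s = Set.range fun j => z s j := by
    intro s hs
    symm
    refine Set.eq_of_subset_of_ncard_le ?_ ?_ (h.finite s hs.2)
    · rintro v ⟨j, hj⟩
      rw [← hj]
      exact (hz s j hs).1
    · rw [h.card s hs.2, ← Set.image_univ, Set.ncard_image_of_injective _ (hinj s hs),
        Set.ncard_univ, Nat.card_eq_fintype_card, Fintype.card_fin]
  refine ⟨fun j s => z s j, fun j => ?_, hinj, himg⟩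
  intro s hs
  rw [Metric.continuousWithinAt_iff']
  intro η hη
  have h1 := (hz s j hs).2
  have hδ : 0 < min η (ε - ‖w j - z s j‖) := lt_min hη (by linarith)
  have h2 := h.ev hs.2 (hz s j hs).1 hδ
  have h3 : 𝓝[V ∩ Set.Icc 0 1] s ≤ 𝓝[Set.Icc 0 1] s := nhdsWithin_mono _ Set.inter_subset_right
  filter_upwards [h3 h2, self_mem_nhdsWithin] with t ht htV
  obtain ⟨v, hv, hv'⟩ := ht
  have hvj : v = z t j := by
    rw [himg t htV] at hv
    obtain ⟨i, hi⟩ := hv
    simp only at hi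
    by_cases hij : i = j
    · rw [← hi, hij]
    · exfalso
      have h4 := hsep i j hij
      have h5 := (hz t i htV).2
      rw [hi] at h5
      have h6 : ‖w j - v‖ ≤ ‖w j - z s j‖ + ‖z s j - v‖ := by
        have : w j - v = (w j - z s j) + (z s j - v) := by ring
        rw [this]; exact norm_add_le _ _
      have h7 : ‖z s j - v‖ < ε - ‖w j - z s j‖ := hv'.trans_le (min_le_right _ _)
      have h8 : ‖w i - w j‖ ≤ ‖w i - v‖ + ‖w j - v‖ := by
        have : w i - w j = (w i - v) - (w j - v) := by ring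
        rw [this]; exact norm_sub_le _ _
      linarith
  rw [← hvj, dist_eq_norm, norm_sub_rev]
  exact hv'.trans_le (min_le_left _ _)

/-- relabelling -/
theorem SLab.perm (h : SLab M S K z) (σ : Equiv.Perm (Fin M)) : SLab M S K fun j => z (σ j) :=
  ⟨fun j => h.cont (σ j), fun s hs => (h.inj s hs).comp σ.injective, fun s hs => by
    rw [h.range s hs]
    exact (σ.surjective.range_comp fun j => z j s).symm⟩

/-- labels with prescribed values at one time -/
theorem SLab.relabel (h : SLab M S K z) {s₀ : ℝ} (hs₀ : s₀ ∈ K) {a : Fin M → ℂ}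
    (ha : Function.Injective a) (haS : S s₀ = Set.range a) :
    ∃ σ : Equiv.Perm (Fin M), ∀ j, z (σ j) s₀ = a j := by
  have h1 : ∀ j, ∃ i, z i s₀ = a j := by
    intro j
    have h2 : a j ∈ S s₀ := by rw [haS]; exact ⟨j, rfl⟩
    rw [h.range s₀ hs₀] at h2
    exact h2
  choose σ hσ using h1
  have hσi : Function.Injective σ := fun i j hij => ha (by rw [← hσ i, ← hσ j, hij])
  exact ⟨Equiv.ofBijective σ (Finite.injective_iff_bijective.1 hσi), hσ⟩

/-- gluing two labellings at a point -/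
private theorem glueS {a b c : ℝ} (hab : a ≤ b) (hbc : b ≤ c) {z y : Fin M → ℝ → ℂ}
    (hz : SLab M S (Set.Icc a b) z) (hy : SLab M S (Set.Icc b c) y) :
    ∃ x : Fin M → ℝ → ℂ, SLab M S (Set.Icc a c) x := by
  classical
  have hb1 : b ∈ Set.Icc a b := ⟨hab, le_rfl⟩
  have hb2 : b ∈ Set.Icc b c := ⟨le_rfl, hbc⟩
  obtain ⟨σ, hσ⟩ := hy.relabel hb2 (hz.inj b hb1) (hz.range b hb1)
  have hy' := hy.perm σ
  set x : Fin M → ℝ → ℂ := fun j s => if s ≤ b then z j s else y (σ j) s with hx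
  have hx1 : ∀ s ≤ b, ∀ j, x j s = z j s := fun s hs j => by simp [hx, hs]
  have hx2 : ∀ s, b ≤ s → ∀ j, x j s = y (σ j) s := by
    intro s hs j
    rcases hs.eq_or_lt with h | h
    · rw [← h, hx1 b le_rfl j, hσ j]
    · simp [hx, not_le.2 h]
  have hU : Set.Icc a c = Set.Icc a b ∪ Set.Icc b c := (Set.Icc_union_Icc_eq_Icc hab hbc).symm
  refine ⟨x, fun j => ?_, fun s hs => ?_, fun s hs => ?_⟩
  · rw [hU]
    refine ContinuousOn.union_of_isClosed ?_ ?_ isClosed_Icc isClosed_Icc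
    · exact (hz.cont j).congr fun s hs => hx1 s hs.2 j
    · exact (hy'.cont j).congr fun s hs => hx2 s hs.1 j
  · rw [hU] at hs
    rcases hs with hs | hs
    · have : (fun j => x j s) = fun j => z j s := funext fun j => hx1 s hs.2 j
      rw [this]
      exact hz.inj s hs
    · have : (fun j => x j s) = fun j => y (σ j) s := funext fun j => hx2 s hs.1 j
      rw [this]
      exact hy'.inj s hs
  · rw [hU] at hs
    rcases hs with hs | hs
    · have : (fun j => x j s) = fun j => z j s := funext fun j => hx1 s hs.2 j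
      rw [this]
      exact hz.range s hs
    · have : (fun j => x j s) = fun j => y (σ j) s := funext fun j => hx2 s hs.1 j
      rw [this]
      exact hy'.range s hs

/-- **a moving finite set has continuous labels** -/
theorem Mov.exists_lab (h : Mov M S) : ∃ z : Fin M → ℝ → ℂ, SLab M S (Set.Icc 0 1) z := by
  classical
  have hloc := fun s₀ : Set.Icc (0 : ℝ) 1 => local_lab h s₀.2
  choose V hV hm y hy using hloc
  obtain ⟨t, ht0, htm, ⟨m, hm1⟩, hcov⟩ := exists_monotone_Icc_subset_open_cover_Icc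
    (zero_le_one (α := ℝ)) (c := fun s₀ => (fun x : Set.Icc (0 : ℝ) 1 => (x : ℝ)) ⁻¹' V s₀)
    (fun s₀ => (hV s₀).preimage continuous_subtype_val)
    (fun s _ => Set.mem_iUnion.2 ⟨s, hm s⟩)
  have key : ∀ n : ℕ, ∃ z : Fin M → ℝ → ℂ, SLab M S (Set.Icc 0 (t n : ℝ)) z := by
    intro n
    induction n with
    | zero =>
      rw [ht0]
      have h01 : (0 : ℝ) ∈ Set.Icc (0 : ℝ) 1 := ⟨le_rfl, zero_le_one⟩
      refine ⟨y ⟨0, h01⟩, (hy ⟨0, h01⟩).mono fun s hs => ?_⟩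
      have hs0 : s = 0 := le_antisymm hs.2 hs.1
      rw [hs0]
      exact ⟨hm ⟨0, h01⟩, h01⟩
    | succ n ih =>
      obtain ⟨z, hz⟩ := ih
      obtain ⟨s₀, hs₀⟩ := hcov n
      have hle : (t n : ℝ) ≤ t (n + 1) := htm (Nat.le_succ n)
      have hy' : SLab M S (Set.Icc (t n : ℝ) (t (n + 1))) (y s₀) :=
        (hy s₀).mono fun s hs => by
          have hs1 : s ∈ Set.Icc (0 : ℝ) 1 := ⟨(t n).2.1.trans hs.1, hs.2.trans (t (n + 1)).2.2⟩
          exact ⟨hs₀ (show (⟨s, hs1⟩ : Set.Icc (0 : ℝ) 1) ∈ Set.Icc (t n) (t (n + 1)) from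
            ⟨hs.1, hs.2⟩), hs1⟩
      exact glueS (t n).2.1 hle hz hy'
  obtain ⟨z, hz⟩ := key m
  rw [hm1 m le_rfl] at hz
  exact ⟨z, hz⟩

/-- continuous labels with prescribed values at time 0 -/
theorem Mov.labels (h : Mov M S) {a : Fin M → ℂ} (ha : Function.Injective a)
    (haS : S 0 = Set.range a) :
    ∃ z : Fin M → ℝ → ℂ, SLab M S (Set.Icc 0 1) z ∧ ∀ j, z j 0 = a j := by
  obtain ⟨z, hz⟩ := h.exists_lab
  obtain ⟨σ, hσ⟩ := hz.relabel (s₀ := 0) (Set.left_mem_Icc.2 zero_le_one) ha haS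
  exact ⟨fun j => z (σ j), hz.perm σ, hσ⟩

/-! ## Ranks -/

theorem rk_range (z : Fin M → ℂ) (w : ℂ) : QC.rk (Set.range z) w = pr (img z) w := by
  unfold QC.rk pr rk
  rw [← Set.ncard_coe_finset, ← Set.ncard_coe_finset]
  refine Prod.ext ?_ ?_
  · refine congrArg Set.ncard ?_
    ext x
    simp [img]
  · refine congrArg Set.ncard ?_
    ext x
    simp [img]

theorem OT_range (z : Fin M → ℂ) : QC.OT (Set.range z) = (OTs (img z) : Set (ℕ × ℕ)) := by
  unfold QC.OT OTs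
  ext p
  simp only [rk_range, Set.mem_image, Set.mem_range, exists_exists_eq_and, img, Finset.coe_image,
    Finset.coe_univ, Set.image_univ]

/-- equal words: equal order types after a reparametrisation of the second family -/
theorem word_eq (h : word S = word T) : ∃ e : ℝ → ℝ, Continuous e ∧
    Set.MapsTo e (Set.Icc 0 1) (Set.Icc 0 1) ∧ e 0 = 0 ∧ e 1 = 1 ∧
    ∀ s ∈ Set.Icc (0 : ℝ) 1, QC.OT (S s) = QC.OT (T (e s)) := by
  obtain ⟨φ, hφ⟩ := Quotient.exact h
  have h01 : (0 : ℝ) ≤ 1 := zero_le_one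
  refine ⟨fun s => (φ (Set.projIcc 0 1 h01 s) : ℝ),
    continuous_subtype_val.comp (φ.continuous.comp continuous_projIcc),
    fun s _ => (φ _).2, ?_, ?_, fun s hs => ?_⟩
  · have h1 : φ ⟨0, Set.left_mem_Icc.2 h01⟩ ≤ ⟨0, Set.left_mem_Icc.2 h01⟩ := by
      rw [← φ.apply_symm_apply ⟨0, Set.left_mem_Icc.2 h01⟩, φ.le_iff_le]
      rw [φ.apply_symm_apply]
      exact (φ.symm _).2.1
    change ((φ (Set.projIcc 0 1 h01 0) : Set.Icc (0 : ℝ) 1) : ℝ) = 0
    rw [Set.projIcc_left]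
    exact le_antisymm h1 (φ _).2.1
  · have h1 : (⟨1, Set.right_mem_Icc.2 h01⟩ : Set.Icc (0 : ℝ) 1) ≤
        φ ⟨1, Set.right_mem_Icc.2 h01⟩ := by
      rw [← φ.apply_symm_apply ⟨1, Set.right_mem_Icc.2 h01⟩, φ.le_iff_le]
      rw [φ.apply_symm_apply]
      exact (φ.symm _).2.2
    change ((φ (Set.projIcc 0 1 h01 1) : Set.Icc (0 : ℝ) 1) : ℝ) = 1
    rw [Set.projIcc_right]
    exact le_antisymm (φ _).2.2 h1
  · have := hφ ⟨s, hs⟩
    change QC.OT (S s) = QC.OT (T (φ (Set.projIcc 0 1 h01 s) : Set.Icc (0 : ℝ) 1))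
    rw [Set.projIcc_of_mem h01 hs]
    exact this

/-! ## Chains of pieces -/

/-- labels of a chain of moving sets -/
theorem labels_chain (n : ℕ) {S : ℕ → ℝ → Set ℂ} (hS : ∀ k ≤ n, Mov M (S k))
    (hj : ∀ k < n, S k 1 = S (k + 1) 0) {a : Fin M → ℂ} (ha : Function.Injective a)
    (h0 : S 0 0 = Set.range a) :
    ∃ z : ℕ → Fin M → ℝ → ℂ, (∀ j, z 0 j 0 = a j) ∧ (∀ k ≤ n, SLab M (S k) (Set.Icc 0 1) (z k)) ∧
      ∀ k < n, ∀ j, z k j 1 = z (k + 1) j 0 := by
  classical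
  have m1 : (1 : ℝ) ∈ Set.Icc (0 : ℝ) 1 := Set.right_mem_Icc.2 zero_le_one
  induction n with
  | zero =>
    obtain ⟨z, hz, hz0⟩ := (hS 0 le_rfl).labels ha h0
    refine ⟨fun _ => z, hz0, fun k hk => ?_, fun k hk => absurd hk (Nat.not_lt_zero k)⟩
    rw [Nat.le_zero.1 hk]
    exact hz
  | succ n ih =>
    obtain ⟨z, hz0, hz, hzj⟩ := ih (fun k hk => hS k (hk.trans (Nat.le_succ n)))
      fun k hk => hj k (hk.trans (Nat.lt_succ_self n))
    have hn := hz n le_rfl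
    have h1 : S (n + 1) 0 = Set.range fun j => z n j 1 := by
      rw [← hj n (Nat.lt_succ_self n)]
      exact hn.range 1 m1
    obtain ⟨y, hy, hy0⟩ := (hS (n + 1) le_rfl).labels (hn.inj 1 m1) h1
    refine ⟨Function.update z (n + 1) y, fun j => ?_, fun k hk => ?_, fun k hk j => ?_⟩
    · rw [Function.update_of_ne (Nat.succ_ne_zero n).symm]
      exact hz0 j
    · by_cases h2 : k = n + 1
      · rw [h2, Function.update_self]
        exact hy
      · rw [Function.update_of_ne h2]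
        exact hz k (by omega)
    · have h3 : k ≠ n + 1 := by omega
      rw [Function.update_of_ne h3]
      by_cases h2 : k = n
      · rw [h2, Function.update_self]
        exact (hy0 j).symm
      · rw [Function.update_of_ne (by omega)]
        exact hzj k (by omega) j

/-- **labels with the same ranks**: two chains of moving sets which start from the same set and have
the same order types at all times -/
theorem chain_labels (n : ℕ) {S T : ℕ → ℝ → Set ℂ} (hS : ∀ k ≤ n, Mov M (S k))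
    (hT : ∀ k ≤ n, Mov M (T k)) (hjS : ∀ k < n, S k 1 = S (k + 1) 0)
    (hjT : ∀ k < n, T k 1 = T (k + 1) 0) (h0 : S 0 0 = T 0 0)
    (hO : ∀ k ≤ n, ∀ s ∈ Set.Icc (0 : ℝ) 1, QC.OT (S k s) = QC.OT (T k s)) :
    ∃ z z' : ℕ → Fin M → ℝ → ℂ, (∀ k ≤ n, SLab M (S k) (Set.Icc 0 1) (z k)) ∧
      (∀ k ≤ n, SLab M (T k) (Set.Icc 0 1) (z' k)) ∧ (∀ j, z 0 j 0 = z' 0 j 0) ∧
      (∀ k < n, ∀ j, z k j 1 = z (k + 1) j 0) ∧ (∀ k < n, ∀ j, z' k j 1 = z' (k + 1) j 0) ∧
      ∀ k ≤ n, ∀ s ∈ Set.Icc (0 : ℝ) 1, ∀ j,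
        QC.rk (S k s) (z k j s) = QC.rk (T k s) (z' k j s) := by
  have m0 : (0 : ℝ) ∈ Set.Icc (0 : ℝ) 1 := Set.left_mem_Icc.2 zero_le_one
  have m1 : (1 : ℝ) ∈ Set.Icc (0 : ℝ) 1 := Set.right_mem_Icc.2 zero_le_one
  obtain ⟨a, ha, haS⟩ := enumS ((hS 0 (Nat.zero_le n)).finite 0 m0)
    ((hS 0 (Nat.zero_le n)).card 0 m0)
  obtain ⟨z, hz0, hz, hzj⟩ := labels_chain n hS hjS ha haS
  obtain ⟨z', hz0', hz', hzj'⟩ := labels_chain n hT hjT ha (h0 ▸ haS)
  refine ⟨z, z', hz, hz', fun j => by rw [hz0, hz0'], hzj, hzj', ?_⟩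
  -- propagation along one piece
  have key : ∀ k ≤ n, (∀ j, QC.rk (S k 0) (z k j 0) = QC.rk (T k 0) (z' k j 0)) →
      ∀ s ∈ Set.Icc (0 : ℝ) 1, ∀ j, QC.rk (S k s) (z k j s) = QC.rk (T k s) (z' k j s) := by
    intro k hk h1 s hs j
    have h := match_all (z := z k) (z' := z' k) (hz k hk).cont (hz' k hk).cont (hz k hk).inj
      (hz' k hk).inj (fun s hs => by
        have h2 := hO k hk s hs
        rw [(hz k hk).range s hs, (hz' k hk).range s hs, OT_range, OT_range] at h2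
        exact Finset.coe_injective h2) m0 (fun j => by
        have h2 := h1 j
        rw [(hz k hk).range 0 m0, (hz' k hk).range 0 m0, rk_range, rk_range] at h2
        exact h2) s hs j
    rw [(hz k hk).range s hs, (hz' k hk).range s hs, rk_range, rk_range]
    exact h
  intro k
  induction k with
  | zero =>
    intro hk
    refine key 0 hk fun j => ?_
    rw [h0, hz0, hz0']
  | succ k ih =>
    intro hk
    refine key (k + 1) hk fun j => ?_
    rw [← hzj k (by omega) j, ← hzj' k (by omega) j, ← hjS k (by omega), ← hjT k (by omega)]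
    exact ih (by omega) 1 m1 j

/-- labels are bounded -/
theorem SLab.bound (h : SLab M S (Set.Icc 0 1) z) :
    ∃ R₀ : ℝ, 0 < R₀ ∧ ∀ s ∈ Set.Icc (0 : ℝ) 1, ∀ j, |(z j s).re| < R₀ ∧ |(z j s).im| < R₀ := by
  have h1 : ∀ j, ∃ B : ℝ, ∀ s ∈ Set.Icc (0 : ℝ) 1, ‖z j s‖ ≤ B := fun j =>
    isCompact_Icc.exists_bound_of_continuousOn (h.cont j)
  choose B hB using h1
  refine ⟨1 + ∑ j, |B j|, by positivity, fun s hs j => ?_⟩
  have h2 : ‖z j s‖ < 1 + ∑ j, |B j| := by
    have h3 := hB j s hs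
    have h4 := le_abs_self (B j)
    have h5 := Finset.single_le_sum (f := fun j => |B j|) (fun i _ => abs_nonneg (B i))
      (Finset.mem_univ j)
    linarith
  exact ⟨(Complex.abs_re_le_norm _).trans_lt h2, (Complex.abs_im_le_norm _).trans_lt h2⟩

/-- bound for finitely many pieces -/
private theorem bound_chain (n : ℕ) {S : ℕ → ℝ → Set ℂ} {z : ℕ → Fin M → ℝ → ℂ}
    (h : ∀ k ≤ n, SLab M (S k) (Set.Icc 0 1) (z k)) :
    ∃ R₀ : ℝ, 0 < R₀ ∧ ∀ k ≤ n, ∀ s ∈ Set.Icc (0 : ℝ) 1, ∀ j,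
      |(z k j s).re| < R₀ ∧ |(z k j s).im| < R₀ := by
  induction n with
  | zero =>
    obtain ⟨R₀, h1, h2⟩ := (h 0 le_rfl).bound
    refine ⟨R₀, h1, fun k hk => ?_⟩
    rw [Nat.le_zero.1 hk]
    exact h2
  | succ n ih =>
    obtain ⟨R₁, h1, h2⟩ := ih fun k hk => h k (hk.trans (Nat.le_succ n))
    obtain ⟨R₂, h3, h4⟩ := (h (n + 1) le_rfl).bound
    refine ⟨max R₁ R₂, lt_max_of_lt_left h1, fun k hk s hs j => ?_⟩
    rcases Nat.lt_or_ge n k with hk' | hk'
    · have : k = n + 1 := by omega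
      subst this
      exact ⟨(h4 s hs j).1.trans_le (le_max_right _ _), (h4 s hs j).2.trans_le (le_max_right _ _)⟩
    · exact ⟨(h2 k hk' s hs j).1.trans_le (le_max_left _ _),
        (h2 k hk' s hs j).2.trans_le (le_max_left _ _)⟩

/-- the configuration of labels -/
def SLab.conf {S : ℝ → Set ℂ} {z : Fin M → ℝ → ℂ} (h : SLab M S (Set.Icc 0 1) z) (R : ℝ)
    (hR : ∀ s ∈ Set.Icc (0 : ℝ) 1, ∀ j, |(z j s).re| < R ∧ |(z j s).im| < R) :
    Grid.Conf M R where
  z := z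
  cont := h.cont
  inj := fun s hs _ _ hij => h.inj s hs hij
  re_lt := fun s hs j => (hR s hs j).1
  im_lt := fun s hs j => (hR s hs j).2

/-- **the input of `Grid.chain`** from labels with the same ranks -/
theorem chain_conf (n : ℕ) {S T : ℕ → ℝ → Set ℂ} {z z' : ℕ → Fin M → ℝ → ℂ}
    (hz : ∀ k ≤ n, SLab M (S k) (Set.Icc 0 1) (z k))
    (hz' : ∀ k ≤ n, SLab M (T k) (Set.Icc 0 1) (z' k))
    (hr : ∀ k ≤ n, ∀ s ∈ Set.Icc (0 : ℝ) 1, ∀ j,
      QC.rk (S k s) (z k j s) = QC.rk (T k s) (z' k j s)) :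
    ∃ R₀ : ℝ, 0 < R₀ ∧ ∀ R, R₀ ≤ R → ∃ C C' : ℕ → Grid.Conf M R, (∀ k ≤ n, (C k).z = z k) ∧
      (∀ k ≤ n, (C' k).z = z' k) ∧
      ∀ k ≤ n, ∀ s ∈ Set.Icc (0 : ℝ) 1, Grid.SameAt (C k) (C' k) s := by
  obtain ⟨R₁, hR₁, h1⟩ := bound_chain n hz
  obtain ⟨R₂, -, h2⟩ := bound_chain n hz'
  refine ⟨max R₁ R₂, lt_max_of_lt_left hR₁, fun R hR => ?_⟩
  have k1 : ∀ k ≤ n, ∀ s ∈ Set.Icc (0 : ℝ) 1, ∀ j, |(z k j s).re| < R ∧ |(z k j s).im| < R :=
    fun k hk s hs j => ⟨(h1 k hk s hs j).1.trans_le ((le_max_left _ _).trans hR),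
      (h1 k hk s hs j).2.trans_le ((le_max_left _ _).trans hR)⟩
  have k2 : ∀ k ≤ n, ∀ s ∈ Set.Icc (0 : ℝ) 1, ∀ j, |(z' k j s).re| < R ∧ |(z' k j s).im| < R :=
    fun k hk s hs j => ⟨(h2 k hk s hs j).1.trans_le ((le_max_right _ _).trans hR),
      (h2 k hk s hs j).2.trans_le ((le_max_right _ _).trans hR)⟩
  refine ⟨fun k => (hz (min k n) (min_le_right _ _)).conf R (k1 _ (min_le_right _ _)),
    fun k => (hz' (min k n) (min_le_right _ _)).conf R (k2 _ (min_le_right _ _)),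
    fun k hk => ?_, fun k hk => ?_, fun k hk s hs => sameAt_of_pr fun j => ?_⟩
  · change z (min k n) = z k
    rw [min_eq_left hk]
  · change z' (min k n) = z' k
    rw [min_eq_left hk]
  · change pr (img fun j => z (min k n) j s) (z (min k n) j s) =
      pr (img fun j => z' (min k n) j s) (z' (min k n) j s)
    rw [min_eq_left hk]
    have h3 := hr k hk s hs j
    rw [(hz k hk).range s hs, (hz' k hk).range s hs, rk_range, rk_range] at h3
    exact h3

/-! ## Root systems -/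

/-- the roots along a path of tuples with `Phi ≠ 0` are a moving finite set -/
theorem mov_of_path {n l : ℕ} {Phi : MvPolynomial (Ix n l) ℂ} (RS : RootSys Phi)
    {γ : ℝ → Tup n l} (hγ : ContinuousOn γ (Set.Icc 0 1))
    (h : ∀ s ∈ Set.Icc (0 : ℝ) 1, eval (cfs (γ s)) Phi ≠ 0) :
    Mov RS.M fun s => RS.Rt (γ s) :=
  ⟨fun s hs => RS.finite _ (h s hs), fun s hs => RS.card _ (h s hs),
    fun s hs z hz O hO => (hγ s hs).eventually (RS.cont _ (h s hs) z hz O hO)⟩

end Pool.Agent.QC.Lab
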